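import Pool.Agent.U882.FW.Law

/-!
# The covering law
-/

set_option autoImplicit false

open Filter Set Metric Topology

namespace Pool.Agent.U882.FW

open Pool.Agent.H718R2.G

/-- a free shell -/
theorem free_shell {n : ℕ} (E : Finset (V n)) (ρ η : ℝ) (hη : 0 < η) :
    ∃ j : ℕ, j ≤ E.card ∧ ∀ e ∈ E, ¬ (ρ + j * η ≤ ‖e‖ ∧ ‖e‖ < ρ + (j + 1) * η) := by
  classical
  obtain ⟨f, hf⟩ : ∃ f : V n → ℕ, f = fun e => ⌊(‖e‖ - ρ) / η⌋₊ := ⟨_, rfl⟩
  have h1 : ∃ j ∈ Finset.range (E.card + 1), j ∉ E.image f := by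
    by_contra hcon
    push Not at hcon
    have h2 : Finset.range (E.card + 1) ⊆ E.image f := hcon
    have h3 := Finset.card_le_card h2
    rw [Finset.card_range] at h3
    have := Finset.card_image_le (s := E) (f := f)
    omega
  obtain ⟨j, hj, hjE⟩ := h1
  refine ⟨j, by rw [Finset.mem_range] at hj; omega, ?_⟩
  rintro e he ⟨h4, h5⟩
  apply hjE
  rw [Finset.mem_image]
  refine ⟨e, he, ?_⟩
  rw [hf]
  rw [Nat.floor_eq_iff (by
    apply div_nonneg _ hη.le
    have : 0 ≤ (j : ℝ) * η := by positivity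
    linarith)]
  constructor
  · rw [le_div_iff₀ hη]
    linarith
  · rw [div_lt_iff₀ hη]
    linarith

theorem cnt_le_of_le {N : Type*} (F : N → N) (P : Set N) (y : N) {i j : ℕ} (h : i ≤ j) :
    cnt F P y i ≤ cnt F P y j := by
  have e : j = i + (j - i) := by omega
  rw [e, cnt_add]
  omega

theorem cnt_lt_of_mem {N : Type*} (F : N → N) (P : Set N) (y : N) {a i b : ℕ} (ha : a ≤ i)
    (hb : i < b) (h : F^[i] y ∈ P) : cnt F P y a < cnt F P y b := by
  have e : b = i + (b - i) := by omega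
  have h1 : 1 ≤ cnt F P (F^[i] y) (b - i) := cnt_pos F P _ _ 0 (by omega) (by simpa using h)
  have h2 := cnt_le_of_le F P y ha
  rw [e, cnt_add]
  omega

/-- Among many visits to `W` there are two to the same cluster, with at most `s` visits to `W` in
between. -/
theorem exists_pair {N : Type*} {X : Type*} (F : N → N) (y : N) (m : ℕ) (W P : Set N) (hPW : P ⊆ W)
    (E : Finset X) (g : ℕ → X) (q : ℕ)
    (hq : cnt F P y m ≤ q) (hg : ∀ i < m, F^[i] y ∈ W → F^[i] y ∉ P → g i ∈ E)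
    (hM : E.card * (q + 1) + q + 1 ≤ cnt F W y m) :
    ∃ a b, a < b ∧ b < m ∧ F^[a] y ∈ W ∧ F^[a] y ∉ P ∧ F^[b] y ∈ W ∧ F^[b] y ∉ P ∧ g a = g b ∧
      cnt F W (F^[a + 1] y) (b - a) ≤ E.card := by
  classical
  obtain ⟨A, hA⟩ : ∃ A : Finset ℕ, A = (Finset.range m).filter fun i => F^[i] y ∈ W ∧ F^[i] y ∉ P :=
    ⟨_, rfl⟩
  have hmemA : ∀ i, i ∈ A ↔ i < m ∧ F^[i] y ∈ W ∧ F^[i] y ∉ P := by
    intro i
    rw [hA, Finset.mem_filter, Finset.mem_range]
  have hcard : E.card * (q + 1) < A.card := by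
    have h1 : cnt F W y m = A.card + cnt F P y m := by
      unfold cnt
      rw [hA]
      have h2 : (Finset.range m).filter (fun i => F^[i] y ∈ W) =
          (Finset.range m).filter (fun i => F^[i] y ∈ W ∧ F^[i] y ∉ P) ∪
          (Finset.range m).filter (fun i => F^[i] y ∈ P) := by
        ext i
        simp only [Finset.mem_filter, Finset.mem_union, Finset.mem_range]
        constructor
        · rintro ⟨h3, h4⟩
          by_cases h5 : F^[i] y ∈ P
          · exact Or.inr ⟨h3, h5⟩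
          · exact Or.inl ⟨h3, h4, h5⟩
        · rintro (⟨h3, h4, -⟩ | ⟨h3, h4⟩)
          · exact ⟨h3, h4⟩
          · exact ⟨h3, hPW h4⟩
      rw [h2, Finset.card_union_of_disjoint]
      rw [Finset.disjoint_left]
      intro i hi hi2
      exact (Finset.mem_filter.mp hi).2.2 (Finset.mem_filter.mp hi2).2
    omega
  obtain ⟨f, hf⟩ : ∃ f : ℕ → X × ℕ, f = fun i => (g i, cnt F P y i) := ⟨_, rfl⟩
  have hmaps : ∀ i ∈ A, f i ∈ E ×ˢ Finset.range (q + 1) := by
    intro i hi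
    obtain ⟨h1, h2, h3⟩ := (hmemA i).mp hi
    rw [hf, Finset.mem_product, Finset.mem_range]
    exact ⟨hg i h1 h2 h3, Nat.lt_succ_of_le ((cnt_le_of_le F P y h1.le).trans hq)⟩
  obtain ⟨i, hi, j, hj, hij, hfij⟩ := Finset.exists_ne_map_eq_of_card_lt_of_maps_to
    (by rw [Finset.card_product, Finset.card_range]; exact hcard) hmaps
  -- the set of the pairs
  obtain ⟨Q, hQ⟩ : ∃ Q : Finset (ℕ × ℕ), Q = (A ×ˢ A).filter fun x => x.1 < x.2 ∧ f x.1 = f x.2 :=
    ⟨_, rfl⟩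
  have hQne : Q.Nonempty := by
    rcases lt_or_gt_of_ne hij with h | h
    · exact ⟨(i, j), by rw [hQ, Finset.mem_filter, Finset.mem_product]; exact ⟨⟨hi, hj⟩, h, hfij⟩⟩
    · exact ⟨(j, i), by rw [hQ, Finset.mem_filter, Finset.mem_product]; exact ⟨⟨hj, hi⟩, h, hfij.symm⟩⟩
  obtain ⟨⟨a, b⟩, hab, hmin⟩ := Finset.exists_min_image Q (fun x => x.2 - x.1) hQne
  rw [hQ, Finset.mem_filter, Finset.mem_product] at hab
  obtain ⟨⟨haA, hbA⟩, hab1, hab2⟩ := hab
  simp only at haA hbA hab1 hab2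
  obtain ⟨ha1, ha2, ha3⟩ := (hmemA a).mp haA
  obtain ⟨hb1, hb2, hb3⟩ := (hmemA b).mp hbA
  rw [hf] at hab2
  simp only [Prod.mk.injEq] at hab2
  refine ⟨a, b, hab1, hb1, ha2, ha3, hb2, hb3, hab2.1, ?_⟩
  -- all visits in `(a, b]` are in `A`, with the same number of earlier visits to `P`
  have hvis : ∀ l, a < l → l ≤ b → F^[l] y ∈ W → l ∈ A ∧ cnt F P y l = cnt F P y b := by
    intro l hl1 hl2 hlW
    have hm1 := cnt_le_of_le F P y hl1.le
    have hm2 := cnt_le_of_le F P y hl2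
    refine ⟨(hmemA l).mpr ⟨by omega, hlW, ?_⟩, by omega⟩
    intro hlP
    rcases lt_or_eq_of_le hl2 with h | h
    · have := cnt_lt_of_mem F P y hl1.le h hlP
      omega
    · rw [h] at hlP
      exact hb3 hlP
  unfold cnt
  refine Finset.card_le_card_of_injOn (fun j => g (a + 1 + j)) ?_ ?_
  · intro j hj
    rw [Finset.coe_filter, Set.mem_ofPred_eq, Finset.mem_range] at hj
    obtain ⟨hj1, hj2⟩ := hj
    rw [← Function.iterate_add_apply, show j + (a + 1) = a + 1 + j by ring] at hj2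
    obtain ⟨h3, -⟩ := hvis (a + 1 + j) (by omega) (by omega) hj2
    obtain ⟨h4, h5, h6⟩ := (hmemA _).mp h3
    exact hg _ h4 h5 h6
  · intro j hj j' hj' hjj
    rw [Finset.coe_filter, Set.mem_ofPred_eq, Finset.mem_range] at hj hj'
    obtain ⟨hj1, hj2⟩ := hj
    obtain ⟨hj1', hj2'⟩ := hj'
    rw [← Function.iterate_add_apply, show j + (a + 1) = a + 1 + j by ring] at hj2
    rw [← Function.iterate_add_apply, show j' + (a + 1) = a + 1 + j' by ring] at hj2'
    obtain ⟨h3, h4⟩ := hvis (a + 1 + j) (by omega) (by omega) hj2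
    obtain ⟨h3', h4'⟩ := hvis (a + 1 + j') (by omega) (by omega) hj2'
    simp only at hjj
    have aux : ∀ l l', l ∈ A → l' ∈ A → a < l → l < l' → l' ≤ b → cnt F P y l = cnt F P y b →
        cnt F P y l' = cnt F P y b → g l ≠ g l' := by
      intro l l' hl hl' hal hll' hlb hc hc' hgg
      have h5 : (l, l') ∈ Q := by
        rw [hQ, Finset.mem_filter, Finset.mem_product, hf]
        exact ⟨⟨hl, hl'⟩, hll', by simp only [Prod.mk.injEq]; exact ⟨hgg, hc.trans hc'.symm⟩⟩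
      have := hmin _ h5
      simp only at this
      omega
    rcases lt_trichotomy j j' with h | h | h
    · exact absurd hjj (aux _ _ h3 h3' (by omega) (by omega) (by omega) h4 h4')
    · exact h
    · exact absurd hjj.symm (aux _ _ h3' h3 (by omega) (by omega) (by omega) h4' h4)

section

variable {n : ℕ} {N : Type*} [TopologicalSpace N] {F : N → N}
  {χ : OpenPartialHomeomorph N (V n)} {k : ℕ} {κ : ℝ}

theorem coverLaw (h : NCZ F χ k κ) (hk : 2 ≤ k) (hκ : 0 < κ) (hκ1 : κ ≤ 1 / 8)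
    (hball : closedBall (0 : V n) 1 ⊆ χ.target) : CoverLaw F χ k (κ / 8) := by
  classical
  intro p hp
  obtain ⟨C, hC, hlaw⟩ := law_exp h hk hκ (by linarith) p hp
  have hκ64 : 1 ≤ 64 / κ := by
    rw [le_div_iff₀ hκ]
    linarith
  have hlκ : 0 ≤ Real.log (64 / κ) := Real.log_nonneg hκ64
  have hl2 : 0 ≤ Real.log 2 := Real.log_nonneg (by norm_num)
  refine ⟨C * (1 + Real.log (64 / κ)) + Real.log 2 + Real.log (64 / κ) + 1, by positivity, ?_⟩
  intro K hKc hK w hw hwN E ε hE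
  obtain ⟨ρ, hρ⟩ : ∃ ρ : ℝ, ρ = κ / 8 := ⟨_, rfl⟩
  rw [← hρ] at hw hE
  have hρ0 : 0 < ρ := by rw [hρ]; positivity
  have hwρ : ‖χ w‖ < ρ := hw.2
  obtain ⟨e0, he0, he0w⟩ := hE w ⟨hw.1, by linarith⟩ hwN
  have hε0 : 0 < ε := lt_of_le_of_lt (norm_nonneg _) he0w
  obtain ⟨s, hs⟩ : ∃ s, s = E.card := ⟨_, rfl⟩
  rw [← hs]
  have hs1 : 1 ≤ s := by
    rw [hs]
    exact Finset.card_pos.mpr ⟨e0, he0⟩
  have hsR : (1 : ℝ) ≤ s := by exact_mod_cast hs1
  have hls : 0 ≤ Real.log s := Real.log_nonneg hsR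
  have hsp : 1 ≤ (s : ℝ) ^ p := Real.one_le_rpow hsR hp.1.le
  obtain ⟨η, hη⟩ : ∃ η : ℝ, η = ρ / (s + 1) := ⟨_, rfl⟩
  have hη0 : 0 < η := by rw [hη]; positivity
  have hηρ : (s + 1) * η = ρ := by rw [hη]; field_simp
  obtain ⟨δ, hδ⟩ : ∃ δ : ℝ, δ = η / 4 := ⟨_, rfl⟩
  have hδ0 : 0 < δ := by rw [hδ]; positivity
  have hηρ' : η ≤ ρ := by nlinarith
  -- the logarithm of `1/δ`
  have hδlog : Real.log (1 / δ) ≤ Real.log (64 / κ) + Real.log s := by
    have e1 : 1 / δ = (32 / κ) * (s + 1) := by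
      rw [hδ, hη, hρ]
      field_simp
      ring
    have e2 : (64 / κ) * s ≥ 1 / δ := by
      rw [e1]
      have : (0 : ℝ) < 32 / κ := by positivity
      have e3 : (64 : ℝ) / κ = 2 * (32 / κ) := by ring
      rw [e3]
      nlinarith
    calc Real.log (1 / δ) ≤ Real.log ((64 / κ) * s) := Real.log_le_log (by positivity) e2
      _ = _ := Real.log_mul (by positivity) (by positivity)
  have hmain : Real.exp (-(C * (1 + Real.log (1 / δ)) * (s : ℝ) ^ p)) ≤ 2 * ε ∨ δ ≤ 2 * ε := by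
    by_cases hεη : η / 8 ≤ ε
    · right
      rw [hδ]
      linarith
    left
    push Not at hεη
    obtain ⟨j, hj, hshell⟩ := free_shell E ρ η hη0
    rw [← hs] at hj
    have hjR : (j : ℝ) ≤ s := by exact_mod_cast hj
    obtain ⟨R, hR⟩ : ∃ R : ℝ, R = ρ + (j + 1 / 2) * η := ⟨_, rfl⟩
    have hjη : 0 ≤ (j : ℝ) * η := by positivity
    have hjη2 : (j : ℝ) * η ≤ s * η := mul_le_mul_of_nonneg_right hjR hη0.le
    have hR1 : ρ + η / 2 ≤ R := by rw [hR]; linarith
    have hR2 : R + η / 2 ≤ 2 * ρ := by rw [hR]; linarith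
    -- the compact set of relatively wandering points
    obtain ⟨S, hS⟩ : ∃ S : Set (V n), S = {x : V n | ‖x‖ ≤ R + η / 4} ∩ ⋂ e ∈ E, {x : V n | ε ≤ ‖x - e‖} :=
      ⟨_, rfl⟩
    obtain ⟨P, hP⟩ : ∃ P : Set N, P = (χ.symm '' S) ∩ K := ⟨_, rfl⟩
    have hsub : S ⊆ closedBall (0 : V n) 1 := by
      rw [hS]
      rintro x ⟨hx, -⟩
      rw [mem_closedBall_zero_iff]
      have hx' : ‖x‖ ≤ R + η / 4 := hx
      linarith
    have hScl : IsClosed S := by
      rw [hS]
      refine (isClosed_le continuous_norm continuous_const).inter ?_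
      refine isClosed_biInter fun e _ => ?_
      exact isClosed_le continuous_const ((continuous_id.sub continuous_const).norm)
    have hPc : IsCompact P := by
      rw [hP]
      refine IsCompact.inter_right ?_ hKc
      exact ((isCompact_closedBall (0 : V n) 1).of_isClosed_subset hScl hsub).image_of_continuousOn
        (χ.continuousOn_symm.mono (hsub.trans hball))
    have hPK : P ⊆ K := by
      rw [hP]
      exact inter_subset_right
    have hmemP : ∀ u ∈ K, u ∈ χ.source → ‖χ u‖ ≤ R + η / 4 → (∀ e ∈ E, ε ≤ ‖χ u - e‖) → u ∈ P := by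
      intro u hu hus hu1 hu2
      rw [hP]
      refine ⟨⟨χ u, ?_, χ.left_inv hus⟩, hu⟩
      rw [hS]
      refine ⟨hu1, ?_⟩
      simp only [mem_iInter]
      exact hu2
    have hPprop : ∀ u ∈ P, u ∈ χ.source ∧ ‖χ u‖ ≤ R + η / 4 ∧ ∀ e ∈ E, ε ≤ ‖χ u - e‖ := by
      intro u hu
      rw [hP] at hu
      obtain ⟨⟨x, hx, rfl⟩, -⟩ := hu
      have hxt : x ∈ χ.target := hball (hsub hx)
      rw [hS] at hx
      obtain ⟨hx1, hx2⟩ := hx
      simp only [mem_iInter] at hx2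
      refine ⟨χ.map_target hxt, ?_, ?_⟩
      · rw [χ.right_inv hxt]
        exact hx1
      · intro e he
        rw [χ.right_inv hxt]
        exact hx2 e he
    have hPw : ∀ u ∈ P, ¬ NonWandIn F K u := by
      intro u hu hu2
      obtain ⟨h1, h2, h3⟩ := hPprop u hu
      obtain ⟨e, he, heu⟩ := hE u ⟨h1, by linarith⟩ hu2
      exact absurd heu (not_lt.mpr (h3 e he))
    obtain ⟨q, hq⟩ := cnt_bounded hK hPc hPw hPK
    -- the ball `W`
    obtain ⟨W, hW⟩ : ∃ W : Set N, W = {u | u ∈ χ.source ∧ ‖χ u‖ ≤ R + η / 4} := ⟨_, rfl⟩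
    have hPW : P ⊆ W := by
      intro u hu
      rw [hW]
      exact ⟨(hPprop u hu).1, (hPprop u hu).2.1⟩
    -- a long segment
    obtain ⟨M, hM⟩ : ∃ M, M = s * (q + 1) + q + 1 := ⟨_, rfl⟩
    obtain ⟨θ, hθ⟩ : ∃ θ : ℝ, θ = Real.exp (-(C * (1 + Real.log (1 / δ)) * (M : ℝ) ^ p)) := ⟨_, rfl⟩
    have hθ0 : 0 < θ := by rw [hθ]; exact Real.exp_pos _
    have hO : {u : N | u ∈ χ.source ∧ ‖χ u - χ w‖ < θ / 2 ∧ ‖χ u‖ < ρ} ∈ 𝓝 w := by
      have h1 : χ.source ∈ 𝓝 w := χ.open_source.mem_nhds hw.1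
      have h2 : Tendsto (fun u => ‖χ u - χ w‖) (𝓝 w) (𝓝 ‖χ w - χ w‖) :=
        ((χ.continuousAt hw.1).sub continuousAt_const).norm
      have h3 : Tendsto (fun u => ‖χ u‖) (𝓝 w) (𝓝 ‖χ w‖) := (χ.continuousAt hw.1).norm
      rw [sub_self, norm_zero] at h2
      filter_upwards [h1, h2.eventually (gt_mem_nhds (by positivity : 0 < θ / 2)),
        h3.eventually (gt_mem_nhds hwρ)] with u hu1 hu2 hu3
      exact ⟨hu1, hu2, hu3⟩
    obtain ⟨y, hyK, ⟨hys, hyw, hyρ⟩, m, hm, hms, hmw, hmρ⟩ := hwN.2 _ hO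
    have hlong : M ≤ cnt F W (F y) m := by
      by_contra hcon
      push Not at hcon
      have hsubW : BalAt χ y δ ⊆ W := by
        intro u hu
        rw [hW]
        refine ⟨hu.1, ?_⟩
        have h1 := nrm (χ u) (χ y)
        have h2 := hu.2
        rw [hδ] at h2
        linarith
      have h1 := hlaw δ hδ0 (by rw [hδ]; linarith) M y m (by omega) hm hys hms (by linarith)
        (by linarith) ((cnt_mono F hsubW _ _).trans hcon.le)
      rw [← hθ] at h1
      have h2 := tri (χ (F^[m] y)) (χ w) (χ y)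
      rw [norm_sub_rev (χ w) (χ y)] at h2
      linarith
    have hy1K : F y ∈ K := hK hyK
    have hcov : ∀ i, F^[i] (F y) ∈ W → F^[i] (F y) ∉ P → ∃ e ∈ E, ‖χ (F^[i] (F y)) - e‖ < ε := by
      intro i hi1 hi2
      rw [hW] at hi1
      by_contra hcon
      push Not at hcon
      exact hi2 (hmemP _ (iter_mem hK hy1K i) hi1.1 hi1.2 hcon)
    have hchoose : ∀ i, ∃ e : V n, F^[i] (F y) ∈ W → F^[i] (F y) ∉ P →
        e ∈ E ∧ ‖χ (F^[i] (F y)) - e‖ < ε := by
      intro i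
      by_cases h1 : F^[i] (F y) ∈ W ∧ F^[i] (F y) ∉ P
      · obtain ⟨e, he, he2⟩ := hcov i h1.1 h1.2
        exact ⟨e, fun _ _ => ⟨he, he2⟩⟩
      · exact ⟨0, fun h2 h3 => absurd ⟨h2, h3⟩ h1⟩
    choose g hg using hchoose
    obtain ⟨a, b, hab, hbm, haW, haP, hbW, hbP, hgab, hcount⟩ := exists_pair F (F y) m W P hPW E g q
      (hq _ hy1K m) (fun i _ h1 h2 => (hg i h1 h2).1) (by rw [← hs, ← hM]; exact hlong)
    -- the base point
    obtain ⟨u, hu⟩ : ∃ u, u = F^[a] (F y) := ⟨_, rfl⟩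
    have hub : F^[b - a] u = F^[b] (F y) := by
      rw [hu, ← Function.iterate_add_apply]
      congr 2
      omega
    have hFu : F u = F^[a + 1] (F y) := by
      rw [hu]
      exact (Function.iterate_succ_apply' F a (F y)).symm
    obtain ⟨hga, hga2⟩ := hg a haW haP
    obtain ⟨hgb, hgb2⟩ := hg b hbW hbP
    rw [← hgab, ← hub] at hgb2
    rw [← hu] at hga2 haW haP
    rw [← hub] at hbW hbP
    rw [hW] at haW hbW
    have hnorm : ∀ v : N, ‖χ v‖ ≤ R + η / 4 → ‖χ v - g a‖ < ε → ‖χ v‖ < R - 3 * η / 8 := by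
      intro v hv1 hv2
      have h1 : ‖g a‖ ≤ ‖g a - χ v‖ + ‖χ v‖ := nrm _ _
      rw [norm_sub_rev] at h1
      have h2 := hshell (g a) hga
      have h3 : ‖g a‖ < ρ + j * η := by
        by_contra hcon
        push Not at hcon
        apply h2
        refine ⟨hcon, ?_⟩
        rw [hR] at hv1
        linarith
      have h4 := nrm (χ v) (g a)
      rw [hR]
      linarith
    have hu4 := hnorm u haW.2 hga2
    have hub4 := hnorm (F^[b - a] u) hbW.2 hgb2
    have hcount2 : cnt F (BalAt χ u δ) (F u) (b - a) ≤ s := by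
      refine le_trans (cnt_mono F ?_ _ _) (by rw [hFu, hs]; exact hcount)
      intro v hv
      rw [hW]
      refine ⟨hv.1, ?_⟩
      have h1 := nrm (χ v) (χ u)
      have h2 := hv.2
      rw [hδ] at h2
      linarith
    have hfin := hlaw δ hδ0 (by rw [hδ]; linarith) s u (b - a) hs1 (by omega) haW.1 hbW.1
      (by linarith) (by linarith) hcount2
    have h5 := tri (χ (F^[b - a] u)) (g a) (χ u)
    rw [norm_sub_rev (g a) (χ u)] at h5
    linarith
  -- conclusion
  have hlogs : Real.log (1 / δ) ≤ Real.log (64 / κ) + Real.log s := hδlog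
  have hX : 0 ≤ (1 + Real.log s) * (s : ℝ) ^ p - 1 := by nlinarith
  rcases hmain with h1 | h1
  · have h2 : Real.exp (-(C * (1 + Real.log (1 / δ)) * (s : ℝ) ^ p)) / 2 ≤ ε := by linarith
    refine le_trans ?_ h2
    have h3 : Real.exp (-(C * (1 + Real.log (1 / δ)) * (s : ℝ) ^ p)) / 2 =
        Real.exp (-(C * (1 + Real.log (1 / δ)) * (s : ℝ) ^ p) - Real.log 2) := by
      rw [Real.exp_sub, Real.exp_log (by norm_num)]
    rw [h3]
    apply Real.exp_le_exp.mpr
    have h4 : 1 + Real.log (1 / δ) ≤ (1 + Real.log (64 / κ)) * (1 + Real.log s) := by nlinarith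
    have h5 : C * (1 + Real.log (1 / δ)) * (s : ℝ) ^ p ≤
        C * ((1 + Real.log (64 / κ)) * (1 + Real.log s)) * (s : ℝ) ^ p := by
      apply mul_le_mul_of_nonneg_right _ (by positivity)
      exact mul_le_mul_of_nonneg_left h4 hC.le
    have h6 : Real.log 2 * 1 ≤ Real.log 2 * ((1 + Real.log s) * (s : ℝ) ^ p) :=
      mul_le_mul_of_nonneg_left (by linarith) hl2
    have h7 : 0 ≤ Real.log (64 / κ) * ((1 + Real.log s) * (s : ℝ) ^ p) := by positivity
    have h8 : 0 ≤ (1 + Real.log s) * (s : ℝ) ^ p := by positivity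
    calc -((C * (1 + Real.log (64 / κ)) + Real.log 2 + Real.log (64 / κ) + 1) * (1 + Real.log s) * (s : ℝ) ^ p)
        = -(C * ((1 + Real.log (64 / κ)) * (1 + Real.log s)) * (s : ℝ) ^ p) -
          Real.log 2 * ((1 + Real.log s) * (s : ℝ) ^ p) -
          Real.log (64 / κ) * ((1 + Real.log s) * (s : ℝ) ^ p) - (1 + Real.log s) * (s : ℝ) ^ p := by ring
      _ ≤ -(C * (1 + Real.log (1 / δ)) * (s : ℝ) ^ p) - Real.log 2 := by linarith
  · have h2 : δ / 2 ≤ ε := by linarith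
    refine le_trans ?_ h2
    have h3 : δ / 2 = Real.exp (-(Real.log (1 / δ) + Real.log 2)) := by
      rw [neg_add, Real.exp_add, Real.exp_neg, Real.exp_neg, Real.exp_log (by positivity),
        Real.exp_log (by norm_num)]
      field_simp
    rw [h3]
    apply Real.exp_le_exp.mpr
    apply neg_le_neg
    have h6 : Real.log 2 * 1 ≤ Real.log 2 * ((1 + Real.log s) * (s : ℝ) ^ p) :=
      mul_le_mul_of_nonneg_left (by linarith) hl2
    have h7 : Real.log (64 / κ) * 1 ≤ Real.log (64 / κ) * ((1 + Real.log s) * (s : ℝ) ^ p) :=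
      mul_le_mul_of_nonneg_left (by linarith) hlκ
    have h8 : (1 + Real.log s) * 1 ≤ (1 + Real.log s) * (s : ℝ) ^ p :=
      mul_le_mul_of_nonneg_left hsp (by linarith)
    have h9 : 0 ≤ C * (1 + Real.log (64 / κ)) * ((1 + Real.log s) * (s : ℝ) ^ p) := by positivity
    calc Real.log (1 / δ) + Real.log 2
        ≤ C * (1 + Real.log (64 / κ)) * ((1 + Real.log s) * (s : ℝ) ^ p) +
          Real.log 2 * ((1 + Real.log s) * (s : ℝ) ^ p) +
          Real.log (64 / κ) * ((1 + Real.log s) * (s : ℝ) ^ p) + (1 + Real.log s) * (s : ℝ) ^ p := by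
          linarith
      _ = _ := by ring

end

end Pool.Agent.U882.FW
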