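import Pool.Agent.U882.FW.DefsZ

/-!
# Admissible exponents
-/

set_option autoImplicit false

open Filter Set Metric Topology

namespace Pool.Agent.U882.FW

/-- `j^(-7/4) ≤ q` if `1 ≤ q^4 j^7`. -/
theorem rpow_le (x q : ℝ) (hx : 0 < x) (hq : 0 < q) (h : 1 ≤ q ^ 4 * x ^ 7) :
    x ^ (-(7 / 4 : ℝ)) ≤ q := by
  have h1 : (x ^ (-(7 / 4 : ℝ))) ^ (4 : ℕ) = (x ^ 7)⁻¹ := by
    rw [← Real.rpow_natCast, ← Real.rpow_mul hx.le]
    have e : (-(7 / 4 : ℝ)) * ((4 : ℕ) : ℝ) = -((7 : ℕ) : ℝ) := by norm_num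
    rw [e, Real.rpow_neg hx.le, Real.rpow_natCast]
  have h2 : (x ^ (-(7 / 4 : ℝ))) ^ (4 : ℕ) ≤ q ^ 4 := by
    rw [h1, inv_le_iff_one_le_mul₀ (by positivity)]
    exact h
  exact le_of_pow_le_pow_left₀ (by norm_num) hq.le h2

/-- the tail -/
theorem tail_step (x : ℝ) (hx : 1 ≤ x) :
    (x + 1) ^ (-(7 / 4 : ℝ)) ≤ 4 / 3 * (x ^ (-(3 / 4 : ℝ)) - (x + 1) ^ (-(3 / 4 : ℝ))) := by
  have hx0 : 0 < x := by linarith
  have hx1 : 0 < x + 1 := by linarith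
  -- `(x / (x+1))^(-3/4) ≥ 1 + (3/4) / (x+1)`
  have h1 : 1 + 3 / 4 / (x + 1) ≤ (x / (x + 1)) ^ (-(3 / 4 : ℝ)) := by
    rw [Real.rpow_def_of_pos (by positivity)]
    have h2 : Real.log (x / (x + 1)) ≤ x / (x + 1) - 1 := Real.log_le_sub_one_of_pos (by positivity)
    have h3 : x / (x + 1) - 1 = -(1 / (x + 1)) := by field_simp; ring
    rw [h3] at h2
    have h4 := Real.add_one_le_exp (Real.log (x / (x + 1)) * -(3 / 4))
    have h5 : 3 / 4 / (x + 1) = 3 / 4 * (1 / (x + 1)) := by ring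
    rw [h5]
    linarith
  rw [Real.div_rpow hx0.le hx1.le, le_div_iff₀ (by positivity)] at h1
  have h6 : (x + 1) ^ (-(7 / 4 : ℝ)) = (x + 1) ^ (-(3 / 4 : ℝ)) / (x + 1) := by
    rw [← Real.rpow_sub_one hx1.ne']
    norm_num
  rw [h6]
  have h7 : 3 / 4 / (x + 1) * (x + 1) ^ (-(3 / 4 : ℝ)) =
      3 / 4 * ((x + 1) ^ (-(3 / 4 : ℝ)) / (x + 1)) := by ring
  rw [add_mul, one_mul, h7] at h1
  linarith

theorem adm_all (k : ℕ) : Adm k (7 / 4) := by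
  refine ⟨by norm_num, ?_⟩
  have b2 : (2 : ℝ) ^ (-(7 / 4 : ℝ)) ≤ 0.298 := rpow_le _ _ (by norm_num) (by norm_num) (by norm_num)
  have b3 : (3 : ℝ) ^ (-(7 / 4 : ℝ)) ≤ 0.147 := rpow_le _ _ (by norm_num) (by norm_num) (by norm_num)
  have b4 : (4 : ℝ) ^ (-(7 / 4 : ℝ)) ≤ 0.0885 := rpow_le _ _ (by norm_num) (by norm_num) (by norm_num)
  have b5 : (5 : ℝ) ^ (-(7 / 4 : ℝ)) ≤ 0.06 := rpow_le _ _ (by norm_num) (by norm_num) (by norm_num)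
  have c5 : (5 : ℝ) ^ (-(3 / 4 : ℝ)) ≤ 0.3 := by
    have e : (5 : ℝ) ^ (-(3 / 4 : ℝ)) = 5 * 5 ^ (-(7 / 4 : ℝ)) := by
      have h := Real.rpow_add (by norm_num : (0 : ℝ) < 5) 1 (-(7 / 4 : ℝ))
      rw [Real.rpow_one] at h
      rw [← h]
      norm_num
    rw [e]
    linarith
  have key : ∀ l : ℕ, ∑ j ∈ Finset.range (l + 4), ((j + 2 : ℕ) : ℝ) ^ (-(7 / 4 : ℝ)) ≤
      0.5935 + 4 / 3 * (0.3 - ((l + 5 : ℕ) : ℝ) ^ (-(3 / 4 : ℝ))) := by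
    intro l
    induction l with
    | zero =>
      simp only [zero_add, Finset.sum_range_succ, Finset.sum_range_zero]
      push_cast
      norm_num at b2 b3 b4 b5 c5 ⊢
      linarith
    | succ l ih =>
      rw [show l + 1 + 4 = (l + 4) + 1 by ring, Finset.sum_range_succ]
      have h1 := tail_step ((l + 5 : ℕ) : ℝ) (by push_cast; linarith [show (0 : ℝ) ≤ l by positivity])
      have e1 : (((l + 5 : ℕ) : ℝ) + 1) = ((l + 4 + 2 : ℕ) : ℝ) := by push_cast; ring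
      have e2 : ((l + 1 + 5 : ℕ) : ℝ) = ((l + 4 + 2 : ℕ) : ℝ) := by push_cast; ring
      rw [e1] at h1
      rw [e2]
      linarith
  have hmono : ∑ j ∈ Finset.range k, ((j + 2 : ℕ) : ℝ) ^ (-(7 / 4 : ℝ)) ≤
      ∑ j ∈ Finset.range (k + 4), ((j + 2 : ℕ) : ℝ) ^ (-(7 / 4 : ℝ)) := by
    apply Finset.sum_le_sum_of_subset_of_nonneg
    · exact Finset.range_subset_range.mpr (by omega)
    · intro i _ _
      positivity
  have h2 := key k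
  have h3 : 0 ≤ ((k + 5 : ℕ) : ℝ) ^ (-(3 / 4 : ℝ)) := by positivity
  have h4 : (0.5935 : ℝ) + 4 / 3 * 0.3 ≤ 1 := by norm_num
  linarith

theorem adm_two : Adm 2 (4 / 5) := by
  refine ⟨by norm_num, ?_⟩
  have h : ∀ x q : ℝ, 0 < x → 0 < q → 1 ≤ q ^ 5 * x ^ 4 → x ^ (-(4 / 5 : ℝ)) ≤ q := by
    intro x q hx hq h
    have h1 : (x ^ (-(4 / 5 : ℝ))) ^ (5 : ℕ) = (x ^ 4)⁻¹ := by
      rw [← Real.rpow_natCast, ← Real.rpow_mul hx.le]
      have e : (-(4 / 5 : ℝ)) * ((5 : ℕ) : ℝ) = -((4 : ℕ) : ℝ) := by norm_num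
      rw [e, Real.rpow_neg hx.le, Real.rpow_natCast]
    have h2 : (x ^ (-(4 / 5 : ℝ))) ^ (5 : ℕ) ≤ q ^ 5 := by
      rw [h1, inv_le_iff_one_le_mul₀ (by positivity)]
      exact h
    exact le_of_pow_le_pow_left₀ (by norm_num) hq.le h2
  have b2 := h 2 0.58 (by norm_num) (by norm_num) (by norm_num)
  have b3 := h 3 0.42 (by norm_num) (by norm_num) (by norm_num)
  simp only [Finset.sum_range_succ, Finset.sum_range_zero, zero_add]
  push_cast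
  norm_num at b2 b3 ⊢
  linarith

end Pool.Agent.U882.FW
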