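import Pool.Agent.U882.FW.Rec
import Pool.Agent.R773.FC.Loc

/-!
# Closing by perturbations supported near the point; stable diffeomorphisms
-/

set_option autoImplicit false

open scoped Manifold ContDiff Topology
open Filter Set Metric

universe u

namespace Pool.Agent.U882.FW

open Pool.Agent.H718R2.G Pool.Agent.W564.SC Pool.Agent.R773.FC

section

variable {n : ℕ} {N : Type u} [TopologicalSpace N] [T2Space N] [CompactSpace N]
  [ChartedSpace (V n) N] [IsManifold (𝓡 n) ∞ N]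

/-- If `F` cannot be closed near `z` by perturbations supported near `z`, then `NCZ` holds. -/
theorem ncz_of_not_lclosable {r : ℕ∞} (hr : 2 ≤ r) (F : DiffM n N r)
    {χ : OpenPartialHomeomorph N (V n)} {z : N} (hχ : GoodChart n N χ z)
    (h : ¬ LClosable n N r F z) :
    ∃ (k : ℕ) (κ : ℝ), 2 ≤ k ∧ (k : ℕ∞) ≤ r ∧ 0 < κ ∧ κ ≤ 1 / 8 ∧ NCZ F χ k κ := by
  unfold LClosable at h
  push Not at h
  obtain ⟨U, hU, hFU, O, hO, hzO, hno⟩ := h
  obtain ⟨k₀, hk₀1, hk₀r, κ₀, hκ₀, hN₀⟩ := t_NBHD n N r (le_trans (by norm_num) hr) ℝ (fun _ => F)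
    (Pool.Agent.R773.FC.isFam_const F) χ z hχ U hU hFU
  obtain ⟨k, hk⟩ : ∃ k, k = max k₀ 2 := ⟨_, rfl⟩
  have hk2 : 2 ≤ k := by rw [hk]; exact le_max_right _ _
  have hk1 : 1 ≤ k := by omega
  have hkr : (k : ℕ∞) ≤ r := by
    rw [hk]
    rcases le_total k₀ 2 with h2 | h2
    · rw [max_eq_right h2]
      exact_mod_cast hr
    · rw [max_eq_left h2]
      exact hk₀r
  have hN : ∀ (s : ℝ) (u : V n → V n) (Θ : DiffM n N r), ‖s‖ < κ₀ → Small n k κ₀ u →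
      IsPush n N r χ u Θ → F.trans Θ ∈ U := fun s u Θ h1 h2 h3 =>
    hN₀ s u Θ h1 (small_mono h2 (by rw [hk]; exact le_max_left _ _) le_rfl) h3
  obtain ⟨C, hC, hB⟩ := bumpZ n k hk1
  -- a small ball in the chart is contained in `O`
  obtain ⟨κ₁, hκ₁, hO1⟩ : ∃ κ₁ : ℝ, 0 < κ₁ ∧ ∀ y ∈ χ.source, ‖χ y‖ < κ₁ → y ∈ O := by
    have h0 : (0 : V n) ∈ χ.target := by
      rw [← hχ.zero]
      exact χ.map_source hχ.src
    have hc : ContinuousAt χ.symm 0 := χ.continuousAt_symm h0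
    have hz0 : χ.symm 0 = z := by rw [← hχ.zero]; exact χ.left_inv hχ.src
    have h2 : ∀ᶠ x in 𝓝 (0 : V n), χ.symm x ∈ O := by
      apply hc.eventually_mem
      rw [hz0]
      exact hO.mem_nhds hzO
    obtain ⟨ε, hε, h3⟩ := Metric.eventually_nhds_iff.1 h2
    refine ⟨ε, hε, fun y hy hyn => ?_⟩
    have h4 := h3 (y := χ y) (by rw [dist_zero_right]; exact hyn)
    rwa [χ.left_inv hy] at h4
  obtain ⟨κ, hκ⟩ : ∃ κ : ℝ, κ = min (min (min (min κ₀ (1 / 16)) (min (κ₀ / C) (1 / (2 * C))))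
    (κ₁ / 4)) ((1 / 2) ^ (k + 1)) := ⟨_, rfl⟩
  have hκ0 : 0 < κ := by rw [hκ]; positivity
  have k1 : κ ≤ κ₀ := by
    rw [hκ]
    exact ((min_le_left _ _).trans (min_le_left _ _)).trans
      ((min_le_left _ _).trans (min_le_left _ _))
  have k2 : κ ≤ 1 / 16 := by
    rw [hκ]
    exact ((min_le_left _ _).trans (min_le_left _ _)).trans
      ((min_le_left _ _).trans (min_le_right _ _))
  have k3 : κ ≤ κ₀ / C := by
    rw [hκ]
    exact ((min_le_left _ _).trans (min_le_left _ _)).trans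
      ((min_le_right _ _).trans (min_le_left _ _))
  have k4 : κ ≤ 1 / (2 * C) := by
    rw [hκ]
    exact ((min_le_left _ _).trans (min_le_left _ _)).trans
      ((min_le_right _ _).trans (min_le_right _ _))
  have k5 : κ ≤ κ₁ / 4 := by
    rw [hκ]
    exact (min_le_left _ _).trans (min_le_right _ _)
  have k6 : κ ≤ (1 / 2) ^ (k + 1) := by rw [hκ]; exact min_le_right _ _
  refine ⟨k, κ, hk2, hkr, hκ0, by linarith, ?_⟩
  intro z' ρ m T hz' hz'n hρ hρκ hm hTk hT hsrc hw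
  by_contra hcon
  push Not at hcon
  obtain ⟨v, hv⟩ : ∃ v, v = χ z' := ⟨_, rfl⟩
  obtain ⟨w, hwdef⟩ : ∃ w, w = χ (F^[m] z') - v := ⟨_, rfl⟩
  obtain ⟨c, hcdef⟩ : ∃ c : ℕ → V n, c = fun i => χ (F^[i] z') - v := ⟨_, rfl⟩
  have hρk : 0 < ρ ^ k := pow_pos hρ k
  have hρ1 : ρ ≤ 1 := by linarith
  have hρk' : ρ ^ k ≤ ρ := by
    calc ρ ^ k ≤ ρ ^ 1 := pow_le_pow_of_le_one hρ.le hρ1 hk1
      _ = ρ := pow_one ρ
  have hw' : ‖w‖ * (∏ i ∈ T, ρ / ‖c i‖) < κ * ρ ^ k := by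
    rw [hwdef, hcdef, hv]; exact hw
  have hc : ∀ i ∈ T, 0 < ‖c i‖ ∧ ‖c i‖ ≤ 2 * ρ := by
    intro i hi
    rw [hcdef, hv]
    exact (hT i hi).2
  have hhalf : ∀ i ∈ T, 1 / 2 ≤ ρ / ‖c i‖ := by
    intro i hi
    obtain ⟨h1, h2⟩ := hc i hi
    rw [div_le_div_iff₀ (by norm_num) h1]
    linarith
  have hprod : (1 / 2 : ℝ) ^ k ≤ ∏ i ∈ T, ρ / ‖c i‖ := half_pow_le_prod hTk hhalf
  have hwk : ‖w‖ * (1 / 2 : ℝ) ^ k ≤ κ * ρ ^ k :=
    (mul_le_mul_of_nonneg_left hprod (norm_nonneg _)).trans hw'.le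
  have h2k : (0 : ℝ) < (1 / 2) ^ k := by positivity
  have hwρ : ‖w‖ ≤ ρ := by
    have h1 : κ * ρ ^ k ≤ (1 / 2) ^ k * ρ := by
      apply mul_le_mul _ hρk' hρk.le h2k.le
      refine k6.trans ?_
      rw [pow_succ]
      linarith
    have h2 : ‖w‖ * (1 / 2 : ℝ) ^ k ≤ ρ * (1 / 2) ^ k := by linarith
    exact le_of_mul_le_mul_right h2 h2k
  have hwc : ∀ i ∈ T, 2 * ‖w‖ ≤ ‖c i‖ := by
    intro i hi
    obtain ⟨h1, h2⟩ := hc i hi
    have h3 : ρ / ‖c i‖ * (1 / 2 : ℝ) ^ k ≤ ∏ i ∈ T, ρ / ‖c i‖ := by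
      rw [← Finset.mul_prod_erase T _ hi]
      apply mul_le_mul_of_nonneg_left _ (by positivity)
      exact half_pow_le_prod ((Finset.card_erase_le).trans hTk)
        fun j hj => hhalf j (Finset.mem_of_mem_erase hj)
    have h4 : ‖w‖ * (ρ / ‖c i‖ * (1 / 2 : ℝ) ^ k) ≤ (1 / 2) ^ (k + 1) * ρ := by
      refine (mul_le_mul_of_nonneg_left h3 (norm_nonneg _)).trans (hw'.le.trans ?_)
      exact mul_le_mul k6 hρk' hρk.le (by positivity)
    have h5 : ‖w‖ / ‖c i‖ * ρ * (1 / 2 : ℝ) ^ k ≤ 1 / 2 * ρ * (1 / 2) ^ k := by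
      calc _ = ‖w‖ * (ρ / ‖c i‖ * (1 / 2 : ℝ) ^ k) := by ring
        _ ≤ _ := h4
        _ = _ := by ring
    have h6 : ‖w‖ / ‖c i‖ * ρ ≤ 1 / 2 * ρ := le_of_mul_le_mul_right h5 h2k
    have h7 : ‖w‖ / ‖c i‖ ≤ 1 / 2 := le_of_mul_le_mul_right h6 hρ
    rw [div_le_iff₀ h1] at h7
    linarith
  obtain ⟨u, hu, huw, huT, hu0⟩ := hB ρ hρ (by linarith) T c w hTk hwρ
    (fun i hi => ⟨(hc i hi).1, (hc i hi).2, hwc i hi⟩)
  have hq : ‖w‖ * (∏ i ∈ T, ρ / ‖c i‖) / ρ ^ k ≤ κ := by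
    rw [div_le_iff₀ hρk]; exact hw'.le
  have hc1 : C * (‖w‖ * (∏ i ∈ T, ρ / ‖c i‖) / ρ ^ k) ≤ κ₀ := by
    calc C * (‖w‖ * (∏ i ∈ T, ρ / ‖c i‖) / ρ ^ k) ≤ C * (κ₀ / C) :=
          mul_le_mul_of_nonneg_left (hq.trans k3) hC.le
      _ = κ₀ := by field_simp
  have hc2 : C * (‖w‖ * (∏ i ∈ T, ρ / ‖c i‖) / ρ ^ k) ≤ 1 / 2 := by
    calc C * (‖w‖ * (∏ i ∈ T, ρ / ‖c i‖) / ρ ^ k) ≤ C * (1 / (2 * C)) :=
          mul_le_mul_of_nonneg_left (hq.trans k4) hC.le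
      _ = 1 / 2 := by field_simp
  have hvn : ‖v‖ < κ := by rw [hv]; exact hz'n
  have hsh := small_shift (v := v) hu hu0 (by linarith)
  obtain ⟨Θ, hΘ⟩ := Pool.Agent.W428.SC.push n N r χ z hχ (fun x => u (x - v))
    (small_mono hsh hk1 hc2)
  have hGU := hN 0 (fun x => u (x - v)) Θ (by rw [norm_zero]; exact hκ₀)
    (small_mono hsh le_rfl hc1) hΘ
  have hG : ∀ y, (F.trans Θ) y = Θ (F y) := fun y => rfl
  have hfix : ∀ y, (y ∈ χ.source → u (χ y - v) = 0) → Θ y = y := by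
    intro y hy
    by_cases hys : y ∈ χ.source
    · obtain ⟨a, b⟩ := hΘ.1 _ hys
      have b1 : χ (Θ y) = χ y + u (χ y - v) := b
      rw [hy hys, add_zero] at b1
      exact χ.injOn a hys b1
    · exact hΘ.2 _ hys
  refine absurd ?_ (not_lt.mpr (le_refl (0 : ℝ)))
  exfalso
  obtain ⟨y, hyO, hyne⟩ := hno (F.trans Θ) hGU z' (hO1 z' hz' (by linarith)) (by
    refine ⟨m, hm, ?_⟩
    have key : ∀ i, i < m → (⇑(F.trans Θ))^[i] z' = F^[i] z' := by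
      intro i
      induction i with
      | zero => intro _; rfl
      | succ i ih =>
        intro him
        rw [Function.iterate_succ_apply', ih (by omega), hG, ← Function.iterate_succ_apply' F]
        apply hfix
        intro hys
        by_cases hiT : i + 1 ∈ T
        · have := huT (i + 1) hiT
          rwa [hcdef] at this
        · apply hu0
          have := hcon (i + 1) (Nat.succ_pos i) him hiT hys
          rw [hv]
          exact this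
    obtain ⟨m', rfl⟩ : ∃ m', m = m' + 1 := ⟨m - 1, by omega⟩
    rw [Function.iterate_succ_apply', key m' (by omega), hG, ← Function.iterate_succ_apply' F]
    obtain ⟨a, b⟩ := hΘ.1 _ hsrc
    apply χ.injOn a hz'
    have b' : χ (Θ (F^[m' + 1] z')) = χ (F^[m' + 1] z') + u (χ (F^[m' + 1] z') - v) := b
    rw [b', ← hwdef, huw, hwdef, hv]
    abel)
  apply hyne
  rw [hG]
  apply hfix
  intro hys
  by_contra hcon2
  apply hyO
  apply hO1 _ hys
  have h2 : ‖χ (F y) - v‖ < 2 * ρ := by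
    by_contra h3
    push Not at h3
    exact hcon2 (hu0 _ h3)
  have := norm_sub_norm_le (χ (F y)) v
  linarith

/-- The laws near the points of an `Ω`-stable diffeomorphism which are not limits of periodic
points. -/
theorem laws_of_stable {r : ℕ∞} (hr : 2 ≤ r) {F : DiffM n N r}
    (hF : Pool.Agent.TH80.OMS.OmegaStable n N r F) {z : N}
    (hz : z ∉ closure (Pool.Agent.TH80.OMS.Per F)) {χ : OpenPartialHomeomorph N (V n)}
    (hχ : GoodChart n N χ z) :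
    ∃ (k : ℕ) (ρ₀ : ℝ), 2 ≤ k ∧ (k : ℕ∞) ≤ r ∧ 0 < ρ₀ ∧ ∀ ρ, 0 < ρ → ρ ≤ ρ₀ → Laws r F χ k ρ := by
  obtain ⟨k, κ, hk, hkr, hκ, hκ1, h⟩ := ncz_of_not_lclosable hr F hχ (fun hc =>
    hz (per_of_lclosable (le_trans (by norm_num) hr) hF hc))
  exact laws_of_ncz_all h hk hkr hκ hκ1 hχ.ball

end

end Pool.Agent.U882.FW
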