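import Pool.Agent.U882.FW.Main

/-!
# Recurrent points with thin orbit closures, and with fast returns, can be closed
-/

set_option autoImplicit false

open scoped Manifold ContDiff Topology
open Filter Set Metric

universe u

namespace Pool.Agent.U882.FW

open Pool.Agent.H718R2.G Pool.Agent.W564.SC

/-- The closure of the orbit of `x`. -/
def OrbitClosure {X : Type*} [TopologicalSpace X] (f : X ≃ₜ X) (x : X) : Set X :=
  closure (range fun m : ℤ => (f ^ m) x)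

section

variable {X : Type*} [TopologicalSpace X] (f : X ≃ₜ X)

theorem zpow_add_apply (a b : ℤ) (x : X) : (f ^ (a + b)) x = (f ^ a) ((f ^ b) x) := by
  rw [zpow_add]
  rfl

theorem iter_eq (m : ℕ) (x : X) : f^[m] x = (f ^ (m : ℤ)) x := by
  induction m with
  | zero => rfl
  | succ m ih =>
    rw [Function.iterate_succ_apply', ih]
    have : ((m + 1 : ℕ) : ℤ) = 1 + m := by push_cast; ring
    rw [this, zpow_add_apply, zpow_one]

theorem mapsTo_orbitClosure (x : X) : MapsTo f (OrbitClosure f x) (OrbitClosure f x) := by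
  apply MapsTo.closure _ f.continuous
  rintro y ⟨m, rfl⟩
  refine ⟨1 + m, ?_⟩
  show (f ^ (1 + m)) x = f ((f ^ m) x)
  rw [zpow_add_apply, zpow_one]

/-- a recurrent point `x` is a nonwandering point of the restriction to its orbit closure -/
theorem nonWandIn_of_isRec (x : X) (h : IsRec f x) : NonWandIn f (OrbitClosure f x) x := by
  have hmem : ∀ m : ℤ, (f ^ m) x ∈ OrbitClosure f x := fun m => subset_closure ⟨m, rfl⟩
  refine ⟨by simpa using hmem 0, ?_⟩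
  by_contra hcon
  push Not at hcon
  obtain ⟨O', hO', hno'⟩ := hcon
  obtain ⟨O, hOO, hO, hxO⟩ := mem_nhds_iff.mp hO'
  have hno : ∀ m : ℤ, (f ^ m) x ∈ O → m = 0 := by
    intro m hm
    by_contra hm0
    rcases lt_or_gt_of_ne hm0 with h0 | h0
    · apply hno' ((f ^ m) x) (hmem m) (hOO hm) m.natAbs (by omega)
      apply hOO
      rw [iter_eq, ← zpow_add_apply]
      have : ((m.natAbs : ℕ) : ℤ) + m = 0 := by omega
      rw [this]
      exact hxO
    · apply hno' x (by simpa using hmem 0) (hOO hxO) m.natAbs (by omega)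
      apply hOO
      rw [iter_eq]
      have : ((m.natAbs : ℕ) : ℤ) = m := by omega
      rw [this]
      exact hm
  apply h
  have himg : ∀ a b : ℤ, (f ^ a) x ∈ (f ^ b) '' O → a = b := by
    rintro a b ⟨y, hy, hyx⟩
    have h1 : y = (f ^ (-b + a)) x := by
      rw [zpow_add_apply, ← hyx, ← zpow_add_apply, neg_add_cancel]
      rfl
    rw [h1] at hy
    have := hno _ hy
    omega
  refine ⟨⟨?_⟩, ?_⟩
  · refine le_antisymm ?_ ?_
    · rw [← continuous_iff_le_induced]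
      exact continuous_of_discreteTopology
    · intro s _
      refine ⟨⋃ m ∈ s, (f ^ m) '' O, ?_, ?_⟩
      · exact isOpen_biUnion fun m _ => (f ^ m).isOpenMap O hO
      · ext a
        simp only [mem_preimage, mem_iUnion]
        constructor
        · rintro ⟨m, hm, ha⟩
          rwa [himg a m ha]
        · intro ha
          exact ⟨a, ha, x, hxO, rfl⟩
  · intro a b hab
    apply himg a b
    have hab' : (f ^ a) x = (f ^ b) x := hab
    rw [hab']
    exact ⟨x, hxO, rfl⟩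

end

/-- The set `K` is `p`-thin near the centre of `χ`: for some `ρ > 0` and all `C`, the part of `K` in
the ball `‖χ‖ < ρ` is covered by finitely many balls, say `s`, of radius
`ε < exp (- C (1 + log s) s^p)`. -/
def ThinNear {n : ℕ} {N : Type*} [TopologicalSpace N] (p : ℝ) (K : Set N)
    (χ : OpenPartialHomeomorph N (V n)) : Prop :=
  ∃ ρ : ℝ, 0 < ρ ∧ ∀ C : ℝ, ∃ (E : Finset (V n)) (ε : ℝ),
    ε < Real.exp (-(C * (1 + Real.log E.card) * (E.card : ℝ) ^ p)) ∧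
    ∀ u ∈ Bal χ ρ, u ∈ K → ∃ e ∈ E, ‖χ u - e‖ < ε

/-- `p` is admissible for all finite orders `k ≤ r`. -/
def AdmUpTo (r : ℕ∞) (p : ℝ) : Prop := ∀ k : ℕ, (k : ℕ∞) ≤ r → Adm k p

theorem Adm.anti {k l : ℕ} {p : ℝ} (h : Adm k p) (hl : l ≤ k) : Adm l p := by
  refine ⟨h.1, le_trans ?_ h.2⟩
  apply Finset.sum_le_sum_of_subset_of_nonneg (Finset.range_subset_range.mpr hl)
  intro i _ _
  positivity

theorem admUpTo_all (r : ℕ∞) : AdmUpTo r (7 / 4) := fun k _ => adm_all k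

theorem admUpTo_two : AdmUpTo 2 (4 / 5) := fun k hk => adm_two.anti (by exact_mod_cast hk)

section

variable {n : ℕ} {N : Type u} [TopologicalSpace N] {χ : OpenPartialHomeomorph N (V n)}

theorem Bal_mono {R R' : ℝ} (h : R ≤ R') : Bal χ R ⊆ Bal χ R' := fun _ hy => ⟨hy.1, hy.2.trans_le h⟩

/-- thin relative nonwandering sets contradict the cover law -/
theorem not_thin_of_cover {F : N → N} {k : ℕ} {ρ₀ p : ℝ} (hp : Adm k p) (hρ₀ : 0 < ρ₀)
    (h : ∀ ρ, 0 < ρ → ρ ≤ ρ₀ → CoverLaw F χ k ρ) {K K' : Set N} (hK : IsClosed K)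
    (hFK : MapsTo F K K) {w : N} (hw : w ∈ χ.source) (hw0 : χ w = 0) (hwK : NonWandIn F K w)
    {ρ₁ : ℝ} (hρ₁ : 0 < ρ₁)
    (hKK : ∀ u ∈ Bal χ ρ₁, NonWandIn F K u → u ∈ K') : ¬ ThinNear p K' χ := by
  rintro ⟨ρ₂, hρ₂, hthin⟩
  obtain ⟨ρ, hρ⟩ : ∃ ρ : ℝ, ρ = min ρ₀ (min (ρ₁ / 2) (ρ₂ / 2)) := ⟨_, rfl⟩
  have hρ0 : 0 < ρ := by rw [hρ]; positivity
  have h1 : ρ ≤ ρ₀ := by rw [hρ]; exact min_le_left _ _
  have h2 : 2 * ρ ≤ ρ₁ := by
    have : ρ ≤ ρ₁ / 2 := by rw [hρ]; exact (min_le_right _ _).trans (min_le_left _ _)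
    linarith
  have h3 : 2 * ρ ≤ ρ₂ := by
    have : ρ ≤ ρ₂ / 2 := by rw [hρ]; exact (min_le_right _ _).trans (min_le_right _ _)
    linarith
  obtain ⟨C, -, hC⟩ := h ρ hρ0 h1 p hp
  obtain ⟨E, ε, hε, hE⟩ := hthin C
  have h4 := hC K hK hFK w ⟨hw, by rw [hw0, norm_zero]; exact hρ0⟩ hwK E ε (by
    intro u hu huK
    exact hE u (Bal_mono h3 hu) (hKK u (Bal_mono h2 hu) huK))
  exact absurd hε (not_lt.mpr h4)

theorem nonWandIn_univ (F : N → N) (u : N) :
    NonWandIn F univ u ↔ u ∈ Pool.Agent.TH80.OMS.Omega F := by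
  constructor
  · rintro ⟨-, hu⟩ W hW huW
    obtain ⟨y, -, hy, m, hm, hmy⟩ := hu W (hW.mem_nhds huW)
    exact ⟨m, hm, y, hy, hmy⟩
  · intro hu
    refine ⟨mem_univ _, fun O hO => ?_⟩
    obtain ⟨W, hWO, hW, huW⟩ := mem_nhds_iff.mp hO
    obtain ⟨m, hm, y, hy, hmy⟩ := hu W hW huW
    exact ⟨y, mem_univ _, hWO hy, m, hm, hWO hmy⟩

theorem ThinNear.mono {p : ℝ} {K K' : Set N} (h : ThinNear p K χ) (hK : K' ⊆ K) :
    ThinNear p K' χ := by
  obtain ⟨ρ, hρ, h⟩ := h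
  refine ⟨ρ, hρ, fun C => ?_⟩
  obtain ⟨E, ε, hε, hE⟩ := h C
  exact ⟨E, ε, hε, fun u hu huK => hE u hu (hK huK)⟩

variable [T2Space N] [CompactSpace N] [ChartedSpace (V n) N] [IsManifold (𝓡 n) ∞ N] {r : ℕ∞}
  {p : ℝ}

/-- The `C^r` closing lemma for relative nonwandering points of thin sets. -/
theorem closable_of_thin (hr : 2 ≤ r) (hp : AdmUpTo r p) (F : DiffM n N r) (z : N)
    (hχ : GoodChart n N χ z)
    (K : Set N) (hK : IsClosed K) (hFK : MapsTo F K K) (hz : NonWandIn F K z)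
    (hthin : ThinNear p {u | NonWandIn F K u} χ) : Closable n N r F z := by
  by_contra hcon
  obtain ⟨k, ρ₀, -, hkr, hρ₀, h⟩ := laws_of_not_closable hr F z χ hχ hcon
  exact not_thin_of_cover (hp k hkr) hρ₀ (fun ρ h1 h2 => (h ρ h1 h2).cover) hK hFK hχ.src hχ.zero hz
    one_pos (fun u _ hu => hu) hthin

/-- The `C^r` closing lemma for recurrent points with thin orbit closures. -/
theorem closable_of_thin_orbit (hr : 2 ≤ r) (hp : AdmUpTo r p) (F : DiffM n N r) (x : N)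
    (hχ : GoodChart n N χ x)
    (hx : IsRec F.toHomeomorph x) (hthin : ThinNear p (OrbitClosure F.toHomeomorph x) χ) :
    Closable n N r F x := by
  apply closable_of_thin hr hp F x hχ (OrbitClosure F.toHomeomorph x) isClosed_closure
    (mapsTo_orbitClosure F.toHomeomorph x) (nonWandIn_of_isRec F.toHomeomorph x hx)
  exact hthin.mono fun u hu => hu.1

/-- The generic version. -/
theorem generic_laws (hr : 2 ≤ r) :
    ∃ R : ℕ → Set (DiffM n N r), (∀ j, IsOpen[strongTop n N r] (R j)) ∧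
      (∀ j, @Dense _ (strongTop n N r) (R j)) ∧
      ∀ F : DiffM n N r, (∀ j, F ∈ R j) → ∀ z, z ∉ closure (Pool.Agent.TH80.OMS.Per F) →
        ∀ χ : OpenPartialHomeomorph N (V n), GoodChart n N χ z →
        (∃ (k : ℕ) (ρ₀ : ℝ), 2 ≤ k ∧ (k : ℕ∞) ≤ r ∧ 0 < ρ₀ ∧
          (∀ ρ, 0 < ρ → ρ ≤ ρ₀ → Laws r F χ k ρ)) ∧
        (z ∈ Pool.Agent.TH80.OMS.Omega F → ∀ p, AdmUpTo r p → ¬ ThinNear p
          (Pool.Agent.TH80.OMS.Omega F \ closure (Pool.Agent.TH80.OMS.Per F)) χ) := by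
  obtain ⟨R, h1, h2, h3⟩ := Pool.Agent.Y368.GG.generic_closable (n := n) (N := N) r
    (le_trans (by norm_num) hr)
  refine ⟨R, h1, h2, fun F hF z hz χ hχ => ?_⟩
  obtain ⟨k, ρ₀, hk, hkr, hρ₀, h⟩ := laws_of_not_closable hr F z χ hχ (fun hc => hz (h3 F hF z hc))
  refine ⟨⟨k, ρ₀, hk, hkr, hρ₀, h⟩, fun hzO p hp => ?_⟩
  obtain ⟨ρ₁, hρ₁, hdis⟩ := exists_ball_disjoint hχ.src hχ.zero hχ.ball _ isClosed_closure hz
  have hnw : ∀ u, NonWandIn F univ u ↔ u ∈ Pool.Agent.TH80.OMS.Omega F := by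
    intro u
    constructor
    · rintro ⟨-, hu⟩ W hW huW
      obtain ⟨y, -, hy, m, hm, hmy⟩ := hu W (hW.mem_nhds huW)
      exact ⟨m, hm, y, hy, hmy⟩
    · intro hu
      refine ⟨mem_univ _, fun O hO => ?_⟩
      obtain ⟨W, hWO, hW, huW⟩ := mem_nhds_iff.mp hO
      obtain ⟨m, hm, y, hy, hmy⟩ := hu W hW huW
      exact ⟨y, mem_univ _, hWO hy, m, hm, hWO hmy⟩
  refine not_thin_of_cover (hp k hkr) hρ₀ (fun ρ h1 h2 => (h ρ h1 h2).cover) isClosed_univ
    (mapsTo_univ _ _) hχ.src hχ.zero ((hnw z).mpr hzO) (ρ₁ := ρ₁) hρ₁ ?_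
  intro u hu huN
  refine ⟨(hnw u).mp huN, ?_⟩
  exact Set.disjoint_left.mp hdis (Bal_mono (by linarith) hu)

end

end Pool.Agent.U882.FW
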