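import Pool.Agent.U882.FW.Core

/-!
# The relative nonwandering sets meet annuli
-/

set_option autoImplicit false

open Filter Set Metric Topology

namespace Pool.Agent.U882.FW

open Pool.Agent.H718R2.G

section

variable {n : ℕ} {N : Type*} [TopologicalSpace N] {F : N → N}
  {χ : OpenPartialHomeomorph N (V n)} {k : ℕ} {κ : ℝ}

/-- the half open annulus -/
def Ann (χ : OpenPartialHomeomorph N (V n)) (w : N) (a A : ℝ) : Set N :=
  {u | u ∈ χ.source ∧ a ≤ ‖χ u - χ w‖ ∧ ‖χ u - χ w‖ < A}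

theorem tri (x y z : V n) : ‖x - z‖ ≤ ‖x - y‖ + ‖y - z‖ := norm_sub_le_norm_sub_add_norm_sub x y z

theorem nrm (x y : V n) : ‖x‖ ≤ ‖x - y‖ + ‖y‖ := by
  have := norm_add_le (x - y) y
  simpa using this

theorem annCount (hNC : NC F χ k κ) (hk : 1 ≤ k) (hκ0 : 0 < κ) (hκ1 : κ ≤ 1) (w : N)
    (hw : ‖χ w‖ < κ / 2) (a ρ : ℝ) (ha : 0 < a) (haκ : a ≤ κ / 2) (hρ : 0 < ρ) (hρκ : ρ < κ)
    (hρa : 2 * a < κ * ρ ^ k) (s : ℕ → ℝ) (hs0 : s 0 = a)
    (hss : ∀ l, s (l + 1) = κ / 4 * (s l / 4) ^ k) :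
    ∀ (l : ℕ) (m : ℕ) (y : N), 1 ≤ m → y ∈ χ.source → F^[m] y ∈ χ.source → ‖χ y - χ w‖ < s l →
      ‖χ (F^[m] y) - χ w‖ < s l → 2 ^ l ≤ cnt F (Ann χ w a (a + 2 * ρ)) y m := by
  have hp : ∀ l, 0 < s l := by
    intro l
    induction l with
    | zero => rw [hs0]; exact ha
    | succ l ih => rw [hss]; positivity
  have hstep : ∀ l, s l ≤ κ / 2 → s (l + 1) ≤ s l / 2 := by
    intro l hl
    rw [hss]
    have hpl := hp l
    have : (s l / 4) ^ k ≤ s l / 4 := by
      calc (s l / 4) ^ k ≤ (s l / 4) ^ 1 := pow_le_pow_of_le_one (by positivity) (by linarith) hk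
        _ = s l / 4 := pow_one _
    nlinarith
  have hle : ∀ l, s l ≤ κ / 2 := by
    intro l
    induction l with
    | zero => rw [hs0]; exact haκ
    | succ l ih =>
      have := hstep l ih
      have := hp l
      linarith
  intro l
  induction l with
  | zero =>
    intro m
    induction m using Nat.strong_induction_on with
    | _ m ihm =>
      intro y hm hy hmy h1 h2
      rw [hs0] at h1 h2
      have hd : ‖χ (F^[m] y) - χ y‖ < 2 * a := by
        have := tri (χ (F^[m] y)) (χ w) (χ y)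
        rw [norm_sub_rev (χ w) (χ y)] at this
        linarith
      have hyκ : ‖χ y‖ < κ := by
        have := nrm (χ y) (χ w)
        linarith
      obtain ⟨i, hi0, him, his, hid⟩ := hNC y ρ m hy hyκ hρ hρκ hm hmy (hd.trans hρa)
      have hiw : ‖χ (F^[i] y) - χ w‖ < a + 2 * ρ := by
        have := tri (χ (F^[i] y)) (χ y) (χ w)
        linarith
      by_cases hcase : a ≤ ‖χ (F^[i] y) - χ w‖
      · have h4 : F^[i] y ∈ Ann χ w a (a + 2 * ρ) := ⟨his, hcase, hiw⟩
        simpa using cnt_pos F (Ann χ w a (a + 2 * ρ)) y m i him h4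
      · push Not at hcase
        have h3 := ihm i him y hi0 hy his (by rw [hs0]; exact h1) (by rw [hs0]; exact hcase)
        have e : m = i + (m - i) := by omega
        rw [e, cnt_add]
        omega
  | succ l ih =>
    intro m y hm hy hmy h1 h2
    have hpl := hp l
    have hll := hle l
    have hsl := hstep l hll
    have hd : ‖χ (F^[m] y) - χ y‖ < 2 * s (l + 1) := by
      have := tri (χ (F^[m] y)) (χ w) (χ y)
      rw [norm_sub_rev (χ w) (χ y)] at this
      linarith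
    have hyκ : ‖χ y‖ < κ := by
      have := nrm (χ y) (χ w)
      linarith
    obtain ⟨i, hi0, him, his, hid⟩ := hNC y (s l / 4) m hy hyκ (by positivity) (by linarith) hm hmy
      (by
        refine hd.trans ?_
        rw [hss]
        have : 0 < (s l / 4) ^ k := by positivity
        nlinarith)
    have hiw : ‖χ (F^[i] y) - χ w‖ < s l := by
      have := tri (χ (F^[i] y)) (χ y) (χ w)
      linarith
    have e : m = i + (m - i) := by omega
    have hmi : F^[m - i] (F^[i] y) = F^[m] y := by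
      rw [← Function.iterate_add_apply]
      congr 2
      omega
    have c1 := ih i y hi0 hy his (by linarith) hiw
    have c2 := ih (m - i) (F^[i] y) (by omega) his (by rw [hmi]; exact hmy) hiw
      (by rw [hmi]; linarith)
    rw [e, cnt_add]
    have : 2 ^ (l + 1) = 2 ^ l + 2 ^ l := by ring
    omega

omit [TopologicalSpace N] in
theorem iter_mem {K : Set N} (hK : MapsTo F K K) {y : N} (hy : y ∈ K) (i : ℕ) : F^[i] y ∈ K := by
  induction i with
  | zero => exact hy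
  | succ i ih => rw [Function.iterate_succ_apply']; exact hK ih

/-- a compact set of relatively wandering points is visited a bounded number of times -/
theorem cnt_bounded {K P : Set N} (hK : MapsTo F K K) (hP : IsCompact P)
    (hwand : ∀ u ∈ P, ¬ NonWandIn F K u) (hPK : P ⊆ K) :
    ∃ q : ℕ, ∀ y ∈ K, ∀ m, cnt F P y m ≤ q := by
  classical
  have h1 : ∀ u ∈ P, ∃ O : Set N, IsOpen O ∧ u ∈ O ∧
      ∀ y ∈ K, y ∈ O → ∀ m, 1 ≤ m → F^[m] y ∉ O := by
    intro u hu
    have := hwand u hu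
    unfold NonWandIn at this
    push Not at this
    obtain ⟨O, hO, h⟩ := this (hPK hu)
    obtain ⟨O', hO'O, hO', huO'⟩ := mem_nhds_iff.mp hO
    exact ⟨O', hO', huO', fun y hy hyO m hm hmy => h y hy (hO'O hyO) m hm (hO'O hmy)⟩
  choose! O hO huO h using h1
  obtain ⟨T, hTP, hT⟩ := hP.elim_nhds_subcover O fun u hu =>
    (hO u hu).mem_nhds (huO u hu)
  refine ⟨T.card, fun y hy m => ?_⟩
  have hne : Nonempty N := ⟨y⟩
  unfold cnt
  have h2 : ∀ i ∈ (Finset.range m).filter (fun i => F^[i] y ∈ P), ∃ u ∈ T, F^[i] y ∈ O u := by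
    intro i hi
    have := hT (Finset.mem_filter.mp hi).2
    simp only [mem_iUnion] at this
    obtain ⟨u, hu, h3⟩ := this
    exact ⟨u, hu, h3⟩
  choose! g hg hgO using h2
  refine Finset.card_le_card_of_injOn g hg ?_
  have aux : ∀ i ∈ (Finset.range m).filter (fun i => F^[i] y ∈ P),
      ∀ j ∈ (Finset.range m).filter (fun i => F^[i] y ∈ P), i < j → g i ≠ g j := by
    intro i hi j hj hij hgg
    have h3 := hgO i hi
    have h4 := hgO j hj
    rw [← hgg] at h4
    refine h (g i) (hTP _ (hg i hi)) (F^[i] y) (iter_mem hK hy i) h3 (j - i) (by omega) ?_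
    rw [← Function.iterate_add_apply, show j - i + i = j by omega]
    exact h4
  intro i hi j hj hgg
  rcases lt_trichotomy i j with hij | hij | hij
  · exact absurd hgg (aux i hi j hj hij)
  · exact hij
  · exact absurd hgg.symm (aux j hj i hi hij)

theorem annuli1 (hNC : NC F χ k κ) (hk : 1 ≤ k) (hκ0 : 0 < κ) (hκ1 : κ ≤ 1 / 8)
    (hball : closedBall (0 : V n) 1 ⊆ χ.target) {K : Set N} (hKc : IsClosed K)
    (hK : MapsTo F K K) (w : N)
    (hw : w ∈ Bal χ (κ / 2)) (hwN : NonWandIn F K w) (a ρ : ℝ) (ha : 0 < a) (haκ : a ≤ κ / 2)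
    (hρ : 0 < ρ) (hρκ : ρ < κ) (hρa : 2 * a < κ * ρ ^ k) :
    ∃ u, NonWandIn F K u ∧ u ∈ χ.source ∧ a ≤ ‖χ u - χ w‖ ∧ ‖χ u - χ w‖ ≤ a + 2 * ρ := by
  by_contra hcon
  push Not at hcon
  obtain ⟨P, hP⟩ : ∃ P : Set N, P = (χ.symm '' {x : V n | a ≤ ‖x - χ w‖ ∧ ‖x - χ w‖ ≤ a + 2 * ρ}) ∩ K :=
    ⟨_, rfl⟩
  have hsub : {x : V n | a ≤ ‖x - χ w‖ ∧ ‖x - χ w‖ ≤ a + 2 * ρ} ⊆ closedBall (0 : V n) 1 := by
    intro x hx
    rw [mem_closedBall_zero_iff]
    have := nrm x (χ w)
    have h2 := hx.2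
    have h3 := hw.2
    linarith
  have hcont : Continuous fun x : V n => ‖x - χ w‖ := by fun_prop
  have hcl : IsClosed {x : V n | a ≤ ‖x - χ w‖ ∧ ‖x - χ w‖ ≤ a + 2 * ρ} := by
    have h1 : IsClosed {x : V n | a ≤ ‖x - χ w‖} := isClosed_le continuous_const hcont
    have h2 : IsClosed {x : V n | ‖x - χ w‖ ≤ a + 2 * ρ} := isClosed_le hcont continuous_const
    exact h1.inter h2
  have hcomp : IsCompact {x : V n | a ≤ ‖x - χ w‖ ∧ ‖x - χ w‖ ≤ a + 2 * ρ} :=
    (isCompact_closedBall (0 : V n) 1).of_isClosed_subset hcl hsub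
  have hPc : IsCompact P := by
    rw [hP]
    refine IsCompact.inter_right ?_ hKc
    exact hcomp.image_of_continuousOn (χ.continuousOn_symm.mono (hsub.trans hball))
  have hPK : P ⊆ K := by
    rw [hP]
    exact inter_subset_right
  have hPw : ∀ u ∈ P, ¬ NonWandIn F K u := by
    intro u hu hu2
    rw [hP] at hu
    obtain ⟨⟨x, hx, rfl⟩, -⟩ := hu
    have hxt : x ∈ χ.target := hball (hsub hx)
    have h1 := hcon _ hu2 (χ.map_target hxt)
    rw [χ.right_inv hxt] at h1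
    exact absurd hx.2 (not_le.mpr (h1 hx.1))
  obtain ⟨q, hq⟩ := cnt_bounded hK hPc hPw hPK
  obtain ⟨s, hs0, hss⟩ : ∃ s : ℕ → ℝ, s 0 = a ∧ ∀ l, s (l + 1) = κ / 4 * (s l / 4) ^ k :=
    ⟨fun l => Nat.rec a (fun _ x => κ / 4 * (x / 4) ^ k) l, rfl, fun _ => rfl⟩
  have hsp : ∀ l, 0 < s l := by
    intro l
    induction l with
    | zero => rw [hs0]; exact ha
    | succ l ih => rw [hss]; positivity
  obtain ⟨L, hL⟩ : ∃ L : ℕ, q < 2 ^ L := ⟨q, Nat.lt_two_pow_self⟩
  have hO : {y : N | y ∈ χ.source ∧ ‖χ y - χ w‖ < s L} ∈ 𝓝 w := by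
    have h1 : χ.source ∈ 𝓝 w := χ.open_source.mem_nhds hw.1
    have h2 : Tendsto (fun y => ‖χ y - χ w‖) (𝓝 w) (𝓝 ‖χ w - χ w‖) :=
      ((χ.continuousAt hw.1).sub continuousAt_const).norm
    rw [sub_self, norm_zero] at h2
    filter_upwards [h1, h2.eventually (gt_mem_nhds (hsp L))] with y hy1 hy2
    exact ⟨hy1, hy2⟩
  obtain ⟨y, hyK, hyO, m, hm, hmO⟩ := hwN.2 _ hO
  have h3 := annCount hNC hk hκ0 (by linarith) w hw.2 a ρ ha haκ hρ hρκ hρa s hs0 hss L m y hm
    hyO.1 hmO.1 hyO.2 hmO.2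
  have h4 : cnt F (Ann χ w a (a + 2 * ρ)) y m ≤ cnt F P y m := by
    classical
    unfold cnt
    apply Finset.card_le_card
    intro i hi
    rw [Finset.mem_filter] at hi ⊢
    refine ⟨hi.1, ?_⟩
    rw [hP]
    refine ⟨⟨χ (F^[i] y), ⟨hi.2.2.1, hi.2.2.2.le⟩, χ.left_inv hi.2.1⟩, iter_mem hK hyK i⟩
  have h5 := hq y hyK m
  omega

end

end Pool.Agent.U882.FW
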