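import Pool.Agent.W564.SC.Defs

/-!
# Bump functions with prescribed zeros
-/

set_option autoImplicit false

open scoped Manifold ContDiff Topology
open Filter Set Metric

namespace Pool.Agent.U882.FW

open Pool.Agent.H718R2.G Pool.Agent.W564.SC

/-- `u` is smooth, vanishes for `‖x‖ ≥ 2ρ` and `‖D^j u‖ ≤ B ρ^(-j)` for `j ≤ k`. -/
structure SB {n : ℕ} (k : ℕ) (ρ B : ℝ) (u : V n → V n) : Prop where
  smooth : ContDiff ℝ ∞ u
  zero : ∀ x, 2 * ρ ≤ ‖x‖ → u x = 0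
  bd : ∀ j ≤ k, ∀ x, ‖iteratedFDeriv ℝ j u x‖ ≤ B * (ρ⁻¹) ^ j

theorem bump0 (n k : ℕ) : ∃ C : ℝ, 0 < C ∧ ∀ ρ : ℝ, 0 < ρ → ∀ w : V n, ‖w‖ ≤ ρ →
    ∃ u : V n → V n, SB k ρ (C * ‖w‖) u ∧ u w = -w := by
  let β : ContDiffBump (0 : V n) := ⟨1, 2, one_pos, one_lt_two⟩
  have hβs : ContDiff ℝ ∞ (β : V n → ℝ) := β.contDiff
  have hβc : HasCompactSupport (β : V n → ℝ) := β.hasCompactSupport
  have hbd : ∀ j : ℕ, ∃ C : ℝ, ∀ x : V n, ‖iteratedFDeriv ℝ j (β : V n → ℝ) x‖ ≤ C := by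
    intro j
    have hc : Continuous (iteratedFDeriv ℝ j (β : V n → ℝ)) :=
      hβs.continuous_iteratedFDeriv (by exact_mod_cast le_top)
    exact hc.bounded_above_of_compact_support (hβc.iteratedFDeriv j)
  choose C hC using hbd
  have hC0 : ∀ j, 0 ≤ C j := fun j => (norm_nonneg _).trans (hC j 0)
  refine ⟨1 + ∑ j ∈ Finset.range (k + 1), C j, ?_, ?_⟩
  · have := Finset.sum_nonneg (fun j (_ : j ∈ Finset.range (k + 1)) => hC0 j)
    linarith
  intro ρ hρ w hw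
  set M : V n →L[ℝ] V n := ρ⁻¹ • ContinuousLinearMap.id ℝ (V n) with hM
  set Lw : ℝ →L[ℝ] V n := (ContinuousLinearMap.id ℝ ℝ).smulRight (-w) with hLw
  have hMx : ∀ x, M x = ρ⁻¹ • x := fun x => by simp [hM]
  have hLx : ∀ c, Lw c = -(c • w) := fun c => by simp [hLw]
  have hnM : ‖M‖ ≤ ρ⁻¹ := by
    refine ContinuousLinearMap.opNorm_le_bound _ (inv_nonneg.2 hρ.le) (fun x => ?_)
    rw [hMx, norm_smul, Real.norm_of_nonneg (inv_nonneg.2 hρ.le)]
  have hnL : ‖Lw‖ ≤ ‖w‖ := by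
    refine ContinuousLinearMap.opNorm_le_bound _ (norm_nonneg _) (fun c => ?_)
    rw [hLx, norm_neg, norm_smul, mul_comm]
  have hnx : ∀ x : V n, ‖ρ⁻¹ • x‖ = ‖x‖ / ρ := fun x => by
    rw [norm_smul, Real.norm_of_nonneg (inv_nonneg.2 hρ.le), div_eq_inv_mul]
  have hzero : ∀ x : V n, 2 * ρ ≤ ‖x‖ → (Lw ∘ ((β : V n → ℝ) ∘ M)) x = 0 := by
    intro x hx
    have h1 : β (ρ⁻¹ • x) = 0 := by
      apply β.zero_of_le_dist
      rw [dist_zero_right, hnx]
      show (2 : ℝ) ≤ _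
      rw [le_div_iff₀ hρ]
      exact hx
    simp only [Function.comp_apply, hMx, h1, hLx, zero_smul, neg_zero]
  refine ⟨Lw ∘ ((β : V n → ℝ) ∘ M), ⟨?_, hzero, ?_⟩, ?_⟩
  · exact Lw.contDiff.comp (hβs.comp M.contDiff)
  · intro j hj x
    have hcomp : ContDiff ℝ ∞ ((β : V n → ℝ) ∘ M) := hβs.comp M.contDiff
    have h1 : ‖iteratedFDeriv ℝ j (Lw ∘ ((β : V n → ℝ) ∘ M)) x‖ ≤
        ‖Lw‖ * ‖iteratedFDeriv ℝ j ((β : V n → ℝ) ∘ M) x‖ := by
      apply Lw.norm_iteratedFDeriv_comp_left (hcomp.contDiffAt (x := x))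
      exact_mod_cast le_top
    have h2 : ‖iteratedFDeriv ℝ j ((β : V n → ℝ) ∘ M) x‖ ≤ C j * (ρ⁻¹) ^ j := by
      rw [M.iteratedFDeriv_comp_right hβs x (by exact_mod_cast le_top)]
      refine (ContinuousMultilinearMap.norm_compContinuousLinearMap_le _ _).trans ?_
      rw [Finset.prod_const, Finset.card_univ, Fintype.card_fin]
      exact mul_le_mul (hC j _) (pow_le_pow_left₀ (norm_nonneg _) hnM j)
        (pow_nonneg (norm_nonneg _) _) (hC0 j)
    have h4 : C j ≤ 1 + ∑ j ∈ Finset.range (k + 1), C j := by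
      have := Finset.single_le_sum (fun i (_ : i ∈ Finset.range (k + 1)) => hC0 i)
        (Finset.mem_range.2 (Nat.lt_succ_of_le hj))
      linarith
    calc ‖iteratedFDeriv ℝ j (Lw ∘ ((β : V n → ℝ) ∘ M)) x‖
        ≤ ‖Lw‖ * ‖iteratedFDeriv ℝ j ((β : V n → ℝ) ∘ M) x‖ := h1
      _ ≤ ‖w‖ * ((1 + ∑ j ∈ Finset.range (k + 1), C j) * (ρ⁻¹) ^ j) := by
          apply mul_le_mul hnL (h2.trans ?_) (norm_nonneg _) (norm_nonneg _)
          exact mul_le_mul_of_nonneg_right h4 (by positivity)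
      _ = (1 + ∑ j ∈ Finset.range (k + 1), C j) * ‖w‖ * (ρ⁻¹) ^ j := by ring
  · have h1 : β (ρ⁻¹ • w) = 1 := by
      apply β.one_of_mem_closedBall
      rw [mem_closedBall, dist_zero_right, hnx]
      show _ ≤ (1 : ℝ)
      rw [div_le_one hρ]
      exact hw
    simp only [Function.comp_apply, hMx, h1, hLx, one_smul]

/-- adding a zero -/
theorem SB.addZero {n k : ℕ} {ρ B : ℝ} {u : V n → V n} (h : SB k ρ B u) (hρ : 0 < ρ) (hB : 0 ≤ B)
    (w p : V n) (hp : 0 < ‖p‖) (hpρ : ‖p‖ ≤ 2 * ρ) (hwp : 2 * ‖w‖ ≤ ‖p‖) :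
    ∃ ℓ : V n → ℝ, ℓ p = 0 ∧ ℓ w = 1 ∧ SB k ρ ((8 + 2 * k) * (ρ / ‖p‖) * B) (fun x => ℓ x • u x) := by
  have hwp0 : ‖p‖ / 2 ≤ ‖w - p‖ := by
    have := norm_sub_norm_le p w
    rw [norm_sub_rev p w] at this
    linarith
  have hd0 : 0 < ‖w - p‖ := by linarith
  obtain ⟨L, hL⟩ : ∃ L : V n →L[ℝ] ℝ, L = (‖w - p‖ ^ 2)⁻¹ • innerSL ℝ (w - p) := ⟨_, rfl⟩
  have hLx : ∀ x, L x = (‖w - p‖ ^ 2)⁻¹ * inner ℝ (w - p) x := by
    intro x
    rw [hL, smul_apply, innerSL_apply_apply, smul_eq_mul]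
  have hLn : ‖L‖ ≤ 2 / ‖p‖ := by
    rw [hL, norm_smul, innerSL_apply_norm, Real.norm_of_nonneg (by positivity)]
    have e : (‖w - p‖ ^ 2)⁻¹ * ‖w - p‖ = 1 / ‖w - p‖ := by field_simp
    rw [e, div_le_div_iff₀ hd0 hp]
    linarith
  refine ⟨fun x => L (x - p), by simp, ?_, ?_⟩
  · simp only [hLx]
    rw [real_inner_self_eq_norm_sq]
    field_simp
  have hℓs : ContDiff ℝ ∞ (fun x : V n => L (x - p)) := L.contDiff.comp (contDiff_id.sub contDiff_const)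
  have hfd : ∀ x, fderiv ℝ (fun x : V n => L (x - p)) x = L := by
    intro x
    have h1 : HasFDerivAt (fun x : V n => L (x - p)) (L.comp (ContinuousLinearMap.id ℝ (V n))) x :=
      L.hasFDerivAt.comp x ((hasFDerivAt_id x).sub_const p)
    simpa using h1.fderiv
  have hℓ1 : ∀ x, ‖iteratedFDeriv ℝ 1 (fun x : V n => L (x - p)) x‖ = ‖L‖ := by
    intro x
    have := norm_iteratedFDeriv_fderiv (𝕜 := ℝ) (f := fun x : V n => L (x - p)) (x := x) (n := 0)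
    rw [← this, norm_iteratedFDeriv_zero, hfd]
  have hℓ2 : ∀ i x, ‖iteratedFDeriv ℝ (i + 2) (fun x : V n => L (x - p)) x‖ = 0 := by
    intro i x
    have := norm_iteratedFDeriv_fderiv (𝕜 := ℝ) (f := fun x : V n => L (x - p)) (x := x) (n := i + 1)
    rw [← this]
    have e : fderiv ℝ (fun x : V n => L (x - p)) = fun _ => L := funext hfd
    rw [e, iteratedFDeriv_const_of_ne (Nat.succ_ne_zero i)]
    simp
  refine ⟨hℓs.smul h.smooth, ?_, ?_⟩
  · intro x hx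
    rw [h.zero x hx, smul_zero]
  · intro j hj x
    by_cases hx : 2 * ρ < ‖x‖
    · have hev : (fun x => L (x - p) • u x) =ᶠ[𝓝 x] fun _ => (0 : V n) := by
        have ho : IsOpen {x : V n | 2 * ρ < ‖x‖} := isOpen_lt continuous_const continuous_norm
        filter_upwards [ho.mem_nhds hx] with x' hx'
        rw [h.zero x' (le_of_lt hx'), smul_zero]
      rw [(hev.iteratedFDeriv ℝ j).eq_of_nhds]
      simp only [iteratedFDeriv_fun_zero, Pi.zero_apply, norm_zero]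
      positivity
    · push Not at hx
      have hval : ‖iteratedFDeriv ℝ 0 (fun x : V n => L (x - p)) x‖ ≤ 8 * (ρ / ‖p‖) := by
        rw [norm_iteratedFDeriv_zero]
        calc ‖L (x - p)‖ ≤ ‖L‖ * ‖x - p‖ := L.le_opNorm _
          _ ≤ 2 / ‖p‖ * (4 * ρ) := by
              apply mul_le_mul hLn _ (norm_nonneg _) (by positivity)
              have := norm_sub_le x p
              linarith
          _ = 8 * (ρ / ‖p‖) := by ring
      have h1 := norm_iteratedFDeriv_smul_le hℓs h.smooth x (n := j) (by exact_mod_cast le_top)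
      refine h1.trans ?_
      have hρj : 0 ≤ (ρ⁻¹) ^ j := by positivity
      have h2 : ∀ i ∈ Finset.range (j + 1), (j.choose i : ℝ) *
          ‖iteratedFDeriv ℝ i (fun x : V n => L (x - p)) x‖ * ‖iteratedFDeriv ℝ (j - i) u x‖ ≤
          (if i = 0 then 8 * (ρ / ‖p‖) * B * (ρ⁻¹) ^ j else 0) +
          (if i = 1 then 2 * k * (ρ / ‖p‖) * B * (ρ⁻¹) ^ j else 0) := by
        intro i hi
        rw [Finset.mem_range] at hi
        match i, hi with
        | 0, _ =>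
          simp only [Nat.choose_zero_right, Nat.cast_one, one_mul, Nat.sub_zero, if_true]
          simp only [zero_ne_one, if_false, add_zero]
          calc _ ≤ 8 * (ρ / ‖p‖) * (B * (ρ⁻¹) ^ j) :=
                mul_le_mul hval (h.bd j hj x) (norm_nonneg _) (by positivity)
            _ = _ := by ring
        | 1, hi =>
          simp only [Nat.choose_one_right, one_ne_zero, if_false, zero_add, if_true]
          rw [hℓ1]
          have hj1 : 1 ≤ j := by omega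
          have e : (ρ⁻¹) ^ (j - 1) = ρ * (ρ⁻¹) ^ j := by
            obtain ⟨j', rfl⟩ : ∃ j', j = j' + 1 := ⟨j - 1, by omega⟩
            rw [Nat.add_sub_cancel, pow_succ]
            field_simp
          have h3 := h.bd (j - 1) (by omega) x
          rw [e] at h3
          calc (j : ℝ) * ‖L‖ * ‖iteratedFDeriv ℝ (j - 1) u x‖
              ≤ (k : ℝ) * (2 / ‖p‖) * (B * (ρ * (ρ⁻¹) ^ j)) := by
                apply mul_le_mul _ h3 (norm_nonneg _) (by positivity)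
                apply mul_le_mul (by exact_mod_cast hj) hLn (norm_nonneg _) (by positivity)
            _ = _ := by ring
        | i + 2, _ =>
          rw [hℓ2]
          simp
      refine (Finset.sum_le_sum h2).trans ?_
      rw [Finset.sum_add_distrib]
      have h3 : ∑ i ∈ Finset.range (j + 1), (if i = 0 then 8 * (ρ / ‖p‖) * B * (ρ⁻¹) ^ j else 0) ≤
          8 * (ρ / ‖p‖) * B * (ρ⁻¹) ^ j := by
        rw [Finset.sum_ite_eq' (Finset.range (j + 1)) 0 (fun _ => 8 * (ρ / ‖p‖) * B * (ρ⁻¹) ^ j)]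
        split_ifs
        · exact le_rfl
        · positivity
      have h4 : ∑ i ∈ Finset.range (j + 1), (if i = 1 then 2 * k * (ρ / ‖p‖) * B * (ρ⁻¹) ^ j else 0) ≤
          2 * k * (ρ / ‖p‖) * B * (ρ⁻¹) ^ j := by
        rw [Finset.sum_ite_eq' (Finset.range (j + 1)) 1 (fun _ => 2 * k * (ρ / ‖p‖) * B * (ρ⁻¹) ^ j)]
        split_ifs
        · exact le_rfl
        · positivity
      calc _ ≤ 8 * (ρ / ‖p‖) * B * (ρ⁻¹) ^ j + 2 * k * (ρ / ‖p‖) * B * (ρ⁻¹) ^ j := add_le_add h3 h4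
        _ = (8 + 2 * k) * (ρ / ‖p‖) * B * (ρ⁻¹) ^ j := by ring

/-- Bump functions with `u w = -w` and at most `k` prescribed zeros `c i`. -/
theorem bumpZ (n k : ℕ) (hk : 1 ≤ k) : ∃ C : ℝ, 0 < C ∧ ∀ ρ : ℝ, 0 < ρ → ρ ≤ 1 / 4 →
    ∀ (T : Finset ℕ) (c : ℕ → V n) (w : V n), T.card ≤ k → ‖w‖ ≤ ρ →
      (∀ i ∈ T, 0 < ‖c i‖ ∧ ‖c i‖ ≤ 2 * ρ ∧ 2 * ‖w‖ ≤ ‖c i‖) →
      ∃ u : V n → V n, Small n k (C * (‖w‖ * (∏ i ∈ T, ρ / ‖c i‖) / ρ ^ k)) u ∧ u w = -w ∧
        (∀ i ∈ T, u (c i) = 0) ∧ ∀ x, 2 * ρ ≤ ‖x‖ → u x = 0 := by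
  obtain ⟨C, hC, h0⟩ := bump0 n k
  refine ⟨C * (8 + 2 * k) ^ k, by positivity, ?_⟩
  intro ρ hρ hρ4 T c w hT hw hc
  have key : ∀ T' : Finset ℕ, T' ⊆ T → ∃ u : V n → V n,
      SB k ρ ((8 + 2 * k) ^ T'.card * (∏ i ∈ T', ρ / ‖c i‖) * (C * ‖w‖)) u ∧ u w = -w ∧
      ∀ i ∈ T', u (c i) = 0 := by
    intro T'
    induction T' using Finset.induction_on with
    | empty =>
      intro _
      obtain ⟨u, h1, h2⟩ := h0 ρ hρ w hw
      exact ⟨u, by simpa using h1, h2, by simp⟩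
    | insert a T' ha ih =>
      intro hsub
      obtain ⟨u, h1, h2, h3⟩ := ih (fun i hi => hsub (Finset.mem_insert_of_mem hi))
      obtain ⟨b1, b2, b3⟩ := hc a (hsub (Finset.mem_insert_self a T'))
      have hQ : 0 ≤ ∏ i ∈ T', ρ / ‖c i‖ :=
        Finset.prod_nonneg fun i _ => div_nonneg hρ.le (norm_nonneg _)
      have hB : 0 ≤ ((8 : ℝ) + 2 * k) ^ T'.card * (∏ i ∈ T', ρ / ‖c i‖) * (C * ‖w‖) :=
        mul_nonneg (mul_nonneg (pow_nonneg (by positivity) _) hQ)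
          (mul_nonneg hC.le (norm_nonneg _))
      obtain ⟨ℓ, l1, l2, l3⟩ := h1.addZero hρ hB w (c a) b1 b2 b3
      refine ⟨fun x => ℓ x • u x, ?_, ?_, ?_⟩
      · have e : ((8 : ℝ) + 2 * k) ^ (T'.card + 1) * (ρ / ‖c a‖ * ∏ i ∈ T', ρ / ‖c i‖) * (C * ‖w‖) =
            (8 + 2 * k) * (ρ / ‖c a‖) *
              ((8 + 2 * k) ^ T'.card * (∏ i ∈ T', ρ / ‖c i‖) * (C * ‖w‖)) := by
          rw [pow_succ]
          ring
        rw [Finset.card_insert_of_notMem ha, Finset.prod_insert ha, e]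
        exact l3
      · show ℓ w • u w = -w
        rw [l2, one_smul, h2]
      · intro i hi
        show ℓ (c i) • u (c i) = 0
        rcases Finset.mem_insert.mp hi with rfl | hi
        · rw [l1, zero_smul]
        · rw [h3 i hi, smul_zero]
  obtain ⟨u, h1, h2, h3⟩ := key T (Finset.Subset.refl T)
  refine ⟨u, ⟨h1.smooth, ?_, ?_⟩, h2, h3, h1.zero⟩
  · intro x hx
    exact h1.zero x (by linarith)
  · intro j hj x
    refine (h1.bd j hj x).trans ?_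
    have hρ1 : 1 ≤ ρ⁻¹ := by
      rw [one_le_inv₀ hρ]; linarith
    have e1 : (ρ⁻¹) ^ j ≤ (ρ⁻¹) ^ k := pow_le_pow_right₀ hρ1 hj
    have e2 : ((8 : ℝ) + 2 * k) ^ T.card ≤ (8 + 2 * k) ^ k :=
      pow_le_pow_right₀ (by have : (0 : ℝ) ≤ k := by positivity
                            linarith) hT
    have hpr : 0 ≤ ∏ i ∈ T, ρ / ‖c i‖ :=
      Finset.prod_nonneg fun i _ => div_nonneg hρ.le (norm_nonneg _)
    obtain ⟨Q, hQ⟩ : ∃ Q, Q = ∏ i ∈ T, ρ / ‖c i‖ := ⟨_, rfl⟩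
    rw [← hQ] at hpr ⊢
    calc _ ≤ (8 + 2 * (k : ℝ)) ^ k * Q * (C * ‖w‖) * (ρ⁻¹) ^ k := by
          apply mul_le_mul _ e1 (by positivity) (by positivity)
          apply mul_le_mul_of_nonneg_right _ (by positivity)
          exact mul_le_mul_of_nonneg_right e2 hpr
      _ = _ := by
          rw [inv_pow, div_eq_mul_inv]
          ring

end Pool.Agent.U882.FW
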