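import Pool.Agent.U882.FW.BumpZ
import Pool.Agent.W564.SC.Lib

/-!
# Closing in the presence of up to `k` intermediate returns
-/

set_option autoImplicit false

open scoped Manifold ContDiff Topology
open Filter Set Metric

universe u

namespace Pool.Agent.U882.FW

open Pool.Agent.H718R2.G Pool.Agent.W564.SC Pool.Agent.W597.SC

theorem small_mono {n k k' : ℕ} {κ κ' : ℝ} {f : V n → V n} (h : Small n k κ f) (hk : k' ≤ k)
    (hκ : κ ≤ κ') : Small n k' κ' f where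
  smooth := h.smooth
  supp := h.supp
  bd j hj x := (h.bd j (hj.trans hk) x).trans hκ

/-- a product of numbers `≥ 1/2` -/
theorem half_pow_le_prod {T : Finset ℕ} {f : ℕ → ℝ} {k : ℕ} (hT : T.card ≤ k)
    (h : ∀ i ∈ T, 1 / 2 ≤ f i) : (1 / 2 : ℝ) ^ k ≤ ∏ i ∈ T, f i := by
  calc (1 / 2 : ℝ) ^ k ≤ (1 / 2) ^ T.card := pow_le_pow_of_le_one (by norm_num) (by norm_num) hT
    _ = ∏ _i ∈ T, (1 / 2 : ℝ) := by rw [Finset.prod_const]
    _ ≤ ∏ i ∈ T, f i := Finset.prod_le_prod (fun _ _ => by norm_num) h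

theorem cl0Z (n : ℕ) (N : Type u) [TopologicalSpace N] [T2Space N] [CompactSpace N]
    [ChartedSpace (V n) N] [IsManifold (𝓡 n) ∞ N] (r : ℕ∞) (hr : 2 ≤ r)
    (P : Type) [NormedAddCommGroup P] [NormedSpace ℝ P] (H : P → DiffM n N r)
    (hH : IsFam n N r H) (χ : OpenPartialHomeomorph N (V n)) (z : N) (hχ : GoodChart n N χ z)
    (U : Set (DiffM n N r)) (hU : IsOpen[strongTop n N r] U) (hHU : H 0 ∈ U) :
    ∃ k : ℕ, 2 ≤ k ∧ (k : ℕ∞) ≤ r ∧ ∃ κ : ℝ, 0 < κ ∧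
      ∀ (s : P) (ρ : ℝ) (m : ℕ) (T : Finset ℕ), ‖s‖ < κ → 0 < ρ → ρ < κ → 1 ≤ m → T.card ≤ k →
        (∀ i ∈ T, (H s)^[i] z ∈ χ.source ∧ 0 < ‖χ ((H s)^[i] z)‖ ∧ ‖χ ((H s)^[i] z)‖ ≤ 2 * ρ) →
        (H s)^[m] z ∈ χ.source →
        ‖χ ((H s)^[m] z)‖ * (∏ i ∈ T, ρ / ‖χ ((H s)^[i] z)‖) < κ * ρ ^ k →
        (∀ i, 0 < i → i < m → i ∉ T → (H s)^[i] z ∈ χ.source → 2 * ρ ≤ ‖χ ((H s)^[i] z)‖) →
        ∃ G ∈ U, IsPer G z := by
  obtain ⟨k₀, hk₀1, hk₀r, κ₀, hκ₀, hN₀⟩ := t_NBHD n N r (le_trans (by norm_num) hr) P H hH χ z hχ U hU hHU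
  obtain ⟨k, hk⟩ : ∃ k, k = max k₀ 2 := ⟨_, rfl⟩
  have hk2 : 2 ≤ k := by rw [hk]; exact le_max_right _ _
  have hk1 : 1 ≤ k := by omega
  have hkr : (k : ℕ∞) ≤ r := by
    rw [hk]
    rcases le_total k₀ 2 with h2 | h2
    · rw [max_eq_right h2]
      exact_mod_cast hr
    · rw [max_eq_left h2]
      exact hk₀r
  have hN : ∀ (s : P) (u : V n → V n) (Θ : DiffM n N r), ‖s‖ < κ₀ → Small n k κ₀ u →
      IsPush n N r χ u Θ → (H s).trans Θ ∈ U := fun s u Θ h1 h2 h3 =>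
    hN₀ s u Θ h1 (small_mono h2 (by rw [hk]; exact le_max_left _ _) le_rfl) h3
  obtain ⟨C, hC, hB⟩ := bumpZ n k hk1
  refine ⟨k, hk2, hkr, min (min (min κ₀ (1 / 4)) (min (κ₀ / C) (1 / (2 * C)))) ((1 / 2) ^ (k + 1)),
    by positivity, ?_⟩
  intro s ρ m T hs hρ hρκ hm hTk hT hsrc hw hi
  set κ := min (min (min κ₀ (1 / 4)) (min (κ₀ / C) (1 / (2 * C)))) ((1 / 2) ^ (k + 1)) with hκ
  have k1 : κ ≤ κ₀ := (min_le_left _ _).trans ((min_le_left _ _).trans (min_le_left _ _))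
  have k2 : κ ≤ 1 / 4 := (min_le_left _ _).trans ((min_le_left _ _).trans (min_le_right _ _))
  have k3 : κ ≤ κ₀ / C := (min_le_left _ _).trans ((min_le_right _ _).trans (min_le_left _ _))
  have k4 : κ ≤ 1 / (2 * C) := (min_le_left _ _).trans ((min_le_right _ _).trans (min_le_right _ _))
  have k5 : κ ≤ (1 / 2) ^ (k + 1) := min_le_right _ _
  have hκ0 : 0 < κ := by rw [hκ]; positivity
  have hρk : 0 < ρ ^ k := pow_pos hρ k
  have hρ1 : ρ ≤ 1 := by linarith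
  have hρk' : ρ ^ k ≤ ρ := by
    calc ρ ^ k ≤ ρ ^ 1 := pow_le_pow_of_le_one hρ.le hρ1 hk1
      _ = ρ := pow_one ρ
  obtain ⟨w, hwdef⟩ : ∃ w, w = χ ((H s)^[m] z) := ⟨_, rfl⟩
  obtain ⟨c, hcdef⟩ : ∃ c : ℕ → V n, c = fun i => χ ((H s)^[i] z) := ⟨_, rfl⟩
  have hw' : ‖w‖ * (∏ i ∈ T, ρ / ‖c i‖) < κ * ρ ^ k := by rw [hwdef, hcdef]; exact hw
  have hc : ∀ i ∈ T, 0 < ‖c i‖ ∧ ‖c i‖ ≤ 2 * ρ := by
    intro i hi
    rw [hcdef]
    exact (hT i hi).2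
  have hhalf : ∀ i ∈ T, 1 / 2 ≤ ρ / ‖c i‖ := by
    intro i hi
    obtain ⟨h1, h2⟩ := hc i hi
    rw [div_le_div_iff₀ (by norm_num) h1]
    linarith
  have hprod : (1 / 2 : ℝ) ^ k ≤ ∏ i ∈ T, ρ / ‖c i‖ := half_pow_le_prod hTk hhalf
  have hwk : ‖w‖ * (1 / 2 : ℝ) ^ k ≤ κ * ρ ^ k :=
    (mul_le_mul_of_nonneg_left hprod (norm_nonneg _)).trans hw'.le
  have h2k : (0 : ℝ) < (1 / 2) ^ k := by positivity
  have hwρ : ‖w‖ ≤ ρ := by
    have h1 : κ * ρ ^ k ≤ (1 / 2) ^ k * ρ := by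
      apply mul_le_mul _ hρk' hρk.le h2k.le
      refine k5.trans ?_
      rw [pow_succ]
      linarith
    have h2 : ‖w‖ * (1 / 2 : ℝ) ^ k ≤ ρ * (1 / 2) ^ k := by linarith
    exact le_of_mul_le_mul_right h2 h2k
  have hwc : ∀ i ∈ T, 2 * ‖w‖ ≤ ‖c i‖ := by
    intro i hi
    obtain ⟨h1, h2⟩ := hc i hi
    have h3 : ρ / ‖c i‖ * (1 / 2 : ℝ) ^ k ≤ ∏ i ∈ T, ρ / ‖c i‖ := by
      rw [← Finset.mul_prod_erase T _ hi]
      apply mul_le_mul_of_nonneg_left _ (by positivity)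
      exact half_pow_le_prod ((Finset.card_erase_le).trans hTk)
        fun j hj => hhalf j (Finset.mem_of_mem_erase hj)
    have h4 : ‖w‖ * (ρ / ‖c i‖ * (1 / 2 : ℝ) ^ k) ≤ (1 / 2) ^ (k + 1) * ρ := by
      refine (mul_le_mul_of_nonneg_left h3 (norm_nonneg _)).trans (hw'.le.trans ?_)
      exact mul_le_mul k5 hρk' hρk.le (by positivity)
    have h5 : ‖w‖ / ‖c i‖ * ρ * (1 / 2 : ℝ) ^ k ≤ 1 / 2 * ρ * (1 / 2) ^ k := by
      calc _ = ‖w‖ * (ρ / ‖c i‖ * (1 / 2 : ℝ) ^ k) := by ring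
        _ ≤ _ := h4
        _ = _ := by ring
    have h6 : ‖w‖ / ‖c i‖ * ρ ≤ 1 / 2 * ρ := le_of_mul_le_mul_right h5 h2k
    have h7 : ‖w‖ / ‖c i‖ ≤ 1 / 2 := le_of_mul_le_mul_right h6 hρ
    rw [div_le_iff₀ h1] at h7
    linarith
  obtain ⟨u, hu, huw, huT, hu0⟩ := hB ρ hρ (by linarith) T c w hTk hwρ
    (fun i hi => ⟨(hc i hi).1, (hc i hi).2, hwc i hi⟩)
  have hq : ‖w‖ * (∏ i ∈ T, ρ / ‖c i‖) / ρ ^ k ≤ κ := by
    rw [div_le_iff₀ hρk]; exact hw'.le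
  have hc1 : C * (‖w‖ * (∏ i ∈ T, ρ / ‖c i‖) / ρ ^ k) ≤ κ₀ := by
    calc C * (‖w‖ * (∏ i ∈ T, ρ / ‖c i‖) / ρ ^ k) ≤ C * (κ₀ / C) :=
          mul_le_mul_of_nonneg_left (hq.trans k3) hC.le
      _ = κ₀ := by field_simp
  have hc2 : C * (‖w‖ * (∏ i ∈ T, ρ / ‖c i‖) / ρ ^ k) ≤ 1 / 2 := by
    calc C * (‖w‖ * (∏ i ∈ T, ρ / ‖c i‖) / ρ ^ k) ≤ C * (1 / (2 * C)) :=
          mul_le_mul_of_nonneg_left (hq.trans k4) hC.le
      _ = 1 / 2 := by field_simp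
  obtain ⟨Θ, hΘ⟩ := Pool.Agent.W428.SC.push n N r χ z hχ u (small_mono hu hk1 hc2)
  have hGU := hN s u Θ (lt_of_lt_of_le hs k1) (small_mono hu le_rfl hc1) hΘ
  refine ⟨(H s).trans Θ, hGU, m, hm, ?_⟩
  have hG : ∀ y, ((H s).trans Θ) y = Θ (H s y) := fun y => rfl
  have key : ∀ i, i < m → (⇑((H s).trans Θ))^[i] z = (H s)^[i] z := by
    intro i
    induction i with
    | zero => intro _; rfl
    | succ i ih =>
      intro him
      rw [Function.iterate_succ_apply', ih (by omega), hG, ← Function.iterate_succ_apply' (H s)]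
      by_cases hy : (H s)^[i + 1] z ∈ χ.source
      · obtain ⟨a, b⟩ := hΘ.1 _ hy
        have hz0 : u (χ ((H s)^[i + 1] z)) = 0 := by
          by_cases hiT : i + 1 ∈ T
          · have := huT (i + 1) hiT
            rwa [hcdef] at this
          · exact hu0 _ (hi (i + 1) (Nat.succ_pos i) him hiT hy)
        rw [hz0, add_zero] at b
        exact χ.injOn a hy b
      · exact hΘ.2 _ hy
  obtain ⟨m', rfl⟩ : ∃ m', m = m' + 1 := ⟨m - 1, by omega⟩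
  rw [Function.iterate_succ_apply', key m' (by omega), hG, ← Function.iterate_succ_apply' (H s)]
  obtain ⟨a, b⟩ := hΘ.1 _ hsrc
  rw [← hwdef, huw, add_neg_cancel, ← hχ.zero] at b
  exact χ.injOn a hχ.src b

/-- the constant family -/
theorem isFam_const {n : ℕ} {N : Type u} [TopologicalSpace N] [ChartedSpace (V n) N] {r : ℕ∞}
    (F : DiffM n N r) : IsFam n N r (fun _ : ℝ => F) := by
  intro y
  exact (F.contMDiff_toFun.comp contMDiff_snd).contMDiffAt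

theorem clZ (n : ℕ) (N : Type u) [TopologicalSpace N] [T2Space N] [CompactSpace N]
    [ChartedSpace (V n) N] [IsManifold (𝓡 n) ∞ N] (r : ℕ∞) (hr : 2 ≤ r) (F : DiffM n N r)
    (χ : OpenPartialHomeomorph N (V n)) (z : N) (hχ : GoodChart n N χ z)
    (U : Set (DiffM n N r)) (hU : IsOpen[strongTop n N r] U) (hFU : F ∈ U) :
    ∃ k : ℕ, 2 ≤ k ∧ (k : ℕ∞) ≤ r ∧ ∃ κ : ℝ, 0 < κ ∧
      ∀ (z' : N) (ρ : ℝ) (m : ℕ) (T : Finset ℕ), z' ∈ χ.source → ‖χ z'‖ < κ → 0 < ρ →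
        ρ < κ → 1 ≤ m → T.card ≤ k →
        (∀ i ∈ T, F^[i] z' ∈ χ.source ∧ 0 < ‖χ (F^[i] z') - χ z'‖ ∧
          ‖χ (F^[i] z') - χ z'‖ ≤ 2 * ρ) →
        F^[m] z' ∈ χ.source →
        ‖χ (F^[m] z') - χ z'‖ * (∏ i ∈ T, ρ / ‖χ (F^[i] z') - χ z'‖) < κ * ρ ^ k →
        (∀ i, 0 < i → i < m → i ∉ T → F^[i] z' ∈ χ.source →
          2 * ρ ≤ ‖χ (F^[i] z') - χ z'‖) →
        ∃ G ∈ U, IsPer G z := by
  obtain ⟨Ψ, κ₂, hκ₂, hΨ0, hΨs, hΨi, hΨ⟩ := Pool.Agent.W782.SC.psi n N r χ z hχ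
  have h0 : conjF (fun _ : ℝ => F) Ψ (0 : ℝ × V n) = F := by
    apply Diffeomorph.ext
    intro y
    rw [conjF_apply]
    show (Ψ 0).symm (F (Ψ 0 y)) = F y
    rw [hΨ0]
    apply (Ψ 0).injective
    show Ψ 0 ((Ψ 0).symm (F y)) = Ψ 0 (F y)
    rw [(Ψ 0).apply_symm_apply, hΨ0]
  obtain ⟨k, hk2, hk, κ₁, hκ₁, hc⟩ := cl0Z n N r hr (ℝ × V n) (conjF (fun _ : ℝ => F) Ψ)
    (isFam_conjF _ Ψ (isFam_const F) hΨ0 hΨs hΨi) χ z hχ U hU (by rw [h0]; exact hFU)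
  have hk1 : 1 ≤ k := by omega
  refine ⟨k, hk2, hk, min (min (min κ₁ κ₂) (1 / 8)) ((1 / 2) ^ (k + 1)), by positivity, ?_⟩
  intro z' ρ m T hz' hz'κ hρ hρκ hm hTk hT hret hclose havoid
  set κ : ℝ := min (min (min κ₁ κ₂) (1 / 8)) ((1 / 2) ^ (k + 1)) with hκdef
  have hκ0 : 0 < κ := by rw [hκdef]; positivity
  have hκ1 : κ ≤ κ₁ := (min_le_left _ _).trans ((min_le_left _ _).trans (min_le_left _ _))
  have hκ2 : κ ≤ κ₂ := (min_le_left _ _).trans ((min_le_left _ _).trans (min_le_right _ _))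
  have hκ8 : κ ≤ 1 / 8 := (min_le_left _ _).trans (min_le_right _ _)
  have hκk : κ ≤ (1 / 2) ^ (k + 1) := min_le_right _ _
  set v : V n := χ z' with hv
  have hvκ2 : ‖v‖ < κ₂ := hz'κ.trans_le hκ2
  -- the translation takes `z` to `z'`
  have hzz' : Ψ v z = z' := by
    have hz4 : ‖χ z‖ < 1 / 4 := by rw [hχ.zero, norm_zero]; norm_num
    obtain ⟨m1, m2⟩ := hΨ v hvκ2 z hχ.src hz4
    apply χ.injOn m1 hz'
    rw [m2, hχ.zero, zero_add]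
  -- inverse images
  have hinv : ∀ w ∈ χ.source, ‖χ w - v‖ < 1 / 4 →
      (Ψ v).symm w ∈ χ.source ∧ χ ((Ψ v).symm w) = χ w - v := by
    intro w hw hw4
    have ht : χ w - v ∈ χ.target := by
      apply hχ.ball
      rw [mem_closedBall, dist_zero_right]
      linarith
    have hys : χ.symm (χ w - v) ∈ χ.source := χ.map_target ht
    have hχy : χ (χ.symm (χ w - v)) = χ w - v := χ.right_inv ht
    obtain ⟨m1, m2⟩ := hΨ v hvκ2 (χ.symm (χ w - v)) hys (by rw [hχy]; exact hw4)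
    have e1 : Ψ v (χ.symm (χ w - v)) = w := by
      apply χ.injOn m1 hw
      rw [m2, hχy, sub_add_cancel]
    have e2 : (Ψ v).symm w = χ.symm (χ w - v) := by
      apply (Ψ v).injective
      show Ψ v ((Ψ v).symm w) = Ψ v (χ.symm (χ w - v))
      rw [(Ψ v).apply_symm_apply, e1]
    rw [e2]
    exact ⟨hys, hχy⟩
  have hit : ∀ i, (conjF (fun _ : ℝ => F) Ψ ((0 : ℝ), v))^[i] z = (Ψ v).symm (F^[i] z') := by
    intro i
    rw [conjF_iter]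
    show (Ψ v).symm (F^[i] (Ψ v z)) = _
    rw [hzz']
  have hρ8 : ρ < 1 / 8 := hρκ.trans_le hκ8
  have hρk0 : 0 < ρ ^ k := pow_pos hρ k
  have hρk : ρ ^ k ≤ 1 := pow_le_one₀ hρ.le (by linarith)
  have hprod : (1 / 2 : ℝ) ^ k ≤ ∏ i ∈ T, ρ / ‖χ (F^[i] z') - v‖ := by
    apply half_pow_le_prod hTk
    intro i hi
    obtain ⟨-, h1, h2⟩ := hT i hi
    rw [div_le_div_iff₀ (by norm_num) h1]
    linarith
  have hsmall : ‖χ (F^[m] z') - v‖ < 1 / 4 := by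
    have h2k : (0 : ℝ) < (1 / 2) ^ k := by positivity
    have h1 : ‖χ (F^[m] z') - v‖ * (1 / 2 : ℝ) ^ k < 1 / 2 * (1 / 2) ^ k * ρ ^ k := by
      refine ((mul_le_mul_of_nonneg_left hprod (norm_nonneg _)).trans_lt hclose).trans_le ?_
      apply mul_le_mul_of_nonneg_right _ hρk0.le
      refine hκk.trans (le_of_eq ?_)
      rw [pow_succ]
      ring
    have h3 : ρ ^ k ≤ ρ := by
      calc ρ ^ k ≤ ρ ^ 1 := pow_le_pow_of_le_one hρ.le (by linarith) hk1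
        _ = ρ := pow_one ρ
    have h2 : ‖χ (F^[m] z') - v‖ < 1 / 2 * ρ ^ k := by
      have : ‖χ (F^[m] z') - v‖ * (1 / 2 : ℝ) ^ k < (1 / 2 * ρ ^ k) * (1 / 2) ^ k := by linarith
      exact lt_of_mul_lt_mul_right this h2k.le
    linarith
  obtain ⟨b1, b2⟩ := hinv _ hret hsmall
  have hT' : ∀ i ∈ T, (Ψ v).symm (F^[i] z') ∈ χ.source ∧
      χ ((Ψ v).symm (F^[i] z')) = χ (F^[i] z') - v := by
    intro i hi
    obtain ⟨h1, h2, h3⟩ := hT i hi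
    exact hinv _ h1 (by linarith)
  refine hc ((0 : ℝ), v) ρ m T ?_ hρ (hρκ.trans_le hκ1) hm hTk ?_ ?_ ?_ ?_
  · rw [Prod.norm_def]
    exact max_lt (by simpa using hκ₁) (hz'κ.trans_le hκ1)
  · intro i hi
    rw [hit, (hT' i hi).2]
    exact ⟨(hT' i hi).1, (hT i hi).2⟩
  · rw [hit]; exact b1
  · have e : ∏ i ∈ T, ρ / ‖χ ((conjF (fun _ : ℝ => F) Ψ ((0 : ℝ), v))^[i] z)‖ =
        ∏ i ∈ T, ρ / ‖χ (F^[i] z') - v‖ := by
      apply Finset.prod_congr rfl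
      intro i hi
      rw [hit, (hT' i hi).2]
    rw [e, hit, b2]
    exact hclose.trans_le (mul_le_mul_of_nonneg_right hκ1 hρk0.le)
  · intro i hi him hiT hsrc
    rw [hit] at hsrc ⊢
    by_cases h4 : ‖χ ((Ψ v).symm (F^[i] z'))‖ < 1 / 4
    · obtain ⟨m1, m2⟩ := hΨ v hvκ2 _ hsrc h4
      rw [(Ψ v).apply_symm_apply] at m1 m2
      have := havoid i hi him hiT m1
      rw [m2, add_sub_cancel_right] at this
      exact this
    · push Not at h4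
      linarith

end Pool.Agent.U882.FW
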