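import Pool.Agent.H718R2.G0

/-!
# Visits, relative nonwandering points: definitions

`V n = ℝⁿ`. `χ` is a chart of the `n`-manifold `N`.
-/

set_option autoImplicit false

open Filter Set Metric Topology

namespace Pool.Agent.U882.FW

open Pool.Agent.H718R2.G

section

variable {n : ℕ} {N : Type*} [TopologicalSpace N]

/-- The points of the domain of the chart `χ` with `‖χ y‖ < R`. -/
def Bal (χ : OpenPartialHomeomorph N (V n)) (R : ℝ) : Set N := {y | y ∈ χ.source ∧ ‖χ y‖ < R}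

/-- The number of the visits `F^i y ∈ W`, `1 ≤ i ≤ m`. -/
noncomputable def visits (F : N → N) (W : Set N) (y : N) (m : ℕ) : ℕ :=
  Set.ncard {i : ℕ | 1 ≤ i ∧ i ≤ m ∧ F^[i] y ∈ W}

/-- `u ∈ K` is a nonwandering point of the restriction of `F` to `K`. -/
def NonWandIn (F : N → N) (K : Set N) (u : N) : Prop :=
  u ∈ K ∧ ∀ O ∈ 𝓝 u, ∃ y ∈ K, y ∈ O ∧ ∃ m : ℕ, 1 ≤ m ∧ F^[m] y ∈ O

/-- The distance of a return is at least `exp (- C s^(log₂ k))`, `s` the number of the visits up to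
the time of the return. -/
def SlowVisits (F : N → N) (χ : OpenPartialHomeomorph N (V n)) (k : ℕ) (C ρ : ℝ) : Prop :=
  ∀ (y : N) (m : ℕ), 1 ≤ m → y ∈ Bal χ ρ → F^[m] y ∈ Bal χ ρ →
    Real.exp (-(C * (visits F (Bal χ (2 * ρ)) y m : ℝ) ^ Real.logb 2 k)) ≤ ‖χ (F^[m] y) - χ y‖

/-- For all closed forward invariant sets `K`: at every nonwandering point `w` of `F|K` with
`‖χ w‖ < ρ`, all annuli `a ≤ ‖χ · - χ w‖ ≤ C a^(1/k)`, `0 < a ≤ 1/C`, contain nonwandering points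
of `F|K`. -/
def MeetsAnnuli (F : N → N) (χ : OpenPartialHomeomorph N (V n)) (k : ℕ) (C ρ : ℝ) : Prop :=
  ∀ K : Set N, IsClosed K → MapsTo F K K → ∀ w ∈ Bal χ ρ, NonWandIn F K w →
    ∀ a : ℝ, 0 < a → a ≤ 1 / C → ∃ u : N, NonWandIn F K u ∧ u ∈ χ.source ∧
      a ≤ ‖χ u - χ w‖ ∧ ‖χ u - χ w‖ ≤ C * a ^ ((1 : ℝ) / k)

/-- For all closed forward invariant sets `K`: if `F|K` has a nonwandering point `w`,
`‖χ w‖ < ρ`, then there are for every `l` nonwandering points `u 1, …, u (2^l)` of `F|K`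
with `‖χ (u i)‖ < 2ρ` at distances `≥ exp (- C k^l)` of each other. -/
def ManyPoints (F : N → N) (χ : OpenPartialHomeomorph N (V n)) (k : ℕ) (C ρ : ℝ) : Prop :=
  ∀ K : Set N, IsClosed K → MapsTo F K K → ∀ w ∈ Bal χ ρ, NonWandIn F K w →
    ∀ l : ℕ, ∃ S : Finset N, S.card = 2 ^ l ∧ w ∈ S ∧ (∀ u ∈ S, u ∈ Bal χ (2 * ρ) ∧ NonWandIn F K u) ∧
      ∀ u ∈ S, ∀ v ∈ S, u ≠ v → Real.exp (-(C * (k : ℝ) ^ l)) ≤ ‖χ u - χ v‖

/-- No closing: every close return of a point near the centre of the chart is preceded by another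
return. -/
def NC (F : N → N) (χ : OpenPartialHomeomorph N (V n)) (k : ℕ) (κ : ℝ) : Prop :=
  ∀ (y : N) (ρ : ℝ) (m : ℕ), y ∈ χ.source → ‖χ y‖ < κ → 0 < ρ → ρ < κ → 1 ≤ m →
    F^[m] y ∈ χ.source → ‖χ (F^[m] y) - χ y‖ < κ * ρ ^ k →
    ∃ i, 0 < i ∧ i < m ∧ F^[i] y ∈ χ.source ∧ ‖χ (F^[i] y) - χ y‖ < 2 * ρ

end

end Pool.Agent.U882.FW
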