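import Pool.Agent.U882.FW.Seq
import Pool.Agent.U882.FW.Defs

/-!
# Visits and annuli at points which cannot be closed: the combinatorial part
-/

set_option autoImplicit false

open Filter Set Metric Topology

namespace Pool.Agent.U882.FW

open Pool.Agent.H718R2.G

section

variable {n : ℕ} {N : Type*} [TopologicalSpace N] {F : N → N}
  {χ : OpenPartialHomeomorph N (V n)} {k : ℕ} {κ : ℝ}

theorem NC.mono {k' : ℕ} {κ' : ℝ} (h : NC F χ k κ) (hk : k ≤ k') (h0 : 0 < κ') (hκ : κ' ≤ κ)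
    (h1 : κ' ≤ 1) : NC F χ k' κ' := by
  intro y ρ m hy hyκ hρ hρκ hm hmy hd
  refine h y ρ m hy (hyκ.trans_le hκ) hρ (hρκ.trans_le hκ) hm hmy (hd.trans_le ?_)
  have h2 : ρ ^ k' ≤ ρ ^ k := pow_le_pow_of_le_one hρ.le (hρκ.le.trans h1) hk
  have h3 : 0 ≤ ρ ^ k' := by positivity
  nlinarith

/-! ### returns versus visits -/

theorem t_facts (hk : 1 ≤ k) (hκ0 : 0 < κ) (hκ1 : κ ≤ 1) (t : ℕ → ℝ)
    (ht0 : t 0 = κ / 2 * (κ / 16) ^ k) (hts : ∀ l, t (l + 1) = κ / 2 * (t l / 3) ^ k) :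
    (∀ l, 0 < t l) ∧ (∀ l, t l ≤ κ / 32) ∧ (∀ l, t (l + 1) ≤ t l / 6) ∧
      ∀ l, ∑ j ∈ Finset.range l, t j ≤ 2 * t 0 - 2 * t l := by
  have hp : ∀ l, 0 < t l := by
    intro l
    induction l with
    | zero => rw [ht0]; positivity
    | succ l ih => rw [hts]; positivity
  have h0 : t 0 ≤ κ / 32 := by
    rw [ht0]
    have : (κ / 16) ^ k ≤ κ / 16 := by
      calc (κ / 16) ^ k ≤ (κ / 16) ^ 1 := pow_le_pow_of_le_one (by positivity) (by linarith) hk
        _ = κ / 16 := pow_one _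
    nlinarith
  have hstep : ∀ l, t l ≤ κ / 32 → t (l + 1) ≤ t l / 6 := by
    intro l hl
    rw [hts]
    have hpl := hp l
    have : (t l / 3) ^ k ≤ t l / 3 := by
      calc (t l / 3) ^ k ≤ (t l / 3) ^ 1 := pow_le_pow_of_le_one (by positivity) (by linarith) hk
        _ = t l / 3 := pow_one _
    nlinarith
  have hle : ∀ l, t l ≤ κ / 32 := by
    intro l
    induction l with
    | zero => exact h0
    | succ l ih =>
      have := hstep l ih
      have := hp l
      linarith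
  refine ⟨hp, hle, fun l => hstep l (hle l), ?_⟩
  intro l
  induction l with
  | zero => simp
  | succ l ih =>
    rw [Finset.sum_range_succ]
    have := hstep l (hle l)
    have := hp l
    linarith

theorem claimC (hNC : NC F χ k κ) (hk : 1 ≤ k) (hκ0 : 0 < κ) (hκ1 : κ ≤ 1) (t : ℕ → ℝ)
    (ht0 : t 0 = κ / 2 * (κ / 16) ^ k) (hts : ∀ l, t (l + 1) = κ / 2 * (t l / 3) ^ k) :
    ∀ (l : ℕ) (y : N) (m : ℕ), 1 ≤ m → y ∈ χ.source → F^[m] y ∈ χ.source →
      ‖χ y‖ < 3 * κ / 4 - ∑ j ∈ Finset.range l, t j →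
      ‖χ (F^[m] y)‖ < 3 * κ / 4 - ∑ j ∈ Finset.range l, t j →
      cnt F (Bal χ κ) (F y) m < 2 ^ (l + 1) → t l < ‖χ (F^[m] y) - χ y‖ := by
  obtain ⟨hp, hle, hst, hsum⟩ := t_facts hk hκ0 hκ1 t ht0 hts
  have hsum0 : ∀ l, 0 ≤ ∑ j ∈ Finset.range l, t j := fun l =>
    Finset.sum_nonneg fun j _ => (hp j).le
  intro l
  induction l with
  | zero =>
    intro y m hm hy hmy h1 h2 hc
    by_contra hcon
    push Not at hcon
    simp only [Finset.range_zero, Finset.sum_empty, sub_zero] at h1 h2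
    obtain ⟨i, hi0, him, his, hid⟩ := hNC y (κ / 16) m hy (by linarith) (by positivity)
      (by linarith) hm hmy (by
        refine lt_of_le_of_lt hcon ?_
        rw [ht0]
        have : 0 < (κ / 16) ^ k := by positivity
        nlinarith)
    have hiB : F^[i] y ∈ Bal χ κ := by
      refine ⟨his, ?_⟩
      have : ‖χ (F^[i] y)‖ ≤ ‖χ (F^[i] y) - χ y‖ + ‖χ y‖ := by
        have := norm_add_le (χ (F^[i] y) - χ y) (χ y)
        simpa using this
      linarith
    have hmB : F^[m] y ∈ Bal χ κ := ⟨hmy, by linarith⟩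
    have e : m = i + (m - i) := by omega
    rw [e, cnt_add] at hc
    have c1 : 1 ≤ cnt F (Bal χ κ) (F y) i := by
      refine cnt_pos F _ _ i (i - 1) (by omega) ?_
      rw [← Function.iterate_succ_apply]
      rwa [show (i - 1).succ = i by omega]
    have c2 : 1 ≤ cnt F (Bal χ κ) (F^[i] (F y)) (m - i) := by
      refine cnt_pos F _ _ (m - i) (m - i - 1) (by omega) ?_
      rw [← Function.iterate_add_apply, ← Function.iterate_succ_apply]
      rwa [show (m - i - 1 + i).succ = m by omega]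
    norm_num at hc
    omega
  | succ l ih =>
    intro y m hm hy hmy h1 h2 hc
    by_contra hcon
    push Not at hcon
    have hpl := hp l
    have hll := hle l
    have hsl := hst l
    have hs0 := hsum0 l
    rw [Finset.sum_range_succ] at h1 h2
    obtain ⟨i, hi0, him, his, hid⟩ := hNC y (t l / 3) m hy (by linarith) (by positivity)
      (by linarith) hm hmy (by
        refine lt_of_le_of_lt hcon ?_
        rw [hts]
        have : 0 < (t l / 3) ^ k := by positivity
        nlinarith)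
    have hin : ‖χ (F^[i] y)‖ < 3 * κ / 4 - ∑ j ∈ Finset.range l, t j := by
      have : ‖χ (F^[i] y)‖ ≤ ‖χ (F^[i] y) - χ y‖ + ‖χ y‖ := by
        have := norm_add_le (χ (F^[i] y) - χ y) (χ y)
        simpa using this
      linarith
    have e : m = i + (m - i) := by omega
    have hFF : F^[i] (F y) = F (F^[i] y) := by
      rw [← Function.iterate_succ_apply, Function.iterate_succ_apply']
    have hc' : cnt F (Bal χ κ) (F y) i + cnt F (Bal χ κ) (F (F^[i] y)) (m - i) < 2 ^ (l + 1 + 1) := by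
      rw [← hFF, ← cnt_add, ← e]
      exact hc
    have hmi : F^[m - i] (F^[i] y) = F^[m] y := by
      rw [← Function.iterate_add_apply]
      congr 2
      omega
    by_cases hcase : cnt F (Bal χ κ) (F y) i < 2 ^ (l + 1)
    · have := ih y i hi0 hy his (by linarith) hin hcase
      linarith
    · have hc2 : cnt F (Bal χ κ) (F (F^[i] y)) (m - i) < 2 ^ (l + 1) := by
        have : 2 ^ (l + 1 + 1) = 2 ^ (l + 1) + 2 ^ (l + 1) := by ring
        omega
      have h3 := ih (F^[i] y) (m - i) (by omega) his (by rw [hmi]; exact hmy) hin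
        (by rw [hmi]; linarith) hc2
      rw [hmi] at h3
      have h4 : ‖χ (F^[m] y) - χ (F^[i] y)‖ ≤ ‖χ (F^[m] y) - χ y‖ + ‖χ (F^[i] y) - χ y‖ := by
        have := norm_sub_le (χ (F^[m] y) - χ y) (χ (F^[i] y) - χ y)
        simpa using this
      linarith

/-- returns versus visits -/
theorem slowVisits (hNC : NC F χ k κ) (hk : 2 ≤ k) (hκ0 : 0 < κ) (hκ1 : κ ≤ 1) :
    ∃ C : ℝ, 0 < C ∧ ∀ C', C ≤ C' → SlowVisits F χ k C' (κ / 4) := by
  have hNC' : NC F χ k (κ / 2) := hNC.mono le_rfl (by positivity) (by linarith) (by linarith)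
  obtain ⟨t, ht0, hts⟩ : ∃ t : ℕ → ℝ, t 0 = κ / 2 / 2 * (κ / 2 / 16) ^ k ∧
      ∀ l, t (l + 1) = κ / 2 / 2 * (t l / 3) ^ k :=
    ⟨fun l => Nat.rec (κ / 2 / 2 * (κ / 2 / 16) ^ k) (fun _ x => κ / 2 / 2 * (x / 3) ^ k) l, rfl,
      fun _ => rfl⟩
  obtain ⟨hp, hle, hst, hsum⟩ := t_facts (κ := κ / 2) (by omega) (by positivity) (by linarith) t ht0 hts
  obtain ⟨C, hC0, hC⟩ := seq_lb k hk (κ / 2 / 2) 3 (by positivity) (by norm_num) t (hp 0) hts
  refine ⟨C, hC0, fun C' hC' y m hm hy hmy => ?_⟩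
  have hC'0 : 0 < C' := lt_of_lt_of_le hC0 hC'
  have e2 : 2 * (κ / 4) = κ / 2 := by ring
  unfold visits
  rw [e2, cnt_visits]
  obtain ⟨s, hs⟩ : ∃ s, s = cnt F (Bal χ (κ / 2)) (F y) m := ⟨_, rfl⟩
  have hs1 : 1 ≤ s := by
    rw [hs]
    refine cnt_pos F _ _ m (m - 1) (by omega) ?_
    rw [← Function.iterate_succ_apply]
    rw [show (m - 1).succ = m by omega]
    exact ⟨hmy.1, lt_of_lt_of_le hmy.2 (by linarith)⟩
  rw [← hs]
  have hl1 : 2 ^ Nat.log 2 s ≤ s := Nat.pow_log_le_self 2 (by omega)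
  have hl2 : s < 2 ^ (Nat.log 2 s + 1) := Nat.lt_pow_succ_log_self (by norm_num) s
  obtain ⟨l, hl⟩ : ∃ l, l = Nat.log 2 s := ⟨_, rfl⟩
  rw [← hl] at hl1 hl2
  have h0 : 0 ≤ ∑ j ∈ Finset.range l, t j := Finset.sum_nonneg fun j _ => (hp j).le
  have hR : κ / 4 ≤ 3 * (κ / 2) / 4 - ∑ j ∈ Finset.range l, t j := by
    have := hsum l
    have := hp l
    have := hle 0
    linarith
  have key := claimC hNC' (by omega) (by positivity) (by linarith) t ht0 hts l y m hm hy.1 hmy.1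
    (lt_of_lt_of_le hy.2 hR) (lt_of_lt_of_le hmy.2 hR) (by rw [← hs]; exact hl2)
  refine le_trans ?_ key.le
  refine le_trans ?_ (hC C' hC' l)
  apply Real.exp_le_exp.mpr
  apply neg_le_neg
  apply mul_le_mul_of_nonneg_left _ hC'0.le
  have hkr : (2 : ℝ) ≤ k := by exact_mod_cast hk
  have e3 : (k : ℝ) ^ l = ((2 : ℝ) ^ l) ^ Real.logb 2 k := by
    rw [← Real.rpow_natCast 2 l, ← Real.rpow_mul (by norm_num), mul_comm, Real.rpow_mul (by norm_num),
      Real.rpow_logb (by norm_num) (by norm_num) (by linarith), Real.rpow_natCast]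
  rw [e3]
  apply Real.rpow_le_rpow (by positivity) _ (Real.logb_nonneg (by norm_num) (by linarith))
  exact_mod_cast hl1

end

end Pool.Agent.U882.FW
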