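import Pool.Agent.U882.FW.Defs

/-!
# The laws satisfied by the returns near a point which cannot be closed: definitions
-/

set_option autoImplicit false

open Filter Set Metric Topology

namespace Pool.Agent.U882.FW

open Pool.Agent.H718R2.G

/-- The admissible exponents: `p > 0` and `2^(-p) + 3^(-p) + ⋯ + (k+1)^(-p) ≤ 1`. -/
def Adm (k : ℕ) (p : ℝ) : Prop :=
  0 < p ∧ ∑ j ∈ Finset.range k, ((j + 2 : ℕ) : ℝ) ^ (-p) ≤ 1

section

variable {n : ℕ} {N : Type*} [TopologicalSpace N]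

/-- The points of the domain of the chart `χ` with `‖χ u - χ y‖ < R`. -/
def BalAt (χ : OpenPartialHomeomorph N (V n)) (y : N) (R : ℝ) : Set N :=
  {u | u ∈ χ.source ∧ ‖χ u - χ y‖ < R}

/-- A return `F^m y` of a point `y` near the centre of the chart `χ` is not much closer to `y` than
the product of its distances from some (and hence from the closest) `≤ k` earlier returns: for all
`R ≤ ρ`, `‖F^m y - y‖ ≥ c R^(k - |T|) ∏_(i ∈ T) ‖F^i y - y‖` for some set `T` of at most `k`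
times `0 < i < m` with `‖F^i y - y‖ < R`. -/
def ProductLaw (F : N → N) (χ : OpenPartialHomeomorph N (V n)) (k : ℕ) (ρ : ℝ) : Prop :=
  ∃ c : ℝ, 0 < c ∧ ∀ (y : N) (m : ℕ) (R : ℝ), 1 ≤ m → y ∈ Bal χ ρ → F^[m] y ∈ Bal χ ρ →
    0 < R → R ≤ ρ → ∃ T : Finset ℕ, T.card ≤ k ∧ (∀ i ∈ T, 0 < i ∧ i < m ∧ F^[i] y ∈ BalAt χ y R) ∧
      c * R ^ (k - T.card) * ∏ i ∈ T, ‖χ (F^[i] y) - χ y‖ ≤ ‖χ (F^[m] y) - χ y‖

/-- For all admissible exponents `p` and all `R ≤ ρ`: `‖F^m y - y‖ ≥ exp (- C (1 + log (1/R)) s^p)`,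
where `s` is the number of the returns to the ball of radius `R` with centre `y` up to the time `m`
(or `s = 1`, if there are none); `C` does not depend on `y`, `m` and `R`. -/
def VisitsLaw (F : N → N) (χ : OpenPartialHomeomorph N (V n)) (k : ℕ) (ρ : ℝ) : Prop :=
  ∀ p : ℝ, Adm k p → ∃ C : ℝ, 0 < C ∧ ∀ (y : N) (m : ℕ) (R : ℝ), 1 ≤ m → y ∈ Bal χ ρ →
    F^[m] y ∈ Bal χ ρ → 0 < R → R ≤ ρ →
    Real.exp (-(C * (1 + Real.log (1 / R)) * ((max 1 (visits F (BalAt χ y R) y m) : ℕ) : ℝ) ^ p)) ≤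
      ‖χ (F^[m] y) - χ y‖

/-- Let `K` be closed, `F(K) ⊆ K`, and suppose that `F|K` has a nonwandering point in the ball
`‖χ‖ < ρ`. If the nonwandering points of `F|K` in the ball `‖χ‖ < 2ρ` are covered by `s` balls
of radius `ε`, then `ε ≥ exp (- C (1 + log s) s^p)`, for all admissible exponents `p`. -/
def CoverLaw (F : N → N) (χ : OpenPartialHomeomorph N (V n)) (k : ℕ) (ρ : ℝ) : Prop :=
  ∀ p : ℝ, Adm k p → ∃ C : ℝ, 0 < C ∧ ∀ K : Set N, IsClosed K → MapsTo F K K →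
    ∀ w ∈ Bal χ ρ, NonWandIn F K w → ∀ (E : Finset (V n)) (ε : ℝ),
      (∀ u ∈ Bal χ (2 * ρ), NonWandIn F K u → ∃ e ∈ E, ‖χ u - e‖ < ε) →
      Real.exp (-(C * (1 + Real.log E.card) * (E.card : ℝ) ^ p)) ≤ ε

/-- No closing, in the presence of `≤ k` intermediate returns. -/
def NCZ (F : N → N) (χ : OpenPartialHomeomorph N (V n)) (k : ℕ) (κ : ℝ) : Prop :=
  ∀ (y : N) (ρ : ℝ) (m : ℕ) (T : Finset ℕ), y ∈ χ.source → ‖χ y‖ < κ → 0 < ρ → ρ < κ → 1 ≤ m →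
    T.card ≤ k → (∀ i ∈ T, F^[i] y ∈ χ.source ∧ 0 < ‖χ (F^[i] y) - χ y‖ ∧
      ‖χ (F^[i] y) - χ y‖ ≤ 2 * ρ) → F^[m] y ∈ χ.source →
    ‖χ (F^[m] y) - χ y‖ * (∏ i ∈ T, ρ / ‖χ (F^[i] y) - χ y‖) < κ * ρ ^ k →
    ∃ i, 0 < i ∧ i < m ∧ i ∉ T ∧ F^[i] y ∈ χ.source ∧ ‖χ (F^[i] y) - χ y‖ < 2 * ρ

end

end Pool.Agent.U882.FW
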