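import Pool.Agent.U882.FW.DefsZ

/-!
# The recursion for the exponents
-/

set_option autoImplicit false

open Filter Set Metric Topology

namespace Pool.Agent.U882.FW

/-- the function `A s^p - B` -/
theorem exists_g (k : ℕ) (hk : 2 ≤ k) (p : ℝ) (hp : Adm k p) (C₁ : ℝ) (hC₁ : 0 ≤ C₁) :
    ∃ (g : ℕ → ℝ) (C₂ : ℝ), 0 < C₂ ∧ g 0 = C₁ ∧ (∀ s, C₁ ≤ g s) ∧
      (∀ s : ℕ, 1 ≤ s → g s ≤ C₂ * (s : ℝ) ^ p) ∧
      ∀ s : ℕ, 1 ≤ s → ∑ j ∈ Finset.range k, g (s / (j + 2)) + C₁ ≤ g s := by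
  classical
  obtain ⟨hp0, hsum⟩ := hp
  have h2p : (1 : ℝ) < 2 ^ p := Real.one_lt_rpow (by norm_num) hp0
  have hkR : (2 : ℝ) ≤ k := by exact_mod_cast hk
  obtain ⟨B, hB⟩ : ∃ B : ℝ, B = C₁ * (k + 1) := ⟨_, rfl⟩
  obtain ⟨A, hA⟩ : ∃ A : ℝ, A = B + C₁ * (k + 1) + C₁ * k / (2 ^ p - 1) + 1 := ⟨_, rfl⟩
  have hB0 : 0 ≤ B := by rw [hB]; positivity
  have hq0 : 0 ≤ C₁ * k / (2 ^ p - 1) := div_nonneg (by positivity) (by linarith)
  have hA1 : 0 < A := by rw [hA]; positivity
  have hA2 : C₁ * k ≤ A * (2 ^ p - 1) := by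
    have h1 : C₁ * k / (2 ^ p - 1) ≤ A := by
      rw [hA]
      have : 0 ≤ C₁ * (k + 1) := by positivity
      linarith
    rwa [div_le_iff₀ (by linarith)] at h1
  have hA3 : B + C₁ * (k + 1) ≤ A := by rw [hA]; linarith
  refine ⟨fun s => if s = 0 then C₁ else A * (s : ℝ) ^ p - B, A, hA1, by simp, ?_, ?_, ?_⟩
  · intro s
    by_cases hs : s = 0
    · simp [hs]
    · simp only [hs, if_false]
      have h1 : (1 : ℝ) ≤ (s : ℝ) ^ p := Real.one_le_rpow (by exact_mod_cast Nat.one_le_iff_ne_zero.mpr hs) hp0.le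
      have h2 : C₁ ≤ C₁ * (k + 1) := by nlinarith
      nlinarith
  · intro s hs
    have hs0 : s ≠ 0 := by omega
    simp only [hs0, if_false]
    linarith
  · intro s hs
    have hs0 : s ≠ 0 := by omega
    simp only [hs0, if_false]
    have hsp : 0 < (s : ℝ) ^ p := by positivity
    -- each term
    have hterm : ∀ j ∈ Finset.range k, (if s / (j + 2) = 0 then C₁ else
        A * ((s / (j + 2) : ℕ) : ℝ) ^ p - B) ≤
        (if j + 2 ≤ s then A * (s : ℝ) ^ p * ((j + 2 : ℕ) : ℝ) ^ (-p) - B else C₁) := by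
      intro j _
      by_cases hj : j + 2 ≤ s
      · have h1 : s / (j + 2) ≠ 0 := by
          have := Nat.div_pos hj (by omega)
          omega
        simp only [h1, if_false, hj, if_true]
        have h2 : ((s / (j + 2) : ℕ) : ℝ) ≤ (s : ℝ) / ((j + 2 : ℕ) : ℝ) := Nat.cast_div_le
        have h3 : ((s / (j + 2) : ℕ) : ℝ) ^ p ≤ ((s : ℝ) / ((j + 2 : ℕ) : ℝ)) ^ p :=
          Real.rpow_le_rpow (by positivity) h2 hp0.le
        rw [Real.div_rpow (by positivity) (by positivity)] at h3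
        rw [Real.rpow_neg (by positivity)]
        have h4 : A * ((s / (j + 2) : ℕ) : ℝ) ^ p ≤ A * ((s : ℝ) ^ p / ((j + 2 : ℕ) : ℝ) ^ p) :=
          mul_le_mul_of_nonneg_left h3 hA1.le
        rw [div_eq_mul_inv, ← mul_assoc] at h4
        linarith
      · have h1 : s / (j + 2) = 0 := Nat.div_eq_of_lt (by omega)
        simp only [h1, if_true, hj, if_false]
        exact le_rfl
    have hsum2 := Finset.sum_le_sum hterm
    refine (add_le_add hsum2 (le_refl C₁)).trans ?_
    -- the cases s = 1, s = 2, s ≥ 3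
    rcases Nat.lt_or_ge s 3 with h3 | h3
    · interval_cases s
      · have : ∀ j ∈ Finset.range k, (if j + 2 ≤ 1 then A * ((1 : ℕ) : ℝ) ^ p * ((j + 2 : ℕ) : ℝ) ^ (-p) - B
            else C₁) = C₁ := by
          intro j _
          rw [if_neg (by omega)]
        rw [Finset.sum_congr rfl this, Finset.sum_const, Finset.card_range, nsmul_eq_mul,
          Nat.cast_one, Real.one_rpow]
        linarith
      · obtain ⟨k', rfl⟩ : ∃ k', k = k' + 1 := ⟨k - 1, by omega⟩
        rw [Finset.sum_range_succ']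
        have : ∀ j ∈ Finset.range k', (if j + 1 + 2 ≤ 2 then
            A * ((2 : ℕ) : ℝ) ^ p * ((j + 1 + 2 : ℕ) : ℝ) ^ (-p) - B else C₁) = C₁ := by
          intro j _
          rw [if_neg (by omega)]
        rw [Finset.sum_congr rfl this, Finset.sum_const, Finset.card_range, nsmul_eq_mul]
        simp only [zero_add, le_refl, if_true]
        rw [mul_assoc, ← Real.rpow_add (by norm_num), add_neg_cancel, Real.rpow_zero]
        push_cast at hA2 ⊢
        nlinarith
    · -- s ≥ 3: the terms j = 0, 1 contribute -B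
      have hle : ∀ j ∈ Finset.range k, (if j + 2 ≤ s then
          A * (s : ℝ) ^ p * ((j + 2 : ℕ) : ℝ) ^ (-p) - B else C₁) ≤
          A * (s : ℝ) ^ p * ((j + 2 : ℕ) : ℝ) ^ (-p) + C₁ - (if j < 2 then B + C₁ else 0) := by
        intro j _
        have hnn : 0 ≤ A * (s : ℝ) ^ p * ((j + 2 : ℕ) : ℝ) ^ (-p) := by positivity
        by_cases hj2 : j < 2
        · rw [if_pos (by omega), if_pos hj2]
          linarith
        · rw [if_neg hj2]
          by_cases hj : j + 2 ≤ s
          · rw [if_pos hj]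
            linarith
          · rw [if_neg hj]
            linarith
      refine (add_le_add (Finset.sum_le_sum hle) (le_refl C₁)).trans ?_
      rw [Finset.sum_sub_distrib, Finset.sum_add_distrib, ← Finset.mul_sum, Finset.sum_const,
        Finset.card_range, nsmul_eq_mul]
      have h5 : ∑ j ∈ Finset.range k, (if j < 2 then B + C₁ else 0) = 2 * (B + C₁) := by
        obtain ⟨k', rfl⟩ : ∃ k', k = k' + 2 := ⟨k - 2, by omega⟩
        rw [Finset.sum_range_succ', Finset.sum_range_succ']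
        simp
        ring
      rw [h5]
      have h6 : A * (s : ℝ) ^ p * ∑ j ∈ Finset.range k, ((j + 2 : ℕ) : ℝ) ^ (-p) ≤ A * (s : ℝ) ^ p * 1 :=
        mul_le_mul_of_nonneg_left hsum (by positivity)
      nlinarith

end Pool.Agent.U882.FW
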