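import Pool.Agent.U882.FW.Star
import Pool.Agent.U882.FW.Expo

/-!
# The law for the returns in terms of the visits
-/

set_option autoImplicit false

open Filter Set Metric Topology

namespace Pool.Agent.U882.FW

open Pool.Agent.H718R2.G

theorem cnt_mono {N : Type*} (F : N → N) {P Q : Set N} (h : P ⊆ Q) (y : N) (m : ℕ) :
    cnt F P y m ≤ cnt F Q y m := by
  classical
  unfold cnt
  apply Finset.card_le_card
  intro i hi
  rw [Finset.mem_filter] at hi ⊢
  exact ⟨hi.1, h hi.2⟩

/-- Among the `j + 1` intervals between `0`, the points of `T` and `m`, one contains at most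
`s / (j + 1)` of the visits. -/
theorem gap {N : Type*} (F : N → N) (P : Set N) (y : N) : ∀ (j : ℕ) (T : Finset ℕ) (m s : ℕ),
    T.card = j → (∀ i ∈ T, 0 < i ∧ i < m) → 1 ≤ m → cnt F P (F y) m ≤ s →
    ∃ a b, (a = 0 ∨ a ∈ T) ∧ (b = m ∨ b ∈ T) ∧ a < b ∧ b ≤ m ∧
      cnt F P (F^[a + 1] y) (b - a) * (j + 1) ≤ s := by
  intro j
  induction j with
  | zero =>
    intro T m s hT hTm hm hs
    exact ⟨0, m, Or.inl rfl, Or.inl rfl, hm, le_rfl, by simpa using hs⟩
  | succ j ih =>
    intro T m s hT hTm hm hs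
    have hne : T.Nonempty := by
      rw [← Finset.card_pos]
      omega
    obtain ⟨τ, hτ⟩ : ∃ τ, τ = T.max' hne := ⟨_, rfl⟩
    have hτT : τ ∈ T := by rw [hτ]; exact T.max'_mem hne
    obtain ⟨hτ0, hτm⟩ := hTm τ hτT
    have hsplit : cnt F P (F y) m = cnt F P (F y) τ + cnt F P (F^[τ + 1] y) (m - τ) := by
      conv_lhs => rw [show m = τ + (m - τ) by omega]
      rw [cnt_add, ← Function.iterate_succ_apply]
    by_cases hc : cnt F P (F^[τ + 1] y) (m - τ) * (j + 1 + 1) ≤ s
    · exact ⟨τ, m, Or.inr hτT, Or.inl rfl, hτm, le_rfl, hc⟩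
    · push Not at hc
      have h1 : ∀ i ∈ T.erase τ, 0 < i ∧ i < τ := by
        intro i hi
        obtain ⟨hi1, hi2⟩ := Finset.mem_erase.mp hi
        have : i ≤ τ := by rw [hτ]; exact T.le_max' i hi2
        exact ⟨(hTm i hi2).1, lt_of_le_of_ne this hi1⟩
      obtain ⟨a, b, ha, hb, hab, hbτ, hcount⟩ := ih (T.erase τ) τ (cnt F P (F y) τ)
        (by rw [Finset.card_erase_of_mem hτT, hT]; omega) h1 hτ0 le_rfl
      refine ⟨a, b, ?_, ?_, hab, by omega, ?_⟩
      · rcases ha with ha | ha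
        · exact Or.inl ha
        · exact Or.inr (Finset.mem_of_mem_erase ha)
      · rcases hb with hb | hb
        · exact Or.inr (by rw [hb]; exact hτT)
        · exact Or.inr (Finset.mem_of_mem_erase hb)
      · obtain ⟨c, hc'⟩ : ∃ c, c = cnt F P (F^[a + 1] y) (b - a) := ⟨_, rfl⟩
        obtain ⟨c1, hc1⟩ : ∃ c, c = cnt F P (F y) τ := ⟨_, rfl⟩
        obtain ⟨c2, hc2⟩ : ∃ c, c = cnt F P (F^[τ + 1] y) (m - τ) := ⟨_, rfl⟩
        rw [← hc', ← hc1] at hcount
        rw [← hc2] at hc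
        rw [hsplit, ← hc1, ← hc2] at hs
        rw [← hc']
        -- c (j+1) ≤ c1, c1 + c2 ≤ s, s < c2 (j+2)
        by_contra hcon
        push Not at hcon
        have e1 : c * (j + 1 + 1) * (j + 1) ≤ c1 * (j + 1 + 1) := by nlinarith
        have e2 : s * (j + 1) < c * (j + 1 + 1) * (j + 1) := by
          exact Nat.mul_lt_mul_of_pos_right hcon (Nat.succ_pos j)
        have e3 : c1 * (j + 1 + 1) + c2 * (j + 1 + 1) ≤ s * (j + 1 + 1) := by nlinarith
        nlinarith

/-- Products and maxima. -/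
theorem prod_ge (d f : ℕ → ℝ) (hf : ∀ j, 0 ≤ f j) : ∀ (q : ℕ) (T : Finset ℕ), T.card = q →
    (∀ T' ⊆ T, T'.Nonempty → ∃ i ∈ T', f T'.card ≤ d i) →
    ∏ j ∈ Finset.range q, f (j + 1) ≤ ∏ i ∈ T, d i := by
  intro q
  induction q with
  | zero =>
    intro T hT _
    rw [Finset.card_eq_zero] at hT
    subst hT
    simp
  | succ q ih =>
    intro T hT h
    have hne : T.Nonempty := by
      rw [← Finset.card_pos]
      omega
    obtain ⟨i, hi, hfi⟩ := h T (Finset.Subset.refl T) hne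
    have h1 := ih (T.erase i) (by rw [Finset.card_erase_of_mem hi, hT]; omega)
      (fun T' hT' hne' => h T' (hT'.trans (Finset.erase_subset i T)) hne')
    rw [Finset.prod_range_succ, ← Finset.mul_prod_erase T d hi, mul_comm]
    rw [hT] at hfi
    exact mul_le_mul hfi h1 (Finset.prod_nonneg fun j _ => hf _) ((hf _).trans hfi)

section

variable {n : ℕ} {N : Type*} [TopologicalSpace N] {F : N → N}
  {χ : OpenPartialHomeomorph N (V n)} {k : ℕ} {κ : ℝ}

theorem law (h : NCZ F χ k κ) (hk : 1 ≤ k) (hκ : 0 < κ) (hκ1 : κ ≤ 1) (δ : ℝ) (hδ : 0 < δ)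
    (hδκ : δ ≤ κ) (t : ℕ → ℝ) (htp : ∀ s, 0 < t s) (ht0 : ∀ s, t s ≤ δ / 8)
    (hmon : ∀ s, 1 ≤ s → ∀ j < k, t s ≤ t (s / (j + 2)) / 2)
    (hts : ∀ s, 1 ≤ s → t s ≤ κ * (δ / 2) ^ k * ∏ j ∈ Finset.range k, (t (s / (j + 2)) / 2)) :
    ∀ (s : ℕ) (y : N) (m : ℕ), 1 ≤ m → y ∈ χ.source → F^[m] y ∈ χ.source →
      ‖χ y‖ < κ / 2 + t s → ‖χ (F^[m] y)‖ < κ / 2 + t s →
      cnt F (BalAt χ y (3 * δ / 4 - t s)) (F y) m ≤ s → t s ≤ ‖χ (F^[m] y) - χ y‖ := by
  classical
  intro s
  induction s using Nat.strong_induction_on with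
  | _ s ih =>
    intro y m hm hy hmy hyn hmyn hcnt
    by_contra hcon
    push Not at hcon
    have hts0 := htp s
    have hts8 := ht0 s
    by_cases hs0 : s = 0
    · -- the return itself is a visit
      have h1 : 1 ≤ cnt F (BalAt χ y (3 * δ / 4 - t s)) (F y) m := by
        refine cnt_pos F _ _ m (m - 1) (by omega) ?_
        rw [← Function.iterate_succ_apply]
        rw [show (m - 1).succ = m by omega]
        exact ⟨hmy, by linarith⟩
      omega
    have hs1 : 1 ≤ s := by omega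
    obtain ⟨T, hTk, hT, hprod⟩ := h.star hk hκ hκ1 δ hδ hδκ y hy (by linarith) m hm hmy
    have key : ∀ T' ⊆ T, T'.Nonempty → ∃ i ∈ T', t (s / (T'.card + 1)) / 2 ≤ ‖χ (F^[i] y) - χ y‖ := by
      intro T' hT' hne
      by_contra hall
      push Not at hall
      have hcard1 : 1 ≤ T'.card := Finset.card_pos.mpr hne
      have hcardk : T'.card ≤ k := (Finset.card_le_card hT').trans hTk
      obtain ⟨s', hs'⟩ : ∃ s', s' = s / (T'.card + 1) := ⟨_, rfl⟩
      have hmon' : t s ≤ t s' / 2 := by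
        have := hmon s hs1 (T'.card - 1) (by omega)
        rwa [show T'.card - 1 + 2 = T'.card + 1 by omega, ← hs'] at this
      have hs's : s' < s := by
        rw [hs']
        exact Nat.div_lt_self (by omega) (by omega)
      have hts' := htp s'
      have hts8' := ht0 s'
      rw [← hs'] at hall
      obtain ⟨a, b, ha, hb, hab, hbm, hc⟩ := gap F (BalAt χ y (3 * δ / 4 - t s)) y T'.card T' m s rfl
        (fun i hi => ⟨(hT i (hT' hi)).1, (hT i (hT' hi)).2.1⟩) hm hcnt
      have hc' : cnt F (BalAt χ y (3 * δ / 4 - t s)) (F^[a + 1] y) (b - a) ≤ s' := by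
        rw [hs', Nat.le_div_iff_mul_le (by omega)]
        exact hc
      have hda : F^[a] y ∈ χ.source ∧ ‖χ (F^[a] y) - χ y‖ < t s' / 2 := by
        rcases ha with rfl | ha
        · refine ⟨hy, ?_⟩
          simp only [Function.iterate_zero, id_eq, sub_self, norm_zero]
          positivity
        · exact ⟨(hT a (hT' ha)).2.2.1, hall a ha⟩
      have hdb : F^[b] y ∈ χ.source ∧ ‖χ (F^[b] y) - χ y‖ < t s' / 2 := by
        rcases hb with rfl | hb
        · exact ⟨hmy, by linarith⟩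
        · exact ⟨(hT b (hT' hb)).2.2.1, hall b hb⟩
      have hiter : F^[b - a] (F^[a] y) = F^[b] y := by
        rw [← Function.iterate_add_apply]
        congr 2
        omega
      have hFa : F (F^[a] y) = F^[a + 1] y := (Function.iterate_succ_apply' F a y).symm
      have h1 := ih s' hs's (F^[a] y) (b - a) (by omega) hda.1 (by rw [hiter]; exact hdb.1)
        (by
          have := nrm (χ (F^[a] y)) (χ y)
          linarith [hda.2])
        (by
          rw [hiter]
          have := nrm (χ (F^[b] y)) (χ y)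
          linarith [hdb.2])
        (by
          rw [hFa]
          refine le_trans (cnt_mono F ?_ _ _) hc'
          intro u hu
          refine ⟨hu.1, ?_⟩
          have := tri (χ u) (χ (F^[a] y)) (χ y)
          have := hu.2
          linarith [hda.2])
      rw [hiter] at h1
      have h2 := tri (χ (F^[b] y)) (χ y) (χ (F^[a] y))
      rw [norm_sub_rev (χ y) (χ (F^[a] y))] at h2
      linarith [hda.2, hdb.2]
    have h3 := prod_ge (fun i => ‖χ (F^[i] y) - χ y‖) (fun j => t (s / (j + 1)) / 2)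
      (fun j => by have := htp (s / (j + 1)); positivity) T.card T rfl key
    have h4 : ∏ j ∈ Finset.range k, (t (s / (j + 2)) / 2) ≤
        ∏ j ∈ Finset.range T.card, (t (s / (j + 1 + 1)) / 2) := by
      rw [← Finset.prod_sdiff (Finset.range_subset_range.mpr hTk)]
      have h5 : ∏ j ∈ Finset.range k \ Finset.range T.card, (t (s / (j + 2)) / 2) ≤ 1 := by
        apply Finset.prod_le_one
        · intro j _
          have := htp (s / (j + 2))
          positivity
        · intro j _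
          have := ht0 (s / (j + 2))
          linarith
      have h6 : 0 ≤ ∏ j ∈ Finset.range T.card, (t (s / (j + 2)) / 2) :=
        Finset.prod_nonneg fun j _ => by
          have := htp (s / (j + 2))
          positivity
      calc _ ≤ 1 * ∏ j ∈ Finset.range T.card, (t (s / (j + 2)) / 2) :=
            mul_le_mul_of_nonneg_right h5 h6
        _ = _ := by rw [one_mul]
    have h7 := hts s hs1
    have h8 : κ * (δ / 2) ^ k * ∏ j ∈ Finset.range k, (t (s / (j + 2)) / 2) ≤
        κ * (δ / 2) ^ k * ∏ i ∈ T, ‖χ (F^[i] y) - χ y‖ :=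
      mul_le_mul_of_nonneg_left (h4.trans h3) (by positivity)
    linarith

/-- explicit form of the law -/
theorem law_exp (h : NCZ F χ k κ) (hk : 2 ≤ k) (hκ : 0 < κ) (hκ1 : κ ≤ 1) (p : ℝ) (hp : Adm k p) :
    ∃ C : ℝ, 0 < C ∧ ∀ δ : ℝ, 0 < δ → δ ≤ κ → ∀ (s : ℕ) (y : N) (m : ℕ), 1 ≤ s → 1 ≤ m →
      y ∈ χ.source → F^[m] y ∈ χ.source → ‖χ y‖ < κ / 2 → ‖χ (F^[m] y)‖ < κ / 2 →
      cnt F (BalAt χ y δ) (F y) m ≤ s →
      Real.exp (-(C * (1 + Real.log (1 / δ)) * (s : ℝ) ^ p)) ≤ ‖χ (F^[m] y) - χ y‖ := by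
  have hkR : (2 : ℝ) ≤ k := by exact_mod_cast hk
  have hl2 : 0 ≤ Real.log 2 := Real.log_nonneg (by norm_num)
  have hl8 : 0 ≤ Real.log 8 := Real.log_nonneg (by norm_num)
  have hlκ : 0 ≤ Real.log (1 / κ) := Real.log_nonneg (by rw [le_div_iff₀ hκ]; linarith)
  obtain ⟨C₁, hC₁⟩ : ∃ C₁ : ℝ, C₁ = Real.log (1 / κ) + 2 * k * Real.log 2 + k + Real.log 8 := ⟨_, rfl⟩
  have hC₁0 : 0 ≤ C₁ := by rw [hC₁]; positivity
  obtain ⟨g, C₂, hC₂, hg0, hg1, hg2, hg3⟩ := exists_g k hk p hp C₁ hC₁0
  refine ⟨C₂, hC₂, ?_⟩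
  intro δ hδ hδκ s y m hs hm hy hmy hyn hmyn hcnt
  have hδ1 : δ ≤ 1 := hδκ.trans hκ1
  have hlδ : 0 ≤ Real.log (1 / δ) := Real.log_nonneg (by rw [le_div_iff₀ hδ]; linarith)
  obtain ⟨Λ, hΛ⟩ : ∃ Λ : ℝ, Λ = 1 + Real.log (1 / δ) := ⟨_, rfl⟩
  have hΛ1 : 1 ≤ Λ := by rw [hΛ]; linarith
  have hg0' : ∀ s, 0 ≤ g s := fun s => hC₁0.trans (hg1 s)
  obtain ⟨t, ht⟩ : ∃ t : ℕ → ℝ, t = fun s => Real.exp (-(Λ * g s)) := ⟨_, rfl⟩
  have htp : ∀ s, 0 < t s := fun s => by rw [ht]; exact Real.exp_pos _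
  have ht8 : ∀ s, t s ≤ δ / 8 := by
    intro s
    rw [ht]
    have h1 : δ / 8 = Real.exp (-(Real.log (1 / δ) + Real.log 8)) := by
      rw [neg_add, Real.exp_add, Real.exp_neg, Real.exp_neg, Real.exp_log (by positivity),
        Real.exp_log (by norm_num)]
      field_simp
    rw [h1]
    apply Real.exp_le_exp.mpr
    have h2 := hg1 s
    have h3 : Λ * C₁ ≤ Λ * g s := mul_le_mul_of_nonneg_left h2 (by linarith)
    have h4 : Real.log (1 / δ) + Real.log 8 ≤ Λ * C₁ := by
      rw [hΛ]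
      have h5 : 1 ≤ C₁ := by
        rw [hC₁]
        have : 0 ≤ 2 * (k : ℝ) * Real.log 2 := by positivity
        linarith
      have h6 : Real.log 8 ≤ C₁ := by
        rw [hC₁]
        have : 0 ≤ 2 * (k : ℝ) * Real.log 2 := by positivity
        linarith
      nlinarith
    linarith
  have hprod : ∀ s, 1 ≤ s → t s ≤ κ * (δ / 2) ^ k * ∏ j ∈ Finset.range k, (t (s / (j + 2)) / 2) := by
    intro s hs
    have h1 : κ * (δ / 2) ^ k * ∏ j ∈ Finset.range k, (t (s / (j + 2)) / 2) =
        Real.exp (-(Real.log (1 / κ) + k * (Real.log (1 / δ) + Real.log 2) + k * Real.log 2 +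
          Λ * ∑ j ∈ Finset.range k, g (s / (j + 2)))) := by
      have e1 : κ = Real.exp (-Real.log (1 / κ)) := by
        rw [Real.exp_neg, Real.exp_log (by positivity)]
        field_simp
      have e2 : (δ / 2) ^ k = Real.exp (-(k * (Real.log (1 / δ) + Real.log 2))) := by
        have : δ / 2 = Real.exp (-(Real.log (1 / δ) + Real.log 2)) := by
          rw [neg_add, Real.exp_add, Real.exp_neg, Real.exp_neg, Real.exp_log (by positivity),
            Real.exp_log (by norm_num)]
          field_simp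
        rw [this, ← Real.exp_nat_mul]
        ring_nf
      have e3 : ∏ j ∈ Finset.range k, (t (s / (j + 2)) / 2) =
          Real.exp (-(k * Real.log 2 + Λ * ∑ j ∈ Finset.range k, g (s / (j + 2)))) := by
        have e4 : ∀ j, t (s / (j + 2)) / 2 = Real.exp (-(Λ * g (s / (j + 2))) - Real.log 2) := by
          intro j
          rw [Real.exp_sub, Real.exp_log (by norm_num), ht]
        simp only [e4]
        rw [← Real.exp_sum, Finset.sum_sub_distrib, Finset.sum_neg_distrib, ← Finset.mul_sum,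
          Finset.sum_const, Finset.card_range, nsmul_eq_mul]
        congr 1
        ring
      rw [e3, e2]
      conv_lhs => rw [e1]
      rw [← Real.exp_add, ← Real.exp_add]
      congr 1
      ring
    rw [h1, ht]
    apply Real.exp_le_exp.mpr
    apply neg_le_neg
    have h2 := mul_le_mul_of_nonneg_left (hg3 s hs) (by linarith : (0 : ℝ) ≤ Λ)
    have h3 : Real.log (1 / κ) + k * (Real.log (1 / δ) + Real.log 2) + k * Real.log 2 ≤ Λ * C₁ := by
      rw [hΛ]
      have h4 : (k : ℝ) ≤ C₁ := by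
        rw [hC₁]
        have : 0 ≤ 2 * (k : ℝ) * Real.log 2 := by positivity
        linarith
      have h5 : (k : ℝ) * Real.log (1 / δ) ≤ C₁ * Real.log (1 / δ) :=
        mul_le_mul_of_nonneg_right h4 hlδ
      have h6 : Real.log (1 / κ) + 2 * k * Real.log 2 ≤ C₁ := by
        rw [hC₁]
        linarith
      nlinarith
    nlinarith
  have hmon : ∀ s, 1 ≤ s → ∀ j < k, t s ≤ t (s / (j + 2)) / 2 := by
    intro s hs j hj
    refine (hprod s hs).trans ?_
    rw [← Finset.mul_prod_erase (Finset.range k) _ (Finset.mem_range.mpr hj)]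
    have h1 : ∏ i ∈ (Finset.range k).erase j, (t (s / (i + 2)) / 2) ≤ 1 := by
      apply Finset.prod_le_one
      · intro i _
        have := htp (s / (i + 2))
        positivity
      · intro i _
        have := ht8 (s / (i + 2))
        linarith
    have h1' : 0 ≤ ∏ i ∈ (Finset.range k).erase j, (t (s / (i + 2)) / 2) :=
      Finset.prod_nonneg fun i _ => by
        have := htp (s / (i + 2))
        positivity
    have h2 : κ * (δ / 2) ^ k ≤ 1 := by
      have : (δ / 2) ^ k ≤ 1 := pow_le_one₀ (by positivity) (by linarith)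
      nlinarith [show (0 : ℝ) < (δ / 2) ^ k by positivity]
    have h3 : 0 < t (s / (j + 2)) / 2 := by have := htp (s / (j + 2)); positivity
    calc κ * (δ / 2) ^ k * (t (s / (j + 2)) / 2 * ∏ i ∈ (Finset.range k).erase j, (t (s / (i + 2)) / 2))
        ≤ 1 * (t (s / (j + 2)) / 2 * 1) := by
          apply mul_le_mul h2 _ (by positivity) (by norm_num)
          exact mul_le_mul_of_nonneg_left h1 h3.le
      _ = _ := by ring
  have hts := htp s
  have hfin := law h (by omega) hκ hκ1 δ hδ hδκ t htp ht8 hmon hprod s y m hm hy hmy (by linarith)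
    (by linarith) (by
      refine le_trans (cnt_mono F ?_ _ _) hcnt
      intro u hu
      refine ⟨hu.1, ?_⟩
      have := hu.2
      linarith)
  refine le_trans ?_ hfin
  rw [ht]
  apply Real.exp_le_exp.mpr
  apply neg_le_neg
  have h9 := mul_le_mul_of_nonneg_left (hg2 s hs) (by linarith : (0 : ℝ) ≤ Λ)
  rw [← hΛ]
  calc Λ * g s ≤ Λ * (C₂ * (s : ℝ) ^ p) := h9
    _ = C₂ * Λ * (s : ℝ) ^ p := by ring

end

end Pool.Agent.U882.FW
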