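import Pool.Agent.U882.FW.Ann

/-!
# Many relative nonwandering points
-/

set_option autoImplicit false

open Filter Set Metric Topology

namespace Pool.Agent.U882.FW

open Pool.Agent.H718R2.G

section

variable {n : ℕ} {N : Type*} [TopologicalSpace N] {F : N → N}
  {χ : OpenPartialHomeomorph N (V n)} {k : ℕ} {κ : ℝ}

theorem meetsAnnuli (hNC : NC F χ k κ) (hk : 1 ≤ k) (hκ0 : 0 < κ) (hκ1 : κ ≤ 1 / 8)
    (hball : closedBall (0 : V n) 1 ⊆ χ.target) :
    ∃ C : ℝ, 0 < C ∧ ∀ C', C ≤ C' → MeetsAnnuli F χ k C' (κ / 4) := by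
  refine ⟨8 / κ ^ (k + 1) + 1 + 8 / κ, by positivity, ?_⟩
  intro C hC K hKc hK w hw hwN a ha haC
  have hκ1' : κ ≤ 1 := by linarith
  have hCpos : 0 < C := lt_of_lt_of_le (by positivity) hC
  have hk1 : 0 < κ ^ (k + 1) := by positivity
  have hkk : κ ^ (k + 1) ≤ κ := by
    calc κ ^ (k + 1) ≤ κ ^ 1 := pow_le_pow_of_le_one hκ0.le hκ1' (by omega)
      _ = κ := pow_one _
  have ha1 : a * C ≤ 1 := by rwa [le_div_iff₀ hCpos] at haC
  have ha2 : a ≤ κ ^ (k + 1) / 8 := by
    have h1 : a * (8 / κ ^ (k + 1)) ≤ 1 := by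
      refine le_trans (mul_le_mul_of_nonneg_left ?_ ha.le) ha1
      have : 0 < 8 / κ := by positivity
      linarith
    rw [mul_div_assoc', div_le_one hk1] at h1
    linarith
  have ha3 : a ≤ 1 := by linarith
  have hkR : (0 : ℝ) < k := by exact_mod_cast hk
  have hkR1 : (1 : ℝ) ≤ k := by exact_mod_cast hk
  obtain ⟨ρ, hρ⟩ : ∃ ρ : ℝ, ρ = (4 * a / κ) ^ ((1 : ℝ) / k) := ⟨_, rfl⟩
  have hb : 0 < 4 * a / κ := by positivity
  have hρ0 : 0 < ρ := by rw [hρ]; positivity
  have hρk : ρ ^ k = 4 * a / κ := by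
    rw [hρ, ← Real.rpow_natCast, ← Real.rpow_mul hb.le, one_div, inv_mul_cancel₀ hkR.ne',
      Real.rpow_one]
  have hρκ : ρ < κ := by
    by_contra hcon
    push Not at hcon
    have h1 : κ ^ k ≤ ρ ^ k := pow_le_pow_left₀ hκ0.le hcon k
    rw [hρk, le_div_iff₀ hκ0, ← pow_succ] at h1
    linarith
  have hinv : (1 : ℝ) / k ≤ 1 := by
    rw [div_le_one hkR]
    exact hkR1
  have hinv0 : (0 : ℝ) ≤ 1 / k := by positivity
  have hρ2 : ρ ≤ 4 / κ * a ^ ((1 : ℝ) / k) := by
    have e : 4 * a / κ = 4 / κ * a := by ring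
    rw [hρ, e, Real.mul_rpow (by positivity) ha.le]
    apply mul_le_mul_of_nonneg_right _ (by positivity)
    have h4 : 1 ≤ 4 / κ := by
      rw [le_div_iff₀ hκ0]
      linarith
    calc (4 / κ) ^ ((1 : ℝ) / k) ≤ (4 / κ) ^ (1 : ℝ) := Real.rpow_le_rpow_of_exponent_le h4 hinv
      _ = 4 / κ := Real.rpow_one _
  have ha4 : a ≤ a ^ ((1 : ℝ) / k) := by
    calc a = a ^ (1 : ℝ) := (Real.rpow_one a).symm
      _ ≤ a ^ ((1 : ℝ) / k) := Real.rpow_le_rpow_of_exponent_ge ha ha3 hinv
  obtain ⟨u, hu1, hu2, hu3, hu4⟩ := annuli1 hNC hk hκ0 hκ1 hball hKc hK w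
    ⟨hw.1, hw.2.trans (by linarith)⟩ hwN a ρ ha (by linarith) hρ0 hρκ
    (by rw [hρk, mul_div_cancel₀ _ hκ0.ne']; linarith)
  refine ⟨u, hu1, hu2, hu3, hu4.trans ?_⟩
  have h5 : (1 + 8 / κ) * a ^ ((1 : ℝ) / k) ≤ C * a ^ ((1 : ℝ) / k) := by
    apply mul_le_mul_of_nonneg_right _ (by positivity)
    have : 0 < 8 / κ ^ (k + 1) := by positivity
    linarith
  refine le_trans ?_ h5
  have e2 : (1 + 8 / κ) * a ^ ((1 : ℝ) / k) =
      a ^ ((1 : ℝ) / k) + 2 * (4 / κ * a ^ ((1 : ℝ) / k)) := by ring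
  rw [e2]
  linarith

theorem manyPoints (hNC : NC F χ k κ) (hk : 2 ≤ k) (hκ0 : 0 < κ) (hκ1 : κ ≤ 1 / 8)
    (hball : closedBall (0 : V n) 1 ⊆ χ.target) :
    ∃ C : ℝ, 0 < C ∧ ∀ C', C ≤ C' → ManyPoints F χ k C' (κ / 4) := by
  classical
  obtain ⟨p, hp0, hps⟩ : ∃ p : ℕ → ℝ, p 0 = κ / 4 ∧ ∀ l, p (l + 1) = κ / 4 * (p l / 16) ^ k :=
    ⟨fun l => Nat.rec (κ / 4) (fun _ x => κ / 4 * (x / 16) ^ k) l, rfl, fun _ => rfl⟩
  have hpp : ∀ l, 0 < p l := by
    intro l
    induction l with
    | zero => rw [hp0]; positivity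
    | succ l ih => rw [hps]; positivity
  have hstep : ∀ l, p l ≤ κ / 4 → p (l + 1) ≤ p l / 64 := by
    intro l hl
    rw [hps]
    have hpl := hpp l
    have : (p l / 16) ^ k ≤ p l / 16 := by
      calc (p l / 16) ^ k ≤ (p l / 16) ^ 1 :=
            pow_le_pow_of_le_one (by positivity) (by linarith) (by omega)
        _ = p l / 16 := pow_one _
    nlinarith
  have hle : ∀ l, p l ≤ κ / 4 := by
    intro l
    induction l with
    | zero => rw [hp0]
    | succ l ih =>
      have := hstep l ih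
      have := hpp l
      linarith
  have hsum : ∀ l, ∑ j ∈ Finset.range l, p j ≤ κ / 2 - 2 * p l := by
    intro l
    induction l with
    | zero => simp [hp0]; linarith
    | succ l ih =>
      rw [Finset.sum_range_succ]
      have := hstep l (hle l)
      have := hpp l
      linarith
  obtain ⟨C, hC0, hC⟩ := seq_lb k hk (κ / 4) 16 (by positivity) (by norm_num) p (hpp 0) hps
  refine ⟨C, hC0, fun C' hC' K hKc hK w hw hwN l => ?_⟩
  have key : ∀ l, ∃ S : Finset N, S.card = 2 ^ l ∧ w ∈ S ∧ (∀ u ∈ S, u ∈ χ.source ∧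
      ‖χ u‖ < κ / 4 + (∑ j ∈ Finset.range l, p j) / 4 ∧ NonWandIn F K u) ∧
      ∀ u ∈ S, ∀ v ∈ S, u ≠ v → p l ≤ ‖χ u - χ v‖ := by
    intro l
    induction l with
    | zero =>
      refine ⟨{w}, by simp, by simp, ?_, ?_⟩
      · intro u hu
        rw [Finset.mem_singleton] at hu
        subst hu
        exact ⟨hw.1, by simpa using hw.2, hwN⟩
      · intro u hu v hv huv
        rw [Finset.mem_singleton] at hu hv
        exact absurd (hu.trans hv.symm) huv
    | succ l ih =>
      obtain ⟨S, hcard, hwS, hS, hsep⟩ := ih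
      have hpl := hpp l
      have hpl1 := hpp (l + 1)
      have hst := hstep l (hle l)
      have hll := hle l
      have hsl := hsum l
      have h1 : ∀ u ∈ S, ∃ u', NonWandIn F K u' ∧ u' ∈ χ.source ∧ p (l + 1) ≤ ‖χ u' - χ u‖ ∧
          ‖χ u' - χ u‖ ≤ p l / 4 := by
        intro u hu
        obtain ⟨h2, h3, h4⟩ := hS u hu
        obtain ⟨u', a1, a2, a3, a4⟩ := annuli1 hNC (by omega) hκ0 hκ1 hball hKc hK u
          ⟨h2, by linarith⟩ h4 (p (l + 1)) (p l / 16) hpl1 (by linarith) (by positivity)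
          (by linarith) (by
            rw [hps]
            have : 0 < (p l / 16) ^ k := by positivity
            nlinarith)
        exact ⟨u', a1, a2, a3, by linarith⟩
      choose! g g1 g2 g3 g4 using h1
      have hgg : ∀ u ∈ S, ∀ v ∈ S, u ≠ v → p l / 2 ≤ ‖χ (g u) - χ (g v)‖ := by
        intro u hu v hv huv
        have h5 := hsep u hu v hv huv
        have h6 := tri (χ u) (χ (g u)) (χ v)
        have h7 := tri (χ (g u)) (χ (g v)) (χ v)
        have h8 := g4 u hu
        have h9 := g4 v hv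
        rw [norm_sub_rev] at h8
        linarith
      have hug : ∀ u ∈ S, ∀ v ∈ S, p (l + 1) ≤ ‖χ u - χ (g v)‖ := by
        intro u hu v hv
        by_cases huv : u = v
        · subst huv
          rw [norm_sub_rev]
          exact g3 u hu
        · have h5 := hsep u hu v hv huv
          have h6 := tri (χ u) (χ (g v)) (χ v)
          have h9 := g4 v hv
          linarith
      have hdisj : Disjoint S (S.image g) := by
        rw [Finset.disjoint_left]
        intro u hu hu2
        obtain ⟨v, hv, rfl⟩ := Finset.mem_image.mp hu2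
        have := hug (g v) hu v hv
        rw [sub_self, norm_zero] at this
        linarith
      have hinj : Set.InjOn g S := by
        intro u hu v hv huv
        by_contra hne
        have := hgg u hu v hv hne
        rw [huv, sub_self, norm_zero] at this
        linarith
      refine ⟨S ∪ S.image g, ?_, Finset.mem_union_left _ hwS, ?_, ?_⟩
      · rw [Finset.card_union_of_disjoint hdisj, Finset.card_image_of_injOn hinj, hcard]
        ring
      · intro u hu
        rw [Finset.sum_range_succ]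
        rcases Finset.mem_union.mp hu with hu | hu
        · obtain ⟨h2, h3, h4⟩ := hS u hu
          exact ⟨h2, by linarith, h4⟩
        · obtain ⟨v, hv, rfl⟩ := Finset.mem_image.mp hu
          obtain ⟨h2, h3, h4⟩ := hS v hv
          refine ⟨g2 v hv, ?_, g1 v hv⟩
          have := nrm (χ (g v)) (χ v)
          have := g4 v hv
          linarith
      · intro u hu v hv huv
        rcases Finset.mem_union.mp hu with hu | hu <;> rcases Finset.mem_union.mp hv with hv | hv
        · have := hsep u hu v hv huv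
          linarith
        · obtain ⟨v', hv', rfl⟩ := Finset.mem_image.mp hv
          exact hug u hu v' hv'
        · obtain ⟨u', hu', rfl⟩ := Finset.mem_image.mp hu
          rw [norm_sub_rev]
          exact hug v hv u' hu'
        · obtain ⟨v', hv', rfl⟩ := Finset.mem_image.mp hv
          obtain ⟨u', hu', rfl⟩ := Finset.mem_image.mp hu
          have := hgg u' hu' v' hv' (fun h => huv (by rw [h]))
          linarith
  obtain ⟨S, h1, h2, h3, h4⟩ := key l
  refine ⟨S, h1, h2, ?_, ?_⟩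
  · intro u hu
    obtain ⟨h5, h6, h7⟩ := h3 u hu
    refine ⟨⟨h5, ?_⟩, h7⟩
    have := hsum l
    have := hpp l
    linarith
  · intro u hu v hv huv
    exact (hC C' hC' l).trans (h4 u hu v hv huv)

end

end Pool.Agent.U882.FW
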