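import Pool.Agent.U882.FW.Cover
import Pool.Agent.U882.FW.Many
import Pool.Agent.U882.FW.CLZ
import Pool.Agent.U882.FW.AdmZ
import Pool.Agent.Y368.GG.Main

/-!
# Points which cannot be closed: few fast returns, and large nonwandering sets
-/

set_option autoImplicit false

open scoped Manifold ContDiff Topology
open Filter Set Metric

universe u

namespace Pool.Agent.U882.FW

open Pool.Agent.H718R2.G Pool.Agent.W564.SC

section

variable {n : ℕ} {N : Type u} [TopologicalSpace N]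

/-- The laws satisfied by the returns, and by the nonwandering sets of all restrictions of `F`, in the
ball `‖χ‖ < ρ` (orders `2 ≤ k ≤ r`). -/
structure Laws (r : ℕ∞) (F : N → N) (χ : OpenPartialHomeomorph N (V n)) (k : ℕ) (ρ : ℝ) : Prop where
  two_le : 2 ≤ k
  le : (k : ℕ∞) ≤ r
  pos : 0 < ρ
  product : ProductLaw F χ k ρ
  visits : VisitsLaw F χ k ρ
  cover : CoverLaw F χ k ρ
  annuli : ∃ C : ℝ, 0 < C ∧ MeetsAnnuli F χ k C ρ

theorem ncz_of_not_closable [T2Space N] [CompactSpace N]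
    [ChartedSpace (V n) N] [IsManifold (𝓡 n) ∞ N] {r : ℕ∞} (hr : 2 ≤ r) (F : DiffM n N r) (z : N)
    (χ : OpenPartialHomeomorph N (V n)) (hχ : GoodChart n N χ z) (hz : ¬ Closable n N r F z) :
    ∃ (k : ℕ) (κ : ℝ), 2 ≤ k ∧ (k : ℕ∞) ≤ r ∧ 0 < κ ∧ κ ≤ 1 / 8 ∧ NCZ F χ k κ := by
  unfold Closable at hz
  push Not at hz
  obtain ⟨U, hU, hFU, hno⟩ := hz
  obtain ⟨k, hk2, hk, κ, hκ, h⟩ := clZ n N r hr F χ z hχ U hU hFU
  have hNC : NCZ F χ k κ := by
    intro y ρ m T hy hyκ hρ hρκ hm hTk hT hmy hd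
    by_contra hcon
    push Not at hcon
    obtain ⟨G, hG, hGz⟩ := h y ρ m T hy hyκ hρ hρκ hm hTk hT hmy hd
      (fun i h1 h2 h3 h4 => hcon i h1 h2 h3 h4)
    exact hno G hG hGz
  exact ⟨k, min κ (1 / 8), hk2, hk, by positivity, min_le_right _ _, hNC.mono (min_le_left _ _)⟩

variable {F : N → N} {χ : OpenPartialHomeomorph N (V n)} {k : ℕ} {κ : ℝ}

theorem productLaw (h : NCZ F χ k κ) (hk : 2 ≤ k) (hκ : 0 < κ) (hκ1 : κ ≤ 1 / 8) :
    ProductLaw F χ k (κ / 8) := by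
  refine ⟨κ * (1 / 2) ^ k, by positivity, ?_⟩
  intro y m R hm hy hmy hR hRκ
  obtain ⟨T, hT, h1, h2⟩ := h.star' (by omega) hκ R hR (by linarith)
    y hy.1 (by have := hy.2; linarith) m hm hmy.1
  refine ⟨T, hT, fun i hi => ?_, le_trans ?_ h2⟩
  · obtain ⟨a1, a2, a3, a4⟩ := h1 i hi
    exact ⟨a1, a2, a3, a4⟩
  · apply mul_le_mul_of_nonneg_right _ (Finset.prod_nonneg fun i _ => norm_nonneg _)
    rw [mul_assoc]
    apply mul_le_mul_of_nonneg_left _ hκ.le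
    have e : R / 2 = 1 / 2 * R := by ring
    rw [e, mul_pow]
    apply mul_le_mul_of_nonneg_right _ (by positivity)
    exact pow_le_pow_of_le_one (by norm_num) (by norm_num) (by omega)

theorem visitsLaw (h : NCZ F χ k κ) (hk : 2 ≤ k) (hκ : 0 < κ) (hκ1 : κ ≤ 1 / 8) :
    VisitsLaw F χ k (κ / 8) := by
  intro p hp
  obtain ⟨C, hC, hlaw⟩ := law_exp h hk hκ (by linarith) p hp
  refine ⟨C, hC, ?_⟩
  intro y m R hm hy hmy hR hRκ
  have hle : cnt F (BalAt χ y R) (F y) m ≤ max 1 (visits F (BalAt χ y R) y m) := by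
    have hv : visits F (BalAt χ y R) y m = cnt F (BalAt χ y R) (F y) m := cnt_visits F _ y m
    rw [hv]
    exact le_max_right _ _
  exact hlaw R hR (by linarith) _ y m (le_max_left _ _) hm hy.1 hmy.1
    (by have := hy.2; linarith) (by have := hmy.2; linarith) hle

theorem laws_of_ncz {r : ℕ∞} (h : NCZ F χ k κ) (hk : 2 ≤ k) (hkr : (k : ℕ∞) ≤ r) (hκ : 0 < κ)
    (hκ1 : κ ≤ 1 / 8) (hball : closedBall (0 : V n) 1 ⊆ χ.target) : Laws r F χ k (κ / 8) where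
  two_le := hk
  le := hkr
  pos := by positivity
  product := productLaw h hk hκ hκ1
  visits := visitsLaw h hk hκ hκ1
  cover := coverLaw h hk hκ hκ1 hball
  annuli := by
    obtain ⟨C, hC, hM⟩ := meetsAnnuli h.nc (by omega) hκ hκ1 hball
    refine ⟨C, hC, ?_⟩
    intro K hK1 hK2 w hw hwN a ha haC
    exact hM C le_rfl K hK1 hK2 w ⟨hw.1, by have := hw.2; linarith⟩ hwN a ha haC

theorem laws_of_ncz_all {r : ℕ∞} (h : NCZ F χ k κ) (hk : 2 ≤ k) (hkr : (k : ℕ∞) ≤ r) (hκ : 0 < κ)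
    (hκ1 : κ ≤ 1 / 8) (hball : closedBall (0 : V n) 1 ⊆ χ.target) :
    ∃ (k : ℕ) (ρ₀ : ℝ), 2 ≤ k ∧ (k : ℕ∞) ≤ r ∧ 0 < ρ₀ ∧ ∀ ρ, 0 < ρ → ρ ≤ ρ₀ → Laws r F χ k ρ := by
  refine ⟨k, κ / 8, hk, hkr, by positivity, fun ρ hρ hρκ => ?_⟩
  have h1 := laws_of_ncz (r := r) (h.mono (κ' := 8 * ρ) (by linarith)) hk hkr (by positivity)
    (by linarith) hball
  have e : 8 * ρ / 8 = ρ := by ring
  rwa [e] at h1

/-- Every point `z` can be closed, or the laws hold near `z`. -/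
theorem laws_of_not_closable [T2Space N] [CompactSpace N]
    [ChartedSpace (V n) N] [IsManifold (𝓡 n) ∞ N] {r : ℕ∞} (hr : 2 ≤ r) (F : DiffM n N r) (z : N)
    (χ : OpenPartialHomeomorph N (V n)) (hχ : GoodChart n N χ z) (hz : ¬ Closable n N r F z) :
    ∃ (k : ℕ) (ρ₀ : ℝ), 2 ≤ k ∧ (k : ℕ∞) ≤ r ∧ 0 < ρ₀ ∧ ∀ ρ, 0 < ρ → ρ ≤ ρ₀ → Laws r F χ k ρ := by
  obtain ⟨k, κ, hk, hkr, hκ, hκ1, h⟩ := ncz_of_not_closable hr F z χ hχ hz
  refine ⟨k, κ / 8, hk, hkr, by positivity, fun ρ hρ hρκ => ?_⟩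
  have h1 := laws_of_ncz (r := r) (h.mono (κ' := 8 * ρ) (by linarith)) hk hkr (by positivity)
    (by linarith) hχ.ball
  have e : 8 * ρ / 8 = ρ := by ring
  rwa [e] at h1

/-- `χ` is continuous: a point outside a closed set has a ball outside it. -/
theorem exists_ball_disjoint {z : N} (hz : z ∈ χ.source) (h0 : χ z = 0)
    (hb : closedBall (0 : V n) 1 ⊆ χ.target) (A : Set N) (hA : IsClosed A) (hzA : z ∉ A) :
    ∃ ρ : ℝ, 0 < ρ ∧ Disjoint (Bal χ (2 * ρ)) A := by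
  have h1 : ∀ᶠ v in 𝓝 (0 : V n), χ.symm v ∉ A := by
    have hc : ContinuousAt χ.symm (0 : V n) := by
      apply χ.symm.continuousAt
      exact hb (mem_closedBall_self zero_le_one)
    have hz' : χ.symm 0 = z := by rw [← h0, χ.left_inv hz]
    have h2 : Aᶜ ∈ 𝓝 (χ.symm 0) := by
      rw [hz']
      exact hA.isOpen_compl.mem_nhds hzA
    exact hc h2
  obtain ⟨ε, hε, h2⟩ := Metric.eventually_nhds_iff_ball.mp h1
  refine ⟨ε / 2, by positivity, ?_⟩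
  rw [Set.disjoint_left]
  rintro y ⟨hy1, hy2⟩ hyA
  have h3 := h2 (χ y) (by rw [mem_ball_zero_iff]; linarith)
  rw [χ.left_inv hy1] at h3
  exact h3 hyA

end

end Pool.Agent.U882.FW
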