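import Mathlib

/-!
# Elementary lemmas: rapidly decreasing sequences, counting visits
-/

set_option autoImplicit false

open Filter Set Metric Topology

namespace Pool.Agent.U882.FW

/-- A sequence with `t (l+1) = A (t l / B)^k`, `k ≥ 2`, is bounded below by `exp (- C k^l)`. -/
theorem seq_lb (k : ℕ) (hk : 2 ≤ k) (A B : ℝ) (hA : 0 < A) (hB : 0 < B) (t : ℕ → ℝ)
    (h0 : 0 < t 0) (hs : ∀ l, t (l + 1) = A * (t l / B) ^ k) :
    ∃ C : ℝ, 0 < C ∧ ∀ C' : ℝ, C ≤ C' → ∀ l, Real.exp (-(C' * (k : ℝ) ^ l)) ≤ t l := by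
  have hpos : ∀ l, 0 < t l := by
    intro l
    induction l with
    | zero => exact h0
    | succ l ih => rw [hs]; positivity
  obtain ⟨c, hc0, hc⟩ : ∃ c : ℝ, 0 ≤ c ∧ k * Real.log B - Real.log A ≤ c :=
    ⟨max 0 (k * Real.log B - Real.log A), le_max_left _ _, le_max_right _ _⟩
  obtain ⟨L, hL0, hL⟩ : ∃ L : ℝ, 0 < L ∧ -Real.log (t 0) ≤ L :=
    ⟨max 1 (-Real.log (t 0)), lt_of_lt_of_le one_pos (le_max_left _ _), le_max_right _ _⟩
  have hk' : (2 : ℝ) ≤ k := by exact_mod_cast hk
  have key : ∀ l, -Real.log (t l) ≤ (L + c) * (k : ℝ) ^ l - c := by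
    intro l
    induction l with
    | zero => simp; linarith
    | succ l ih =>
      have h1 : Real.log (t (l + 1)) = Real.log A + k * (Real.log (t l) - Real.log B) := by
        rw [hs, Real.log_mul hA.ne' (by have := hpos l; positivity), Real.log_pow,
          Real.log_div (hpos l).ne' hB.ne']
      rw [h1, pow_succ]
      have h2 : (k : ℝ) * (-Real.log (t l)) ≤ k * ((L + c) * (k : ℝ) ^ l - c) :=
        mul_le_mul_of_nonneg_left ih (by positivity)
      nlinarith
  refine ⟨L + c, by positivity, fun C' hC' l => ?_⟩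
  have h3 : Real.exp (-(C' * (k : ℝ) ^ l)) ≤ Real.exp (Real.log (t l)) := by
    apply Real.exp_le_exp.mpr
    have h4 : (L + c) * (k : ℝ) ^ l ≤ C' * (k : ℝ) ^ l :=
      mul_le_mul_of_nonneg_right hC' (by positivity)
    have := key l
    linarith
  rwa [Real.exp_log (hpos l)] at h3

section cnt

variable {N : Type*}

open Classical in
/-- The number of `0 ≤ i < m` with `F^i y ∈ P`. -/
noncomputable def cnt (F : N → N) (P : Set N) (y : N) (m : ℕ) : ℕ :=
  ((Finset.range m).filter fun i => F^[i] y ∈ P).card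

open Classical in
theorem cnt_eq_sum (F : N → N) (P : Set N) (y : N) (m : ℕ) :
    cnt F P y m = ∑ i ∈ Finset.range m, if F^[i] y ∈ P then 1 else 0 := by
  unfold cnt
  rw [Finset.card_filter]

theorem cnt_add (F : N → N) (P : Set N) (y : N) (i j : ℕ) :
    cnt F P y (i + j) = cnt F P y i + cnt F P (F^[i] y) j := by
  classical
  rw [cnt_eq_sum, cnt_eq_sum, cnt_eq_sum, Finset.sum_range_add]
  congr 1
  apply Finset.sum_congr rfl
  intro x _
  rw [← Function.iterate_add_apply, Nat.add_comm x i]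

theorem cnt_pos (F : N → N) (P : Set N) (y : N) (m i : ℕ) (hi : i < m) (h : F^[i] y ∈ P) :
    1 ≤ cnt F P y m := by
  classical
  unfold cnt
  exact Finset.card_pos.mpr ⟨i, Finset.mem_filter.mpr ⟨Finset.mem_range.mpr hi, h⟩⟩

/-- visits at the times `1, …, m` -/
theorem cnt_visits (F : N → N) (P : Set N) (y : N) (m : ℕ) :
    Set.ncard {i : ℕ | 1 ≤ i ∧ i ≤ m ∧ F^[i] y ∈ P} = cnt F P (F y) m := by
  classical
  unfold cnt
  have h : {i : ℕ | 1 ≤ i ∧ i ≤ m ∧ F^[i] y ∈ P} =
      (fun i => i + 1) '' (((Finset.range m).filter fun i => F^[i] (F y) ∈ P : Finset ℕ) : Set ℕ) := by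
    ext i
    simp only [Set.mem_setOf_eq, Set.mem_image, Finset.coe_filter, Finset.mem_range]
    constructor
    · rintro ⟨h1, h2, h3⟩
      refine ⟨i - 1, ⟨by omega, ?_⟩, by omega⟩
      rw [← Function.iterate_succ_apply]
      rwa [show (i - 1).succ = i by omega]
    · rintro ⟨j, ⟨h1, h2⟩, rfl⟩
      refine ⟨by omega, by omega, ?_⟩
      rw [← Function.iterate_succ_apply] at h2
      exact h2
  rw [h, Set.ncard_image_of_injective _ (add_left_injective 1), Set.ncard_coe_finset]

end cnt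

end Pool.Agent.U882.FW
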