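import Pool.Agent.U882.FW.DefsZ
import Pool.Agent.U882.FW.Ann

/-!
# The product law
-/

set_option autoImplicit false

open Filter Set Metric Topology

namespace Pool.Agent.U882.FW

open Pool.Agent.H718R2.G

section

variable {n : ℕ} {N : Type*} [TopologicalSpace N] {F : N → N}
  {χ : OpenPartialHomeomorph N (V n)} {k : ℕ} {κ : ℝ}

theorem NCZ.nc (h : NCZ F χ k κ) : NC F χ k κ := by
  intro y ρ m hy hyκ hρ hρκ hm hmy hd
  obtain ⟨i, h1, h2, -, h3, h4⟩ := h y ρ m ∅ hy hyκ hρ hρκ hm (by simp) (by simp) hmy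
    (by simpa using hd)
  exact ⟨i, h1, h2, h3, h4⟩

theorem NCZ.mono {κ' : ℝ} (h : NCZ F χ k κ) (hκ : κ' ≤ κ) : NCZ F χ k κ' := by
  intro y ρ m T hy hyκ hρ hρκ hm hTk hT hmy hd
  refine h y ρ m T hy (hyκ.trans_le hκ) hρ (hρκ.trans_le hκ) hm hTk hT hmy (hd.trans_le ?_)
  exact mul_le_mul_of_nonneg_right hκ (by positivity)

/-- there are no periodic points -/
theorem NC.not_per (h : NC F χ k κ) (hκ : 0 < κ) (y : N) (hy : y ∈ χ.source) (hyκ : ‖χ y‖ < κ) :
    ∀ m, 1 ≤ m → F^[m] y ≠ y := by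
  intro m
  induction m using Nat.strong_induction_on with
  | _ m ih =>
    intro hm hmy
    have h1 : ∀ i ∈ Finset.Ioo 0 m, ∃ ρ : ℝ, 0 < ρ ∧ (F^[i] y ∈ χ.source →
        2 * ρ ≤ ‖χ (F^[i] y) - χ y‖) := by
      intro i hi
      rw [Finset.mem_Ioo] at hi
      by_cases hs : F^[i] y ∈ χ.source
      · have hne : χ (F^[i] y) - χ y ≠ 0 := by
          intro h0
          exact ih i hi.2 hi.1 (χ.injOn hs hy (sub_eq_zero.mp h0))
        have hpos : 0 < ‖χ (F^[i] y) - χ y‖ := norm_pos_iff.mpr hne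
        exact ⟨‖χ (F^[i] y) - χ y‖ / 2, by positivity, fun _ => by linarith⟩
      · exact ⟨1, one_pos, fun h => absurd h hs⟩
    choose! g g1 g2 using h1
    obtain ⟨ρ, hρ0, hρκ, hρ⟩ : ∃ ρ : ℝ, 0 < ρ ∧ ρ < κ ∧ ∀ i ∈ Finset.Ioo 0 m, ρ ≤ g i := by
      by_cases hne : (Finset.Ioo 0 m).Nonempty
      · obtain ⟨i0, hi0, hmin⟩ := Finset.exists_min_image _ g hne
        refine ⟨min (g i0) (κ / 2), lt_min (g1 i0 hi0) (by positivity),
          (min_le_right _ _).trans_lt (by linarith), fun i hi => (min_le_left _ _).trans (hmin i hi)⟩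
      · rw [Finset.not_nonempty_iff_eq_empty] at hne
        refine ⟨κ / 2, by positivity, by linarith, ?_⟩
        rw [hne]
        simp
    obtain ⟨i, hi0, him, his, hid⟩ := h y ρ m hy hyκ hρ0 hρκ hm (by rw [hmy]; exact hy) (by
      rw [hmy, sub_self, norm_zero]
      positivity)
    have hi : i ∈ Finset.Ioo 0 m := Finset.mem_Ioo.mpr ⟨hi0, him⟩
    have h3 := g2 i hi his
    have h4 := hρ i hi
    linarith

/-- the product law with a parameter `δ` -/
theorem NCZ.star' (h : NCZ F χ k κ) (hk : 1 ≤ k) (hκ : 0 < κ) (δ : ℝ) (hδ : 0 < δ)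
    (hδκ : δ ≤ κ) (y : N) (hy : y ∈ χ.source) (hyκ : ‖χ y‖ < κ) (m : ℕ) (hm : 1 ≤ m)
    (hmy : F^[m] y ∈ χ.source) :
    ∃ T : Finset ℕ, T.card ≤ k ∧ (∀ i ∈ T, 0 < i ∧ i < m ∧ F^[i] y ∈ χ.source ∧
      ‖χ (F^[i] y) - χ y‖ < δ) ∧
      κ * (δ / 2) ^ (k - T.card) * ∏ i ∈ T, ‖χ (F^[i] y) - χ y‖ ≤ ‖χ (F^[m] y) - χ y‖ := by
  classical
  obtain ⟨d, hd⟩ : ∃ d : ℕ → ℝ, d = fun i => ‖χ (F^[i] y) - χ y‖ := ⟨_, rfl⟩
  obtain ⟨I, hI⟩ : ∃ I : Finset ℕ, I = (Finset.Ioo 0 m).filter fun i => F^[i] y ∈ χ.source ∧ d i < δ :=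
    ⟨_, rfl⟩
  have hmem : ∀ i, i ∈ I ↔ (0 < i ∧ i < m) ∧ F^[i] y ∈ χ.source ∧ d i < δ := by
    intro i
    rw [hI, Finset.mem_filter, Finset.mem_Ioo]
  have hpos : ∀ i ∈ I, 0 < d i := by
    intro i hi
    rw [hmem] at hi
    rw [hd]
    apply norm_pos_iff.mpr
    intro h0
    exact h.nc.not_per hκ y hy hyκ i hi.1.1 (χ.injOn hi.2.1 hy (sub_eq_zero.mp h0))
  -- the common conclusion
  have key : ∀ (T : Finset ℕ) (ρ : ℝ), T ⊆ I → T.card ≤ k → 0 < ρ → ρ < κ → (∀ i ∈ T, d i ≤ 2 * ρ) →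
      (∀ i ∈ I, i ∉ T → 2 * ρ ≤ d i) → 2 * ρ ≤ δ →
      κ * ρ ^ k * ∏ i ∈ T, (d i / ρ) ≤ d m := by
    intro T ρ hTI hTk hρ hρκ h1 h2 h3
    by_contra hcon
    push Not at hcon
    have h4 : d m * ∏ i ∈ T, ρ / d i < κ * ρ ^ k := by
      have h5 : (∏ i ∈ T, (d i / ρ)) * (∏ i ∈ T, ρ / d i) = 1 := by
        rw [← Finset.prod_mul_distrib]
        apply Finset.prod_eq_one
        intro i hi
        have := hpos i (hTI hi)
        field_simp
      have h6 : 0 < ∏ i ∈ T, ρ / d i := Finset.prod_pos fun i hi => by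
        have := hpos i (hTI hi)
        positivity
      calc d m * ∏ i ∈ T, ρ / d i < κ * ρ ^ k * (∏ i ∈ T, (d i / ρ)) * ∏ i ∈ T, ρ / d i :=
            mul_lt_mul_of_pos_right hcon h6
        _ = κ * ρ ^ k := by rw [mul_assoc, h5, mul_one]
    rw [hd] at h4
    obtain ⟨i, hi0, him, hiT, his, hid⟩ := h y ρ m T hy hyκ hρ hρκ hm hTk (by
      intro i hi
      have h7 := hpos i (hTI hi)
      have h8 := h1 i hi
      rw [hd] at h7 h8
      exact ⟨((hmem i).mp (hTI hi)).2.1, h7, h8⟩) hmy h4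
    have hiI : i ∈ I := by
      rw [hmem]
      refine ⟨⟨hi0, him⟩, his, ?_⟩
      rw [hd]
      exact lt_of_lt_of_le hid h3
    have := h2 i hiI hiT
    rw [hd] at this
    exact absurd hid (not_lt.mpr this)
  have hfin : ∀ T : Finset ℕ, T ⊆ I → ∀ i ∈ T, 0 < i ∧ i < m ∧ F^[i] y ∈ χ.source ∧
      ‖χ (F^[i] y) - χ y‖ < δ := by
    intro T hTI i hi
    obtain ⟨⟨a1, a2⟩, a3, a4⟩ := (hmem i).mp (hTI hi)
    rw [hd] at a4
    exact ⟨a1, a2, a3, a4⟩
  by_cases hcard : I.card ≤ k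
  · refine ⟨I, hcard, hfin I (Finset.Subset.refl _), ?_⟩
    have h1 := key I (δ / 2) (Finset.Subset.refl _) hcard (by positivity) (by linarith)
      (fun i hi => by
        have := ((hmem i).mp hi).2.2
        linarith) (fun i hi hi2 => absurd hi hi2) (by linarith)
    rw [hd] at h1
    refine le_trans (le_of_eq ?_) h1
    rw [Finset.prod_div_distrib, Finset.prod_const, mul_assoc, mul_assoc]
    congr 1
    have e : (δ / 2) ^ k = (δ / 2) ^ (k - I.card) * (δ / 2) ^ I.card := by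
      rw [← pow_add]
      congr 1
      omega
    rw [e]
    field_simp
  · push Not at hcard
    obtain ⟨T, hT, hmin⟩ := Finset.exists_min_image (I.powersetCard k) (fun T => ∑ i ∈ T, d i)
      (Finset.powersetCard_nonempty.mpr hcard.le)
    rw [Finset.mem_powersetCard] at hT
    obtain ⟨hTI, hTk⟩ := hT
    have hTne : T.Nonempty := by
      rw [← Finset.card_pos]
      omega
    obtain ⟨i0, hi0, hmax⟩ := Finset.exists_max_image T d hTne
    have hi0pos := hpos i0 (hTI hi0)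
    have hout : ∀ i ∈ I, i ∉ T → d i0 ≤ d i := by
      intro i hi hiT
      have h1 : insert i (T.erase i0) ∈ I.powersetCard k := by
        rw [Finset.mem_powersetCard]
        constructor
        · intro j hj
          rcases Finset.mem_insert.mp hj with rfl | hj
          · exact hi
          · exact hTI (Finset.mem_of_mem_erase hj)
        · rw [Finset.card_insert_of_notMem (fun h => hiT (Finset.mem_of_mem_erase h)),
            Finset.card_erase_of_mem hi0]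
          omega
      have h2 := hmin _ h1
      rw [Finset.sum_insert (fun h => hiT (Finset.mem_of_mem_erase h)),
        ← Finset.add_sum_erase T d hi0] at h2
      linarith
    have hi0δ : d i0 < δ := ((hmem i0).mp (hTI hi0)).2.2
    have h1 := key T (d i0 / 2) hTI hTk.le (by positivity) (by linarith)
      (fun i hi => by
        have := hmax i hi
        linarith) (fun i hi hi2 => by
        have := hout i hi hi2
        linarith) (by linarith)
    refine ⟨T, hTk.le, hfin T hTI, ?_⟩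
    have h2 : (d i0 / 2) ^ k * ∏ i ∈ T, (d i / (d i0 / 2)) = ∏ i ∈ T, d i := by
      rw [Finset.prod_div_distrib, Finset.prod_const, hTk]
      field_simp
    have h3 : κ * ∏ i ∈ T, d i ≤ d m := by
      rw [← h2, ← mul_assoc]
      exact h1
    rw [hd] at h3
    rw [hTk, Nat.sub_self, pow_zero, mul_one]
    exact h3

theorem NCZ.star (h : NCZ F χ k κ) (hk : 1 ≤ k) (hκ : 0 < κ) (hκ1 : κ ≤ 1) (δ : ℝ) (hδ : 0 < δ)
    (hδκ : δ ≤ κ) (y : N) (hy : y ∈ χ.source) (hyκ : ‖χ y‖ < κ) (m : ℕ) (hm : 1 ≤ m)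
    (hmy : F^[m] y ∈ χ.source) :
    ∃ T : Finset ℕ, T.card ≤ k ∧ (∀ i ∈ T, 0 < i ∧ i < m ∧ F^[i] y ∈ χ.source ∧
      ‖χ (F^[i] y) - χ y‖ < δ) ∧
      κ * (δ / 2) ^ k * ∏ i ∈ T, ‖χ (F^[i] y) - χ y‖ ≤ ‖χ (F^[m] y) - χ y‖ := by
  obtain ⟨T, h1, h2, h3⟩ := h.star' hk hκ δ hδ hδκ y hy hyκ m hm hmy
  refine ⟨T, h1, h2, le_trans ?_ h3⟩
  apply mul_le_mul_of_nonneg_right _ (Finset.prod_nonneg fun i _ => norm_nonneg _)
  apply mul_le_mul_of_nonneg_left _ hκ.le
  exact pow_le_pow_of_le_one (by positivity) (by linarith) (by omega)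

end

end Pool.Agent.U882.FW
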